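import Mathlib

/-! The square root chart and the height function. -/

open Complex Set Topology Filter

namespace Saddle486

/-- the branch `z₀ √((z₀² + l ξ)/z₀²)` -/
noncomputable def chart (z₀ l ξ : ℂ) : ℂ := z₀ * (1 + l * ξ / z₀ ^ 2) ^ (2⁻¹ : ℂ)

section
variable {z₀ l ξ : ℂ}

theorem z0_ne (hz : ‖z₀‖ = 3/4) : z₀ ≠ 0 := by
  intro h; rw [h, norm_zero] at hz; norm_num at hz

theorem chart_re (hz : ‖z₀‖ = 3/4) (hl : ‖l‖ = 1) (hξ : ‖ξ‖ ≤ 1/4) :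
    5/9 ≤ (1 + l * ξ / z₀ ^ 2).re := by
  have h1 : ‖l * ξ / z₀ ^ 2‖ ≤ 4/9 := by
    rw [norm_div, norm_mul, norm_pow, hz, hl, one_mul]
    rw [div_le_iff₀ (by norm_num)]
    linarith
  have h2 := (abs_le.1 ((abs_re_le_norm _).trans h1)).1
  rw [add_re, one_re]; linarith

theorem chart_sq (hz : ‖z₀‖ = 3/4) : chart z₀ l ξ ^ 2 = z₀ ^ 2 + l * ξ := by
  have h0 := z0_ne hz
  rw [chart, mul_pow]
  have : ((1 + l * ξ / z₀ ^ 2) ^ (2⁻¹ : ℂ)) ^ 2 = 1 + l * ξ / z₀ ^ 2 := by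
    have := cpow_ofNat_inv_pow (1 + l * ξ / z₀ ^ 2) 2
    simpa using this
  rw [this]; field_simp

theorem chart_div_re (hz : ‖z₀‖ = 3/4) (hl : ‖l‖ = 1) (hξ : ‖ξ‖ ≤ 1/4) :
    7/10 ≤ (chart z₀ l ξ / z₀).re := by
  have h0 := z0_ne hz
  rw [chart, mul_div_cancel_left₀ _ h0, cpow_inv_two_re]
  have h1 := chart_re hz hl hξ
  have h2 := re_le_norm (1 + l * ξ / z₀ ^ 2)
  apply Real.le_sqrt_of_sq_le
  linarith

theorem chart_norm (hz : ‖z₀‖ = 3/4) (hl : ‖l‖ = 1) (hξ : ‖ξ‖ ≤ 1/4) :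
    ‖chart z₀ l ξ‖ < 1 := by
  have h1 : ‖chart z₀ l ξ‖ ^ 2 ≤ 13/16 := by
    rw [← norm_pow, chart_sq hz]
    calc ‖z₀ ^ 2 + l * ξ‖ ≤ ‖z₀ ^ 2‖ + ‖l * ξ‖ := norm_add_le _ _
      _ ≤ 9/16 + 1/4 := by
          rw [norm_pow, hz, norm_mul, hl]; linarith
      _ = 13/16 := by norm_num
  nlinarith [norm_nonneg (chart z₀ l ξ)]

theorem chart_lip (hz : ‖z₀‖ = 3/4) (hl : ‖l‖ = 1) {ξ' : ℂ} (hξ : ‖ξ‖ ≤ 1/4)
    (hξ' : ‖ξ'‖ ≤ 1/4) : ‖chart z₀ l ξ - chart z₀ l ξ'‖ ≤ ‖ξ - ξ'‖ := by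
  have h0 := z0_ne hz
  have h1 : (chart z₀ l ξ - chart z₀ l ξ') * (chart z₀ l ξ + chart z₀ l ξ') = l * (ξ - ξ') := by
    have a := chart_sq (l := l) (ξ := ξ) hz
    have b := chart_sq (l := l) (ξ := ξ') hz
    linear_combination a - b
  have h2 : 1 ≤ ‖chart z₀ l ξ + chart z₀ l ξ'‖ := by
    have a := chart_div_re hz hl hξ
    have b := chart_div_re hz hl hξ'
    have c : 14/10 ≤ ‖(chart z₀ l ξ + chart z₀ l ξ') / z₀‖ := by
      refine le_trans ?_ (re_le_norm _)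
      rw [add_div, add_re]; linarith
    rw [norm_div, hz, le_div_iff₀ (by norm_num)] at c
    linarith
  have h3 := congr_arg norm h1
  rw [norm_mul, norm_mul, hl, one_mul] at h3
  rw [← h3]
  exact le_mul_of_one_le_right (norm_nonneg _) h2

theorem chart_continuousAt {X : Type*} [TopologicalSpace X] {a b c : X → ℂ} {x : X}
    (ha : ContinuousAt a x) (hb : ContinuousAt b x) (hc : ContinuousAt c x)
    (hz : ‖a x‖ = 3/4) (hl : ‖b x‖ = 1) (hξ : ‖c x‖ ≤ 1/4) :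
    ContinuousAt (fun y => chart (a y) (b y) (c y)) x := by
  unfold chart
  refine ha.mul (ContinuousAt.cpow ?_ continuousAt_const (Or.inl ?_))
  · refine continuousAt_const.add ((hb.mul hc).div₀ (ha.pow 2) (pow_ne_zero _ (z0_ne hz)))
  · have := chart_re hz hl hξ
    linarith

theorem chart_inv (hz : ‖z₀‖ = 3/4) (hl : ‖l‖ = 1) {z : ℂ} (h : 0 < (z / z₀).re) :
    chart z₀ l ((z ^ 2 - z₀ ^ 2) / l) = z := by
  have h0 := z0_ne hz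
  have hl0 : l ≠ 0 := by intro h; rw [h, norm_zero] at hl; norm_num at hl
  have h1 : 1 + l * ((z ^ 2 - z₀ ^ 2) / l) / z₀ ^ 2 = (z / z₀) ^ 2 := by
    field_simp; ring
  rw [chart, h1, sq_cpow_two_inv h]
  field_simp

theorem chart_zero (hz : ‖z₀‖ = 3/4) : chart z₀ l 0 = z₀ := by
  simp [chart]

theorem chart_neg : chart z₀ l (-ξ) = chart z₀ (-l) ξ := by
  simp [chart]

end

/-- the height function -/
def hh (z : ℂ) : ℝ := z.re + (z ^ 3).im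

theorem continuous_hh : Continuous hh := by unfold hh; fun_prop

theorem hh_lip {z z' : ℂ} (hz : ‖z‖ ≤ 1) (hz' : ‖z'‖ ≤ 1) : |hh z - hh z'| ≤ 4 * ‖z - z'‖ := by
  have h1 : hh z - hh z' = (z - z').re + ((z - z') * (z ^ 2 + z * z' + z' ^ 2)).im := by
    have : (z - z') * (z ^ 2 + z * z' + z' ^ 2) = z ^ 3 - z' ^ 3 := by ring
    rw [this, sub_im, sub_re]; simp only [hh]; ring
  rw [h1]
  have h2 : ‖z ^ 2 + z * z' + z' ^ 2‖ ≤ 3 := by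
    calc ‖z ^ 2 + z * z' + z' ^ 2‖ ≤ ‖z ^ 2‖ + ‖z * z'‖ + ‖z' ^ 2‖ := norm_add₃_le
      _ ≤ 1 + 1 + 1 := by
          rw [norm_pow, norm_pow, norm_mul]
          have a : ‖z‖ ^ 2 ≤ 1 := pow_le_one₀ (norm_nonneg _) hz
          have b : ‖z'‖ ^ 2 ≤ 1 := pow_le_one₀ (norm_nonneg _) hz'
          have c : ‖z‖ * ‖z'‖ ≤ 1 := mul_le_one₀ hz (norm_nonneg _) hz'
          linarith
      _ = 3 := by norm_num
  calc |(z - z').re + ((z - z') * (z ^ 2 + z * z' + z' ^ 2)).im|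
      ≤ |(z - z').re| + |((z - z') * (z ^ 2 + z * z' + z' ^ 2)).im| := abs_add_le _ _
    _ ≤ ‖z - z'‖ + ‖(z - z') * (z ^ 2 + z * z' + z' ^ 2)‖ :=
        add_le_add (abs_re_le_norm _) (abs_im_le_norm _)
    _ ≤ ‖z - z'‖ + ‖z - z'‖ * 3 := by
        rw [norm_mul]
        have := mul_le_mul_of_nonneg_left h2 (norm_nonneg (z - z'))
        linarith
    _ = 4 * ‖z - z'‖ := by ring

theorem hh_chart_lip {z₀ l ξ ξ' : ℂ} (hz : ‖z₀‖ = 3/4) (hl : ‖l‖ = 1) (hξ : ‖ξ‖ ≤ 1/4)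
    (hξ' : ‖ξ'‖ ≤ 1/4) : |hh (chart z₀ l ξ) - hh (chart z₀ l ξ')| ≤ 4 * ‖ξ - ξ'‖ :=
  (hh_lip (chart_norm hz hl hξ).le (chart_norm hz hl hξ').le).trans
    (mul_le_mul_of_nonneg_left (chart_lip hz hl hξ hξ') (by norm_num))

end Saddle486
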