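import Mathlib
import Pool.Agent.Helper486.Saddle.Chart

/-! Uniform non-affineness of the height function along chords. -/

open Complex Set Topology Filter

namespace Saddle486

open Polynomial in
theorem poly7 (c0 c1 c2 c3 c4 c5 c6 : ℝ) (p : Fin 7 → ℝ) (hp : Function.Injective p)
    (h : ∀ i, c0 + c1 * p i + c2 * p i ^ 2 + c3 * p i ^ 3 + c4 * p i ^ 4 + c5 * p i ^ 5 +
      c6 * p i ^ 6 = 0) : c0 = 0 ∧ c4 = 0 ∧ c6 = 0 := by
  let P : ℝ[X] := C c0 + C c1 * X + C c2 * X ^ 2 + C c3 * X ^ 3 + C c4 * X ^ 4 + C c5 * X ^ 5 +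
    C c6 * X ^ 6
  have hdeg : P.natDegree < Fintype.card (Fin 7) := by
    have : P.natDegree ≤ 6 := by simp only [P]; compute_degree
    simpa using Nat.lt_succ_of_le this
  have hP : P = 0 := Polynomial.eq_zero_of_natDegree_lt_card_of_eval_eq_zero P hp
    (fun i => by simpa [P] using h i) hdeg
  have h0 : P.coeff 0 = 0 := by rw [hP]; simp
  have h4 : P.coeff 4 = 0 := by rw [hP]; simp
  have h6 : P.coeff 6 = 0 := by rw [hP]; simp
  simp [P, coeff_X, coeff_C] at h0 h4 h6
  exact ⟨h0, h4, h6⟩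

theorem no_line {m : ℂ} (hm : ‖m‖ = 1) {a b α β : ℝ} {t : Fin 7 → ℝ} {z : Fin 7 → ℂ}
    (ht : Function.Injective t) (hz : ∀ j, z j ^ 2 = m ^ 2 * (a + (b + t j : ℝ) * I))
    (hp : ∀ j, (z j / m).re + (z j / m).im ≠ 0)
    (hH : ∀ j, hh (z j) = α + β * t j) : False := by
  have hm0 : m ≠ 0 := by intro h; rw [h, norm_zero] at hm; norm_num at hm
  set p : Fin 7 → ℝ := fun j => (z j / m).re + (z j / m).im with hpdef
  set d : Fin 7 → ℝ := fun j => (z j / m).re - (z j / m).im with hddef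
  have hq : ∀ j, (z j / m) ^ 2 = a + (b + t j : ℝ) * I := by
    intro j; rw [div_pow, hz j]; field_simp
  have hq1 : ∀ j, (z j / m).re ^ 2 - (z j / m).im ^ 2 = a := by
    intro j
    have := congr_arg Complex.re (hq j)
    rw [sq, mul_re] at this
    simp at this
    linear_combination this
  have hq2 : ∀ j, 2 * (z j / m).re * (z j / m).im = b + t j := by
    intro j
    have := congr_arg Complex.im (hq j)
    rw [sq, mul_im] at this
    simp at this
    linear_combination this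
  have hpd : ∀ j, d j = a / p j := by
    intro j
    rw [eq_div_iff (hp j), ← hq1 j]; simp only [hpdef, hddef]; ring
  have htp : ∀ j, t j = (p j ^ 2 - (a / p j) ^ 2) / 2 - b := by
    intro j
    rw [← hpd]
    have := hq2 j
    simp only [hpdef, hddef]; linear_combination -this
  have hpinj : Function.Injective p := by
    intro i j hij
    apply ht
    rw [htp i, htp j, hij]
  set x : ℝ := (m.re - m.im) / 2 with hx
  set y : ℝ := (m.re + m.im) / 2 with hy
  have hxy : x ^ 2 + y ^ 2 = 1/2 := by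
    have : m.re ^ 2 + m.im ^ 2 = 1 := by
      have h1 : ‖m‖ ^ 2 = m.re ^ 2 + m.im ^ 2 := by
        rw [← normSq_eq_norm_sq, normSq_apply]; ring
      rw [← h1, hm]; norm_num
    rw [hx, hy]; linear_combination this / 2
  have hzre : ∀ j, (z j).re = x * p j + y * (a / p j) := by
    intro j
    have h1 : z j = m * (z j / m) := by field_simp
    have h2 : (z j).re = m.re * (z j / m).re - m.im * (z j / m).im := by
      conv_lhs => rw [h1]
      rw [mul_re]
    rw [h2, ← hpd]
    simp only [hpdef, hddef, hx, hy]; ring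
  have hzim : ∀ j, (z j).im = y * p j - x * (a / p j) := by
    intro j
    have h1 : z j = m * (z j / m) := by field_simp
    have h2 : (z j).im = m.re * (z j / m).im + m.im * (z j / m).re := by
      conv_lhs => rw [h1]
      rw [mul_im]
    rw [h2, ← hpd]
    simp only [hpdef, hddef, hx, hy]; ring
  have hz3 : ∀ w : ℂ, (w ^ 3).im = 3 * w.re ^ 2 * w.im - w.im ^ 3 := by
    intro w
    rw [pow_succ, sq, mul_im, mul_im, mul_re]; ring
  obtain ⟨k0, k4, k6⟩ := poly7 ((x ^ 3 - 3 * x * y ^ 2) * a ^ 3) (β * a ^ 2 / 2)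
    (y * a - 3 * (3 * x ^ 2 * y - y ^ 3) * a ^ 2) (-α + β * b)
    (x - 3 * (x ^ 3 - 3 * x * y ^ 2) * a) (-β / 2) (3 * x ^ 2 * y - y ^ 3) p hpinj (by
      intro j
      have h1 := hH j
      rw [hh, hz3, hzre, hzim, htp j] at h1
      have h0 : p j ≠ 0 := hp j
      field_simp at h1
      apply mul_left_cancel₀ h0
      apply mul_left_cancel₀ (two_ne_zero (α := ℝ))
      linear_combination (p j) * h1)
  have hU : (x ^ 3 - 3 * x * y ^ 2) ≠ 0 := by
    intro hU
    have h1 : (x ^ 3 - 3 * x * y ^ 2) ^ 2 + (3 * x ^ 2 * y - y ^ 3) ^ 2 = (x ^ 2 + y ^ 2) ^ 3 := by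
      ring
    rw [hU, k6, hxy] at h1
    norm_num at h1
  have ha : a = 0 := by
    have := (mul_eq_zero.1 k0).resolve_left hU
    exact pow_eq_zero_iff (three_ne_zero) |>.1 this
  rw [ha] at k4
  have hx0 : x = 0 := by linarith
  rw [hx0] at k6 hxy
  have hy0 : y = 0 := by
    have : y ^ 3 = 0 := by linarith
    exact pow_eq_zero_iff (three_ne_zero) |>.1 this
  rw [hy0] at hxy
  norm_num at hxy

/-- sample points -/
noncomputable def tt (j : Fin 7) : ℝ := 1/20 + (j : ℕ) / 60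

theorem tt_inj : Function.Injective tt := by
  intro i j h
  simp only [tt] at h
  have : ((i : ℕ) : ℝ) = (j : ℕ) := by linarith
  exact Fin.ext (by exact_mod_cast this)

theorem tt_mem (j : Fin 7) : 1/20 ≤ tt j ∧ tt j ≤ 3/20 := by
  have h1 : ((j : ℕ) : ℝ) ≤ 6 := by
    have := j.2
    exact_mod_cast Nat.lt_succ_iff.1 this
  have h2 : (0 : ℝ) ≤ ((j : ℕ) : ℝ) := Nat.cast_nonneg _
  simp only [tt]
  constructor <;> linarith

/-- height along the chord -/
noncomputable def Hs (z₀ l : ℂ) (t : ℝ) : ℝ := hh (chart z₀ l (t * I))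

/-- the excess over the chord -/
noncomputable def EE (z₀ l : ℂ) (j : Fin 7) : ℝ :=
  Hs z₀ l (tt j) - (Hs z₀ l (1/20) + 10 * (Hs z₀ l (3/20) - Hs z₀ l (1/20)) * (tt j - 1/20))

theorem bulge_ne {z₀ l : ℂ} (hz : ‖z₀‖ = 3/4) (hl : ‖l‖ = 1) : ∃ j, EE z₀ l j ≠ 0 := by
  by_contra hcon
  push Not at hcon
  have hl0 : l ≠ 0 := by intro h; rw [h, norm_zero] at hl; norm_num at hl
  obtain ⟨m, hml⟩ := IsAlgClosed.exists_pow_nat_eq l (n := 2) (by norm_num)
  have hm : ‖m‖ = 1 := by
    have h1 : ‖m‖ ^ 2 = 1 := by rw [← norm_pow, hml, hl]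
    nlinarith [norm_nonneg m, sq_nonneg (‖m‖ - 1)]
  have hm0 : m ≠ 0 := by intro h; rw [h, norm_zero] at hm; norm_num at hm
  set a : ℝ := (z₀ ^ 2 / l).re with ha
  set b : ℝ := (z₀ ^ 2 / l).im with hb
  have hab : a ^ 2 + b ^ 2 = (9/16) ^ 2 := by
    have h1 : ‖z₀ ^ 2 / l‖ ^ 2 = a ^ 2 + b ^ 2 := by
      rw [← normSq_eq_norm_sq, normSq_apply]; ring
    rw [← h1, norm_div, norm_pow, hz, hl]; norm_num
  have hc : (a : ℂ) + b * I = z₀ ^ 2 / l := by
    apply Complex.ext <;> simp [ha, hb]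
  let z : Fin 7 → ℂ := fun j => chart z₀ l (tt j * I)
  have hzz : ∀ j, z j ^ 2 = m ^ 2 * (a + (b + tt j : ℝ) * I) := by
    intro j
    simp only [z]
    rw [chart_sq hz, hml]
    have : (a : ℂ) + (b + tt j : ℝ) * I = z₀ ^ 2 / l + tt j * I := by
      rw [← hc]; push_cast; ring
    rw [this]; field_simp
  have hH : ∀ j, hh (z j) = (Hs z₀ l (1/20) - 10 * (Hs z₀ l (3/20) - Hs z₀ l (1/20)) * (1/20)) +
      10 * (Hs z₀ l (3/20) - Hs z₀ l (1/20)) * tt j := by
    intro j
    have := hcon j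
    simp only [EE] at this
    have h2 : hh (z j) = Hs z₀ l (tt j) := rfl
    rw [h2]; linear_combination this
  by_cases hp : ∀ j, (z j / m).re + (z j / m).im ≠ 0
  · exact no_line hm tt_inj hzz hp hH
  · push Not at hp
    obtain ⟨j₀, hj₀⟩ := hp
    have hq : ∀ j, (z j / m) ^ 2 = a + (b + tt j : ℝ) * I := by
      intro j; rw [div_pow, hzz j]; field_simp
    have hq1 : ∀ j, (z j / m).re ^ 2 - (z j / m).im ^ 2 = a := by
      intro j
      have := congr_arg Complex.re (hq j)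
      rw [sq, mul_re] at this
      simp at this
      linear_combination this
    have hq2 : ∀ j, 2 * (z j / m).re * (z j / m).im = b + tt j := by
      intro j
      have := congr_arg Complex.im (hq j)
      rw [sq, mul_im] at this
      simp at this
      linear_combination this
    have ha0 : a = 0 := by
      rw [← hq1 j₀]
      linear_combination ((z j₀ / m).re - (z j₀ / m).im) * hj₀
    have hb0 : b = -(9/16) := by
      have h1 := hq2 j₀
      have h2 : (z j₀ / m).im = -(z j₀ / m).re := by linarith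
      rw [h2] at h1
      have h3 := (tt_mem j₀).1
      have h4 : b < 0 := by nlinarith [sq_nonneg (z j₀ / m).re]
      rw [ha0] at hab
      nlinarith
    refine no_line (m := I * m) (a := -a) (b := -b) (t := fun j => -tt j) (z := z)
      (α := (Hs z₀ l (1/20) - 10 * (Hs z₀ l (3/20) - Hs z₀ l (1/20)) * (1/20)))
      (β := -(10 * (Hs z₀ l (3/20) - Hs z₀ l (1/20)))) (by simp [hm])
      (neg_injective.comp tt_inj) ?_ ?_ ?_
    · intro j
      rw [hzz j]
      have : (I * m) ^ 2 = -m ^ 2 := by rw [mul_pow, I_sq]; ring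
      rw [this]; push_cast; ring
    · intro j
      have h1 : z j / (I * m) = -I * (z j / m) := by
        field_simp
        rw [I_sq]; ring
      rw [h1]
      simp only [mul_re, mul_im, neg_re, neg_im, I_re, I_im]
      intro h2
      have h3 : (z j / m).re = (z j / m).im := by linarith
      have h4 := hq2 j
      rw [h3] at h4
      have h5 := (tt_mem j).2
      nlinarith [sq_nonneg (z j / m).im]
    · intro j
      rw [hH j]; ring

theorem bulge_uniform : ∃ b₀ : ℝ, 0 < b₀ ∧ ∀ z₀ l : ℂ, ‖z₀‖ = 3/4 → ‖l‖ = 1 →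
    ∃ j, b₀ ≤ |EE z₀ l j| := by
  let K : Set (ℂ × ℂ) := Metric.sphere (0 : ℂ) (3/4) ×ˢ Metric.sphere (0 : ℂ) 1
  have hK : IsCompact K := (isCompact_sphere _ _).prod (isCompact_sphere _ _)
  have hKm : ∀ p : ℂ × ℂ, p ∈ K ↔ ‖p.1‖ = 3/4 ∧ ‖p.2‖ = 1 := by
    intro p; simp [K]
  have hHs : ∀ t : ℝ, |t| ≤ 1/4 → ContinuousOn (fun p : ℂ × ℂ => Hs p.1 p.2 t) K := by
    intro t ht p hp
    rw [hKm] at hp
    refine (continuous_hh.continuousAt.comp ?_).continuousWithinAt
    exact chart_continuousAt continuousAt_fst continuousAt_snd continuousAt_const hp.1 hp.2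
      (by simpa using ht)
  have hEE : ∀ j, ContinuousOn (fun p : ℂ × ℂ => EE p.1 p.2 j) K := by
    intro j
    have h1 := hHs (tt j) (by have := tt_mem j; rw [abs_le]; constructor <;> linarith)
    have h2 := hHs (1/20) (by norm_num [abs_le])
    have h3 := hHs (3/20) (by norm_num [abs_le])
    unfold EE
    exact h1.sub (h2.add (((continuousOn_const).mul (h3.sub h2)).mul continuousOn_const))
  have hsum : ContinuousOn (fun p : ℂ × ℂ => ∑ j, |EE p.1 p.2 j|) K :=
    continuousOn_finsetSum _ fun j _ => (hEE j).abs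
  obtain ⟨p₀, hp₀, hmin⟩ := hK.exists_isMinOn ⟨((3/4 : ℝ), 1), by rw [hKm]; constructor <;> simp⟩
    hsum
  have hpos : 0 < ∑ j, |EE p₀.1 p₀.2 j| := by
    rw [hKm] at hp₀
    obtain ⟨j, hj⟩ := bulge_ne hp₀.1 hp₀.2
    exact Finset.sum_pos' (fun _ _ => abs_nonneg _) ⟨j, Finset.mem_univ _, abs_pos.2 hj⟩
  refine ⟨(∑ j, |EE p₀.1 p₀.2 j|) / 7, by positivity, fun z₀ l hz hl => ?_⟩
  by_contra hcon
  push Not at hcon
  have h1 : ∑ j, |EE p₀.1 p₀.2 j| ≤ ∑ j, |EE z₀ l j| := hmin (show (z₀, l) ∈ K by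
    rw [hKm]; exact ⟨hz, hl⟩)
  have h2 : ∑ j, |EE z₀ l j| < ∑ j : Fin 7, (∑ j, |EE p₀.1 p₀.2 j|) / 7 :=
    Finset.sum_lt_sum_of_nonempty ⟨0, Finset.mem_univ _⟩ fun j _ => hcon j
  simp only [Finset.sum_const, Finset.card_univ, Fintype.card_fin, nsmul_eq_mul] at h2
  push_cast at h2
  linarith

end Saddle486
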