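import Mathlib

/-! Winding numbers of nowhere zero functions on the circle, continuous logarithms. -/

open Complex Set Topology

namespace Saddle486

/-- uniqueness of continuous logarithms on a preconnected set -/
theorem log_unique {X : Type*} [TopologicalSpace X] {S : Set X} (hS : IsPreconnected S)
    {L L' : X → ℂ} (hL : ContinuousOn L S) (hL' : ContinuousOn L' S)
    (h : ∀ x ∈ S, exp (L x) = exp (L' x)) {x₀ : X} (hx₀ : x₀ ∈ S) (h0 : L x₀ = L' x₀) :
    ∀ x ∈ S, L x = L' x := by
  have := Complex.isCoveringMap_exp.eqOn_of_comp_eqOn hS hL hL'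
    (fun x hx => Subtype.ext (by simpa using h x hx)) hx₀ h0
  exact this

/-- existence of a continuous logarithm on a real normed space -/
theorem exists_log {E : Type*} [NormedAddCommGroup E] [NormedSpace ℝ E] {F : E → ℂ}
    (hF : Continuous F) (h0 : ∀ x, F x ≠ 0) :
    ∃ L : E → ℂ, Continuous L ∧ ∀ x, exp (L x) = F x := by
  obtain ⟨L, hL, hE⟩ := Complex.exists_continuousOn_eqOn_exp_comp (X := E) (U := univ)
    (by
      have : ContractibleSpace (univ : Set E) :=
        (convex_univ (𝕜 := ℝ) (E := E)).contractibleSpace ⟨0, mem_univ _⟩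
      show SimplyConnectedSpace (univ : Set E)
      infer_instance) isOpen_univ hF.continuousOn
    (by rintro ⟨x, -, hx⟩; exact h0 x hx)
  exact ⟨L, continuousOn_univ.1 hL, fun x => hE (mem_univ x)⟩

/-- lifting of homotopies to the logarithm -/
theorem exists_log_homotopy {X : Type*} [TopologicalSpace X] (H : unitInterval × X → ℂ)
    (hH : Continuous H) (h0 : ∀ p, H p ≠ 0) {L₀ : X → ℂ} (hL₀ : Continuous L₀)
    (hE : ∀ x, exp (L₀ x) = H (0, x)) :
    ∃ L₁ : X → ℂ, Continuous L₁ ∧ ∀ x, exp (L₁ x) = H (1, x) := by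
  let H' : C(unitInterval × X, {z : ℂ // z ≠ 0}) := ⟨fun p => ⟨H p, h0 p⟩, by fun_prop⟩
  let K := Complex.isCoveringMap_exp.liftHomotopy H' ⟨L₀, hL₀⟩
    (fun a => Subtype.ext (hE a).symm)
  have hK := Complex.isCoveringMap_exp.liftHomotopy_lifts H' ⟨L₀, hL₀⟩
    (fun a => Subtype.ext (hE a).symm)
  refine ⟨fun x => K (1, x), by fun_prop, fun x => ?_⟩
  have := congr_fun hK (1, x)
  exact congr_arg Subtype.val this

/-- `F` has winding number `n`. -/
def HasW (F : Circle → ℂ) (n : ℤ) : Prop :=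
  ∃ L : Circle → ℂ, Continuous L ∧ ∀ x : Circle, F x = (x : ℂ) ^ n * exp (L x)

theorem HasW.ne_zero {F : Circle → ℂ} {n : ℤ} (h : HasW F n) (x : Circle) : F x ≠ 0 := by
  obtain ⟨L, -, hL⟩ := h
  rw [hL]
  exact mul_ne_zero (zpow_ne_zero _ x.coe_ne_zero) (exp_ne_zero _)

theorem HasW.mul {F F' : Circle → ℂ} {n m : ℤ} (h : HasW F n) (h' : HasW F' m) :
    HasW (fun x => F x * F' x) (n + m) := by
  obtain ⟨L, hc, hL⟩ := h
  obtain ⟨L', hc', hL'⟩ := h'
  refine ⟨fun x => L x + L' x, by fun_prop, fun x => ?_⟩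
  simp only
  rw [hL, hL', exp_add, zpow_add₀ x.coe_ne_zero]; ring

theorem HasW.zpow {F : Circle → ℂ} {n : ℤ} (h : HasW F n) (k : ℤ) :
    HasW (fun x => F x ^ k) (n * k) := by
  obtain ⟨L, hc, hL⟩ := h
  refine ⟨fun x => k * L x, by fun_prop, fun x => ?_⟩
  simp only
  rw [hL, mul_zpow, zpow_mul, exp_int_mul]

theorem HasW.congr {F F' : Circle → ℂ} {n : ℤ} (h : HasW F n) (h' : ∀ x, F' x = F x) :
    HasW F' n := by
  have : F' = F := funext h'
  rwa [this]

theorem HasW.of_log {L : Circle → ℂ} (hL : Continuous L) {F : Circle → ℂ}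
    (h : ∀ x, F x = exp (L x)) : HasW F 0 :=
  ⟨L, hL, fun x => by rw [h, zpow_zero, one_mul]⟩

theorem HasW.homotopy {H : unitInterval × Circle → ℂ} (hH : Continuous H) (h0 : ∀ p, H p ≠ 0) {n : ℤ}
    (hn : HasW (fun x => H (0, x)) n) : HasW (fun x => H (1, x)) n := by
  obtain ⟨L, hc, hL⟩ := hn
  obtain ⟨L₁, hc₁, hL₁⟩ := exists_log_homotopy (fun p : unitInterval × Circle => H p / (p.2 : ℂ) ^ n)
    (by
      refine hH.div₀ ?_ (fun p => zpow_ne_zero _ p.2.coe_ne_zero)
      have h2 : Continuous (fun p : unitInterval × Circle => (p.2 : ℂ)) := by fun_prop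
      exact h2.zpow₀ n (fun p => Or.inl p.2.coe_ne_zero))
    (fun p => div_ne_zero (h0 p) (zpow_ne_zero _ p.2.coe_ne_zero)) hc
    (fun x => by
      have h1 : H (0, x) = (x : ℂ) ^ n * exp (L x) := hL x
      have h2 := zpow_ne_zero n x.coe_ne_zero
      simp only
      rw [h1]; field_simp)
  refine ⟨L₁, hc₁, fun x => ?_⟩
  have h2 := zpow_ne_zero n x.coe_ne_zero
  simp only at hL₁ ⊢
  rw [hL₁]
  field_simp

/-- linear homotopy -/
theorem HasW.segment {F F' : Circle → ℂ} (hF : Continuous F) (hF' : Continuous F') {n : ℤ}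
    (hn : HasW F n)
    (h0 : ∀ x, ∀ s : ℝ, 0 ≤ s → s ≤ 1 → (1 - s : ℝ) * F x + (s : ℝ) * F' x ≠ 0) :
    HasW F' n := by
  have := HasW.homotopy (H := fun p : unitInterval × Circle => ((1 - (p.1 : ℝ) : ℝ) : ℂ) * F p.2 +
    ((p.1 : ℝ) : ℂ) * F' p.2) (by fun_prop) (fun p => h0 p.2 p.1 p.1.2.1 p.1.2.2)
    (n := n) (hn.congr (fun x => by simp))
  exact this.congr (fun x => by simp)

theorem HasW.close {F F' : Circle → ℂ} (hF : Continuous F) (hF' : Continuous F') {n : ℤ}
    (hn : HasW F n) (h : ∀ x, ‖F' x - F x‖ < ‖F x‖) : HasW F' n := by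
  refine hn.segment hF hF' fun x s h0 h1 hz => ?_
  have e : F x = -((s : ℝ) * (F' x - F x)) := by
    have : ((1 - s : ℝ) : ℂ) = 1 - (s : ℂ) := by push_cast; ring
    rw [this] at hz
    linear_combination hz
  have h2 : ‖F x‖ ≤ ‖F' x - F x‖ := by
    calc ‖F x‖ = ‖-((s : ℝ) * (F' x - F x))‖ := by rw [← e]
      _ = |s| * ‖F' x - F x‖ := by rw [norm_neg, norm_mul]; simp
      _ ≤ 1 * ‖F' x - F x‖ := by
          apply mul_le_mul_of_nonneg_right _ (norm_nonneg _)
          rw [abs_of_nonneg h0]; exact h1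
      _ = _ := one_mul _
  exact absurd (h x) (not_lt.2 h2)

theorem exists_hasW {F : Circle → ℂ} (hF : Continuous F) (h0 : ∀ x, F x ≠ 0) :
    ∃ n, HasW F n := by
  obtain ⟨L, hL, hE⟩ := exists_log (F := fun t : ℝ => F (Circle.exp t))
    (hF.comp Circle.exp.continuous) (fun t => h0 _)
  -- L (t + 2π) - L t is constant
  obtain ⟨n, hn⟩ : ∃ n : ℤ, L (2 * Real.pi) = L 0 + n * (2 * Real.pi * I) := by
    have : exp (L (2 * Real.pi)) = exp (L 0) := by
      rw [hE, hE]; simp
    obtain ⟨n, hn⟩ := exp_eq_exp_iff_exists_int.1 this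
    exact ⟨n, hn⟩
  have hper : ∀ t : ℝ, L (t + 2 * Real.pi) = L t + n * (2 * Real.pi * I) := by
    intro t
    have := log_unique (S := (univ : Set ℝ)) isPreconnected_univ
      (L := fun t : ℝ => L (t + 2 * Real.pi)) (L' := fun t => L t + n * (2 * Real.pi * I))
      (by fun_prop) (by fun_prop) (fun t _ => by
        rw [hE, exp_add, hE, exp_int_mul_two_pi_mul_I, mul_one]
        congr 1
        simp [Circle.exp_add]) (mem_univ (0 : ℝ)) (by simpa using hn) t (mem_univ t)
    exact this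
  let L₂ : ℝ → ℂ := fun t => L t - n * (t * I)
  have hL₂ : Continuous L₂ := by fun_prop
  have hL₂p : Function.Periodic L₂ (2 * Real.pi) := by
    intro t
    simp only [L₂, hper]
    push_cast; ring
  refine ⟨n, fun x => L₂ (arg (x : ℂ)), ?_, ?_⟩
  · have hq : IsQuotientMap (Circle.exp : ℝ → Circle) := by
      refine Circle.isCoveringMap_exp.isQuotientMap ?_
      intro x
      exact ⟨arg x, Circle.exp_arg x⟩
    rw [hq.continuous_iff]
    convert hL₂ using 1
    funext t
    simp only [Function.comp]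
    have h1 : Circle.exp (arg (Circle.exp t)) = Circle.exp t := Circle.exp_arg _
    obtain ⟨m, hm⟩ := Circle.exp_eq_exp.1 h1
    rw [hm]
    have := hL₂p.int_mul m t
    simpa using this
  · intro x
    have h1 : Circle.exp (arg (x : ℂ)) = x := Circle.exp_arg x
    have h2 : F x = exp (L (arg (x : ℂ))) := by rw [hE, h1]
    have h3 : exp (arg (x : ℂ) * I) = (x : ℂ) := by
      conv_rhs => rw [← h1, Circle.coe_exp]
    have h4 : (x : ℂ) ^ n = exp (n * (arg (x : ℂ) * I)) := by rw [exp_int_mul, h3]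
    rw [h2, h4, ← exp_add]
    congr 1
    simp only [L₂]
    ring

theorem HasW.unique {F : Circle → ℂ} {n m : ℤ} (h : HasW F n) (h' : HasW F m) : n = m := by
  obtain ⟨L, hc, hL⟩ := h
  obtain ⟨L', hc', hL'⟩ := h'
  have h1 := log_unique (S := (univ : Set ℝ)) isPreconnected_univ
    (L := fun t : ℝ => n * (t * I) + L (Circle.exp t))
    (L' := fun t : ℝ => m * (t * I) + L' (Circle.exp t) + (L 1 - L' 1))
    (by fun_prop) (by fun_prop) ?_ (mem_univ (0 : ℝ)) (by simp) (2 * Real.pi) (mem_univ _)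
  · simp only [Circle.exp_two_pi] at h1
    have h2 : ((n : ℂ) - m) * (2 * Real.pi * I) = 0 := by
      push_cast at h1
      linear_combination h1
    have h3 : (2 * Real.pi * I : ℂ) ≠ 0 := two_pi_I_ne_zero
    have h4 := (mul_eq_zero.1 h2).resolve_right h3
    exact_mod_cast sub_eq_zero.1 h4
  · intro t _
    have e1 : exp (L 1 - L' 1) = 1 := by
      have a := hL 1
      have b := hL' 1
      rw [a] at b
      simp at b
      rw [exp_sub, b, div_self (exp_ne_zero _)]
    have a := hL (Circle.exp t)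
    have b := hL' (Circle.exp t)
    rw [a] at b
    simp only [Circle.coe_exp] at b
    rw [exp_add, exp_add, exp_add, e1, mul_one, exp_int_mul, exp_int_mul]
    exact b

theorem hasW_id : HasW (fun x => (x : ℂ)) 1 :=
  ⟨fun _ => 0, by fun_prop, fun x => by simp⟩

/-- antisymmetric functions have odd winding -/
theorem HasW.odd {F : Circle → ℂ} {n : ℤ} (h : HasW F n) (hodd : ∀ x, F (-x) = -F x) :
    Odd n := by
  obtain ⟨L, hc, hL⟩ := h
  by_contra hn
  rw [Int.not_odd_iff_even] at hn
  have hD : ∀ x : Circle, exp (L (-x)) = -exp (L x) := by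
    intro x
    have h1 := hodd x
    rw [hL, hL] at h1
    have h2 : ((-x : Circle) : ℂ) = -(x : ℂ) := by simp
    rw [h2, hn.neg_zpow] at h1
    have h3 := zpow_ne_zero n x.coe_ne_zero
    have h4 : (x : ℂ) ^ n * (exp (L (-x)) + exp (L x)) = 0 := by linear_combination h1
    have h5 := (mul_eq_zero.1 h4).resolve_left h3
    linear_combination h5
  have hcn : Continuous (fun x : Circle => -x) := continuous_neg
  have hpre : IsPreconnected (univ : Set Circle) := by
    have : (univ : Set Circle) = Circle.exp '' (univ : Set ℝ) := by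
      ext x; simp only [mem_univ, image_univ, true_iff]
      exact ⟨arg x, Circle.exp_arg x⟩
    rw [this]
    exact isPreconnected_univ.image _ Circle.exp.continuous.continuousOn
  have key := log_unique hpre (L := fun x : Circle => L (-x) - L x)
    (L' := fun _ => L (-1) - L 1) (by fun_prop) (by fun_prop)
    (fun x _ => by
      rw [exp_sub, exp_sub, hD, hD, neg_div, neg_div, div_self (exp_ne_zero _),
        div_self (exp_ne_zero _)]) (mem_univ 1) (by simp) (-1) (mem_univ _)
  have h6 : L 1 = L (-1) := by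
    have h7 : (2 : ℂ) * (L 1 - L (-1)) = 0 := by
      simp only [neg_neg] at key
      linear_combination key
    have := (mul_eq_zero.1 h7).resolve_left two_ne_zero
    exact sub_eq_zero.1 this
  have h8 := hD 1
  rw [← h6] at h8
  have h9 : (2 : ℂ) * exp (L 1) = 0 := by linear_combination h8
  exact (mul_ne_zero two_ne_zero (exp_ne_zero _)) h9

theorem HasW.comp {χ : Circle → ℂ} {k : ℤ} (h : HasW χ k) {m : Circle → Circle}
    (hm : Continuous m) {n : ℤ} (hn : HasW (fun x => (m x : ℂ)) n) :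
    HasW (fun x => χ (m x)) (n * k) := by
  obtain ⟨L, hc, hL⟩ := h
  have h1 := hn.zpow k
  have h2 := h1.mul (HasW.of_log (L := fun x => L (m x)) (by fun_prop) (fun x => rfl))
  rw [add_zero] at h2
  exact h2.congr (fun x => hL (m x))

end Saddle486
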