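import Mathlib
import Pool.Agent.Helper486.Saddle.Winding

/-! Crossing lemma in a rectangle. -/

open Complex Set Topology

namespace Saddle486

theorem continuous_log_of_re_pos {X : Type*} [TopologicalSpace X] {F : X → ℂ}
    (hF : Continuous F) (h : ∀ x, 0 < (F x).re) : Continuous (fun x => log (F x)) :=
  hF.clog (fun x => Or.inl (h x))

theorem log_diff {F L : ℝ → ℂ} (hL : Continuous L) (hF : ∀ t, exp (L t) = F t) {c : ℂ}
    (h : ∀ t, 0 < (c * F t).re) (a b : ℝ) :
    L b - L a = log (c * F b) - log (c * F a) := by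
  have hFc : Continuous F := by
    have : F = fun t => exp (L t) := by funext t; rw [hF]
    rw [this]; fun_prop
  have hne : ∀ t, c * F t ≠ 0 := by
    intro t h0
    have := h t
    rw [h0] at this; simp at this
  have hc : c ≠ 0 := left_ne_zero_of_mul (hne 0)
  have h1 := log_unique (S := (univ : Set ℝ)) isPreconnected_univ (L := L)
    (L' := fun t => log (c * F t) + (L a - log (c * F a))) hL.continuousOn
    (((continuous_log_of_re_pos (by fun_prop) h).add continuous_const).continuousOn)
    (fun t _ => by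
      rw [exp_add, exp_log (hne t), exp_sub, exp_log (hne a), hF, hF]
      have h2 : F a ≠ 0 := right_ne_zero_of_mul (hne a)
      field_simp) (mem_univ a) (by simp) b (mem_univ b)
  rw [h1]; ring

theorem crossing {a b p q : ℂ} (γ : Path a b) (δ : Path p q)
    (h1 : ∀ t, a.re < (δ t).re) (h2 : ∀ t, (δ t).re < b.re)
    (h3 : ∀ s, p.im < (γ s).im) (h4 : ∀ s, (γ s).im < q.im) : ∃ s t, γ s = δ t := by
  by_contra hcon
  push Not at hcon
  let F : ℝ × ℝ → ℂ := fun x => γ.extend x.1 - δ.extend x.2
  have hFc : Continuous F := by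
    have := γ.continuous_extend
    have := δ.continuous_extend
    fun_prop
  have hγ : ∀ s, ∃ s', γ.extend s = γ s' := fun s => by
    have : γ.extend s ∈ range γ := by rw [← γ.extend_range]; exact mem_range_self s
    obtain ⟨s', hs'⟩ := this; exact ⟨s', hs'.symm⟩
  have hδ : ∀ s, ∃ s', δ.extend s = δ s' := fun s => by
    have : δ.extend s ∈ range δ := by rw [← δ.extend_range]; exact mem_range_self s
    obtain ⟨s', hs'⟩ := this; exact ⟨s', hs'.symm⟩
  have hF0 : ∀ x, F x ≠ 0 := by
    rintro ⟨s, t⟩ h
    obtain ⟨s', hs'⟩ := hγ s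
    obtain ⟨t', ht'⟩ := hδ t
    simp only [F, hs', ht'] at h
    exact hcon s' t' (sub_eq_zero.1 h)
  obtain ⟨L, hL, hE⟩ := exists_log hFc hF0
  have hγ0 : γ.extend 0 = a := γ.extend_zero
  have hγ1 : γ.extend 1 = b := γ.extend_one
  have hδ0 : δ.extend 0 = p := δ.extend_zero
  have hδ1 : δ.extend 1 = q := δ.extend_one
  have d1 := log_diff (F := fun s => F (s, 0)) (L := fun s => L (s, 0)) (by fun_prop)
    (fun s => hE _) (c := -I) (fun s => by
      obtain ⟨s', hs'⟩ := hγ s
      have := h3 s'
      simp [F, hs', hδ0]; linarith) 0 1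
  have d2 := log_diff (F := fun t => F (1, t)) (L := fun t => L (1, t)) (by fun_prop)
    (fun s => hE _) (c := 1) (fun s => by
      obtain ⟨s', hs'⟩ := hδ s
      have := h2 s'
      simp [F, hs', hγ1]; linarith) 0 1
  have d3 := log_diff (F := fun s => F (s, 1)) (L := fun s => L (s, 1)) (by fun_prop)
    (fun s => hE _) (c := I) (fun s => by
      obtain ⟨s', hs'⟩ := hγ s
      have := h4 s'
      simp [F, hs', hδ1]; linarith) 1 0
  have d4 := log_diff (F := fun t => F (0, t)) (L := fun t => L (0, t)) (by fun_prop)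
    (fun s => hE _) (c := -1) (fun s => by
      obtain ⟨s', hs'⟩ := hδ s
      have := h1 s'
      simp [F, hs', hγ0]; linarith) 1 0
  have i1 := congr_arg Complex.im d1
  have i2 := congr_arg Complex.im d2
  have i3 := congr_arg Complex.im d3
  have i4 := congr_arg Complex.im d4
  simp only [sub_im, log_im] at i1 i2 i3 i4
  -- corner signs
  have c00 : 0 < (F (0, 0)).im := by
    have := h3 0; simp only [γ.source] at this; simp [F]; linarith
  have c10 : 0 < (F (1, 0)).im := by
    have := h3 1; simp only [γ.target] at this; simp [F]; linarith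
  have c11 : (F (1, 1)).im < 0 := by
    have := h4 1; simp only [γ.target] at this; simp [F]; linarith
  have c01 : (F (0, 1)).im < 0 := by
    have := h4 0; simp only [γ.source] at this; simp [F]; linarith
  have key1 : ∀ z : ℂ, 0 < z.im → arg (-I * z) = arg z - Real.pi / 2 := by
    intro z hz
    have hz0 : z ≠ 0 := by rintro rfl; simp at hz
    have h5 := arg_nonneg_iff.2 hz.le
    have h6 := arg_le_pi z
    rw [arg_mul (by simp) hz0, arg_neg_I]
    · ring
    · rw [arg_neg_I]; constructor <;> linarith [Real.pi_pos]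
  have key2 : ∀ z : ℂ, z.im < 0 → arg (I * z) = arg z + Real.pi / 2 := by
    intro z hz
    have hz0 : z ≠ 0 := by rintro rfl; simp at hz
    have h5 := arg_neg_iff.2 hz
    have h6 := neg_pi_lt_arg z
    rw [arg_mul (by simp) hz0, arg_I]
    · ring
    · rw [arg_I]; constructor <;> linarith [Real.pi_pos]
  have k00 := key1 _ c00
  have k10 := key1 _ c10
  have k11 := key2 _ c11
  have k01 := key2 _ c01
  have n00 : arg (-1 * F (0, 0)) = arg (F (0, 0)) - Real.pi := by
    rw [neg_one_mul, arg_neg_eq_arg_sub_pi_of_im_pos c00]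
  have n01 : arg (-1 * F (0, 1)) = arg (F (0, 1)) + Real.pi := by
    rw [neg_one_mul, arg_neg_eq_arg_add_pi_of_im_neg c01]
  rw [k00, k10] at i1
  rw [one_mul, one_mul] at i2
  rw [k11, k01] at i3
  rw [n00, n01] at i4
  linarith [Real.pi_pos]

end Saddle486
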