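import Mathlib

/-! The touch lemma. -/

open Complex Set Topology Filter
open scoped InnerProductSpace

namespace Saddle486

/-- no functional `⟪N, G⟫ + η ‖G‖²` has a local maximum in `V` -/
def MaxP {E : Type*} [NormedAddCommGroup E] [InnerProductSpace ℝ E] (G : ℂ → E) (V : Set ℂ) :
    Prop :=
  ∀ N : E, ∀ η : ℝ, 0 < η → ∀ x ∈ V, ¬ IsLocalMax (fun ξ => ⟪N, G ξ⟫_ℝ + η * ‖G ξ‖ ^ 2) x

theorem comp_compl_nhds {U : Set ℂ} (hU : IsOpen U) {c ξ : ℂ} (hξ : ξ ∈ U)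
    (hn : ξ ∉ connectedComponentIn U c) :
    ∀ᶠ y in 𝓝 ξ, y ∈ U ∧ y ∉ connectedComponentIn U c := by
  have ho : IsOpen (connectedComponentIn U ξ) := hU.connectedComponentIn
  filter_upwards [ho.mem_nhds (mem_connectedComponentIn hξ)] with y hy
  refine ⟨connectedComponentIn_subset _ _ hy, fun hy' => hn ?_⟩
  have h1 := connectedComponentIn_eq hy
  have h2 := connectedComponentIn_eq hy'
  rw [h2, ← h1]
  exact mem_connectedComponentIn hξ

/-- the open rectangle -/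
def QO : Set ℂ := {ξ | (-(1/8) < ξ.re ∧ ξ.re < 1/8) ∧ 1/50 < ξ.im ∧ ξ.im < 1/5}

/-- the closed rectangle -/
def QC : Set ℂ := {ξ | (-(1/10) ≤ ξ.re ∧ ξ.re ≤ 1/10) ∧ 1/20 ≤ ξ.im ∧ ξ.im ≤ 3/20}

theorem isOpen_QO : IsOpen QO := by
  have h1 : IsOpen {ξ : ℂ | -(1/8) < ξ.re} := isOpen_lt continuous_const continuous_re
  have h2 : IsOpen {ξ : ℂ | ξ.re < 1/8} := isOpen_lt continuous_re continuous_const
  have h3 : IsOpen {ξ : ℂ | 1/50 < ξ.im} := isOpen_lt continuous_const continuous_im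
  have h4 : IsOpen {ξ : ℂ | ξ.im < 1/5} := isOpen_lt continuous_im continuous_const
  exact (h1.inter h2).inter (h3.inter h4)

theorem QC_subset_QO : QC ⊆ QO := by
  rintro ξ ⟨⟨h1, h2⟩, h3, h4⟩
  refine ⟨⟨?_, ?_⟩, ?_, ?_⟩ <;> linarith

theorem isCompact_QC : IsCompact QC := by
  have h1 : IsClosed {ξ : ℂ | -(1/10) ≤ ξ.re} := isClosed_le continuous_const continuous_re
  have h2 : IsClosed {ξ : ℂ | ξ.re ≤ 1/10} := isClosed_le continuous_re continuous_const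
  have h3 : IsClosed {ξ : ℂ | 1/20 ≤ ξ.im} := isClosed_le continuous_const continuous_im
  have h4 : IsClosed {ξ : ℂ | ξ.im ≤ 3/20} := isClosed_le continuous_im continuous_const
  have hc : IsClosed QC := (h1.inter h2).inter (h3.inter h4)
  refine Metric.isCompact_of_isClosed_isBounded hc ?_
  refine (Metric.isBounded_closedBall (x := (0 : ℂ)) (r := 1)).subset ?_
  rintro ξ ⟨⟨h1, h2⟩, h3, h4⟩
  rw [mem_closedBall_zero_iff]
  have : ‖ξ‖ ≤ |ξ.re| + |ξ.im| := norm_le_abs_re_add_abs_im ξ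
  have h5 : |ξ.re| ≤ 1/10 := abs_le.2 ⟨h1, h2⟩
  have h6 : |ξ.im| ≤ 3/20 := abs_le.2 ⟨by linarith, h4⟩
  linarith

/-- base point on the right -/
noncomputable def cp : ℂ := ⟨1/10, 1/10⟩
/-- base point on the left -/
noncomputable def cm : ℂ := ⟨-(1/10), 1/10⟩

theorem cp_mem : cp ∈ QO := by
  refine ⟨⟨?_, ?_⟩, ?_, ?_⟩ <;> norm_num [cp]

theorem cm_mem : cm ∈ QO := by
  refine ⟨⟨?_, ?_⟩, ?_, ?_⟩ <;> norm_num [cm]

/-- the right component of `{u > 0}` in the rectangle -/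
def Omp (u : ℂ → ℝ) : Set ℂ := connectedComponentIn ({ξ | 0 < u ξ} ∩ QO) cp
/-- the left component of `{u < 0}` in the rectangle -/
def Omm (u : ℂ → ℝ) : Set ℂ := connectedComponentIn ({ξ | u ξ < 0} ∩ QO) cm

theorem convex_halfright (a : ℝ) : Convex ℝ ({ξ : ℂ | a < ξ.re} ∩ QO) := by
  have h0 : Convex ℝ {ξ : ℂ | a < ξ.re} := convex_halfSpace_re_gt a
  have h1 : Convex ℝ {ξ : ℂ | -(1/8) < ξ.re} := convex_halfSpace_re_gt _
  have h2 : Convex ℝ {ξ : ℂ | ξ.re < 1/8} := convex_halfSpace_re_lt _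
  have h3 : Convex ℝ {ξ : ℂ | 1/50 < ξ.im} := convex_halfSpace_im_gt _
  have h4 : Convex ℝ {ξ : ℂ | ξ.im < 1/5} := convex_halfSpace_im_lt _
  exact h0.inter ((h1.inter h2).inter (h3.inter h4))

theorem convex_halfleft (a : ℝ) : Convex ℝ ({ξ : ℂ | ξ.re < a} ∩ QO) := by
  have h0 : Convex ℝ {ξ : ℂ | ξ.re < a} := convex_halfSpace_re_lt a
  have h1 : Convex ℝ {ξ : ℂ | -(1/8) < ξ.re} := convex_halfSpace_re_gt _
  have h2 : Convex ℝ {ξ : ℂ | ξ.re < 1/8} := convex_halfSpace_re_lt _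
  have h3 : Convex ℝ {ξ : ℂ | 1/50 < ξ.im} := convex_halfSpace_im_gt _
  have h4 : Convex ℝ {ξ : ℂ | ξ.im < 1/5} := convex_halfSpace_im_lt _
  exact h0.inter ((h1.inter h2).inter (h3.inter h4))

section
variable {u : ℂ → ℝ} {κ : ℝ}

theorem mem_Omp (hκ : κ < 1/10) (hu : ∀ ξ ∈ QO, |u ξ - ξ.re| ≤ κ) {ξ : ℂ} (hξ : ξ ∈ QO)
    (h : κ < ξ.re) : ξ ∈ Omp u := by
  refine (convex_halfright κ).isPreconnected.subset_connectedComponentIn
    (x := cp) ⟨?_, cp_mem⟩ ?_ ⟨h, hξ⟩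
  · show κ < cp.re; simpa [cp] using hκ
  · rintro y ⟨hy1, hy2⟩
    refine ⟨?_, hy2⟩
    have := abs_le.1 (hu y hy2)
    have h2 : κ < y.re := hy1
    show 0 < u y
    linarith

theorem mem_Omm (hκ : κ < 1/10) (hu : ∀ ξ ∈ QO, |u ξ - ξ.re| ≤ κ) {ξ : ℂ} (hξ : ξ ∈ QO)
    (h : ξ.re < -κ) : ξ ∈ Omm u := by
  refine (convex_halfleft (-κ)).isPreconnected.subset_connectedComponentIn
    (x := cm) ⟨?_, cm_mem⟩ ?_ ⟨h, hξ⟩
  · show cm.re < -κ; simp only [cm]; linarith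
  · rintro y ⟨hy1, hy2⟩
    refine ⟨?_, hy2⟩
    have := abs_le.1 (hu y hy2)
    have h2 : y.re < -κ := hy1
    show u y < 0
    linarith

theorem Omp_sub {ξ : ℂ} (h : ξ ∈ Omp u) : 0 < u ξ ∧ ξ ∈ QO :=
  connectedComponentIn_subset ({ξ | 0 < u ξ} ∩ QO) cp h
theorem Omm_sub {ξ : ℂ} (h : ξ ∈ Omm u) : u ξ < 0 ∧ ξ ∈ QO :=
  connectedComponentIn_subset ({ξ | u ξ < 0} ∩ QO) cm h

open Classical in
/-- the signed modulus of `u` -/
noncomputable def sgnu (u : ℂ → ℝ) (ξ : ℂ) : ℝ :=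
  if ξ ∈ Omp u ∨ ξ ∈ Omm u then -|u ξ| else |u ξ|

theorem abs_sgnu (ξ : ℂ) : |sgnu u ξ| = |u ξ| := by
  unfold sgnu; split_ifs <;> simp

theorem sgnu_cases (huc : ContinuousOn u QO) {ξ : ℂ} (hξ : ξ ∈ QO) :
    (∃ σ : ℝ, (σ = 1 ∨ σ = -1) ∧ ∀ᶠ y in 𝓝 ξ, sgnu u y = σ * u y) ∨ u ξ = 0 := by
  have hUp : IsOpen ({ξ | 0 < u ξ} ∩ QO) := by
    have := huc.isOpen_inter_preimage isOpen_QO (isOpen_Ioi (a := (0 : ℝ)))
    rw [inter_comm]; exact this
  have hUm : IsOpen ({ξ | u ξ < 0} ∩ QO) := by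
    have := huc.isOpen_inter_preimage isOpen_QO (isOpen_Iio (a := (0 : ℝ)))
    rw [inter_comm]; exact this
  have hOp : IsOpen (Omp u) := hUp.connectedComponentIn
  have hOm : IsOpen (Omm u) := hUm.connectedComponentIn
  rcases lt_trichotomy (u ξ) 0 with h | h | h
  · left
    by_cases hm : ξ ∈ Omm u
    · refine ⟨1, Or.inl rfl, ?_⟩
      filter_upwards [hOm.mem_nhds hm] with y hy
      have := (Omm_sub hy).1
      simp [sgnu, hy, abs_of_neg this]
    · refine ⟨-1, Or.inr rfl, ?_⟩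
      filter_upwards [comp_compl_nhds hUm ⟨h, hξ⟩ hm] with y hy
      have h1 : u y < 0 := hy.1.1
      have h2 : y ∉ Omp u := fun h => absurd (Omp_sub h).1 (not_lt.2 h1.le)
      have h3 : y ∉ Omm u := hy.2
      simp [sgnu, h2, h3, abs_of_neg h1]
  · right; exact h
  · left
    by_cases hp : ξ ∈ Omp u
    · refine ⟨-1, Or.inr rfl, ?_⟩
      filter_upwards [hOp.mem_nhds hp] with y hy
      have := (Omp_sub hy).1
      simp [sgnu, hy, abs_of_pos this]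
    · refine ⟨1, Or.inl rfl, ?_⟩
      filter_upwards [comp_compl_nhds hUp ⟨h, hξ⟩ hp] with y hy
      have h1 : 0 < u y := hy.1.1
      have h2 : y ∉ Omm u := fun h => absurd (Omm_sub h).1 (not_lt.2 h1.le)
      have h3 : y ∉ Omp u := hy.2
      simp [sgnu, h2, h3, abs_of_pos h1]

theorem sgnu_continuousAt (huc : ContinuousOn u QO) {ξ : ℂ} (hξ : ξ ∈ QO) :
    ContinuousAt (sgnu u) ξ := by
  have hua : ContinuousAt u ξ := huc.continuousAt (isOpen_QO.mem_nhds hξ)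
  rcases sgnu_cases huc hξ with ⟨σ, -, h⟩ | h
  · exact (hua.const_mul σ).congr (h.mono fun _ h => h.symm)
  · have h0 : sgnu u ξ = 0 := by
      have := abs_sgnu (u := u) ξ
      rw [h, abs_zero] at this
      exact abs_eq_zero.1 this
    rw [ContinuousAt, h0, tendsto_zero_iff_abs_tendsto_zero]
    have h1 : Tendsto (fun y => |u y|) (𝓝 ξ) (𝓝 0) := by
      have := hua.abs
      rw [ContinuousAt, h, abs_zero] at this
      exact this
    refine h1.congr fun y => (abs_sgnu y).symm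

theorem sgnu_local (huc : ContinuousOn u QO) {ξ : ℂ} (hξ : ξ ∈ QO)
    (hnt : ¬ (ξ ∈ closure (Omp u) ∧ ξ ∈ closure (Omm u))) :
    ∃ σ : ℝ, sgnu u ξ = σ * u ξ ∧ ∀ᶠ y in 𝓝 ξ, σ * u y ≤ sgnu u y := by
  rcases sgnu_cases huc hξ with ⟨σ, -, h⟩ | h
  · exact ⟨σ, h.self_of_nhds, h.mono fun _ h => h.ge⟩
  · have h0 : sgnu u ξ = 0 := by
      have := abs_sgnu (u := u) ξ
      rw [h, abs_zero] at this
      exact abs_eq_zero.1 this
    rw [not_and_or] at hnt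
    rcases hnt with hn | hn
    · refine ⟨1, by rw [h0, h, mul_zero], ?_⟩
      filter_upwards [isClosed_closure.isOpen_compl.mem_nhds hn] with y hy
      have hy' : y ∉ Omp u := fun h => hy (subset_closure h)
      unfold sgnu
      split_ifs with hc
      · have := (Omm_sub (hc.resolve_left hy')).1
        rw [abs_of_neg this]; linarith
      · rw [one_mul]; exact le_abs_self _
    · refine ⟨-1, by rw [h0, h, mul_zero], ?_⟩
      filter_upwards [isClosed_closure.isOpen_compl.mem_nhds hn] with y hy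
      have hy' : y ∉ Omm u := fun h => hy (subset_closure h)
      unfold sgnu
      split_ifs with hc
      · have := (Omp_sub (hc.resolve_right hy')).1
        rw [abs_of_pos this]; linarith
      · rw [neg_one_mul]; exact neg_le_abs _

end

/-- the touch lemma -/
theorem touch {E : Type*} [NormedAddCommGroup E] [InnerProductSpace ℝ E] {G : ℂ → E}
    (hG : ContinuousOn G QO) (hmax : MaxP G QO) (ν Λ : E) (c₀ α : ℝ) {κ l e₁ b M C : ℝ}
    (hκ : κ < 1/10) (hκ0 : 0 ≤ κ) (hu : ∀ ξ ∈ QO, |(⟪ν, G ξ⟫_ℝ - c₀) - ξ.re| ≤ κ)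
    (hl : 5 ≤ l)
    (hA1 : ∀ ξ ∈ QC, ξ.im = 1/20 ∨ ξ.im = 3/20 → ⟪Λ, G ξ⟫_ℝ - α ≤ 5 * |ξ.re| + e₁)
    (hA2 : ∀ ξ ∈ QC, ⟪Λ, G ξ⟫_ℝ - α ≤ M)
    {tm : ℝ} (htm : 1/20 ≤ tm ∧ tm ≤ 3/20) (hA3 : b ≤ ⟪Λ, G (tm * I)⟫_ℝ - α)
    (hC : ∀ ξ ∈ QC, ‖G ξ‖ ^ 2 ≤ C) (hb1 : e₁ + (5 + 3 * l) * κ < b)
    (hb2 : M - l * (1/10) < b - 2 * l * κ) :
    ∃ x ∈ QO, x ∈ closure (Omp fun ξ => ⟪ν, G ξ⟫_ℝ - c₀) ∧
      x ∈ closure (Omm fun ξ => ⟪ν, G ξ⟫_ℝ - c₀) := by
  by_contra hcon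
  push Not at hcon
  set u : ℂ → ℝ := fun ξ => ⟪ν, G ξ⟫_ℝ - c₀ with hudef
  have huc : ContinuousOn u QO := by
    have := (continuousOn_const (c := ν)).inner (𝕜 := ℝ) hG
    exact this.sub continuousOn_const
  -- choose η
  obtain ⟨η, hη, h1, h2⟩ : ∃ η : ℝ, 0 < η ∧ e₁ + (5 + 3 * l) * κ + η * C < b ∧
      M - l * (1/10) + η * C < b - 2 * l * κ := by
    let d := min (b - (e₁ + (5 + 3 * l) * κ)) (b - 2 * l * κ - (M - l * (1/10)))
    have hd : 0 < d := lt_min (by linarith) (by linarith)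
    refine ⟨d / (2 * (|C| + 1)), by positivity, ?_, ?_⟩
    · have h3 : d / (2 * (|C| + 1)) * C ≤ d / 2 := by
        have : C ≤ |C| + 1 := by linarith [le_abs_self C]
        calc d / (2 * (|C| + 1)) * C ≤ d / (2 * (|C| + 1)) * (|C| + 1) := by
              apply mul_le_mul_of_nonneg_left this; positivity
          _ = d / 2 := by field_simp
      have h4 : d ≤ b - (e₁ + (5 + 3 * l) * κ) := min_le_left _ _
      linarith
    · have h3 : d / (2 * (|C| + 1)) * C ≤ d / 2 := by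
        have : C ≤ |C| + 1 := by linarith [le_abs_self C]
        calc d / (2 * (|C| + 1)) * C ≤ d / (2 * (|C| + 1)) * (|C| + 1) := by
              apply mul_le_mul_of_nonneg_left this; positivity
          _ = d / 2 := by field_simp
      have h4 : d ≤ b - 2 * l * κ - (M - l * (1/10)) := min_le_right _ _
      linarith
  let Ψ : ℂ → ℝ := fun ξ => (⟪Λ, G ξ⟫_ℝ - α) + l * sgnu u ξ + η * ‖G ξ‖ ^ 2
  have hΨc : ContinuousOn Ψ QC := by
    have a1 : ContinuousOn (fun ξ => ⟪Λ, G ξ⟫_ℝ) QC :=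
      (continuousOn_const (c := Λ)).inner (𝕜 := ℝ) (hG.mono QC_subset_QO)
    have a2 : ContinuousOn (sgnu u) QC := fun ξ hξ =>
      (sgnu_continuousAt huc (QC_subset_QO hξ)).continuousWithinAt
    have a3 : ContinuousOn (fun ξ => ‖G ξ‖ ^ 2) QC := (hG.mono QC_subset_QO).norm.pow 2
    exact ((a1.sub continuousOn_const).add (a2.const_mul l)).add (a3.const_mul η)
  have htmQ : (tm * I : ℂ) ∈ QC := by
    refine ⟨⟨?_, ?_⟩, ?_, ?_⟩ <;> simp <;> linarith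
  obtain ⟨x, hx, hxm⟩ := isCompact_QC.exists_isMaxOn ⟨_, htmQ⟩ hΨc
  have hxQ := QC_subset_QO hx
  -- value at the centre
  have hcen : b - l * κ ≤ Ψ x := by
    have h3 := hxm htmQ
    have h4 : |u (tm * I)| ≤ κ := by
      have := hu _ (QC_subset_QO htmQ)
      simpa using this
    have h5 : -κ ≤ sgnu u (tm * I) := by
      have := abs_sgnu (u := u) (tm * I)
      rw [← this] at h4
      exact (abs_le.1 h4).1
    have h6 : b - l * κ ≤ Ψ (tm * I) := by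
      simp only [Ψ]
      have h7 : 0 ≤ η * ‖G (tm * I)‖ ^ 2 := by positivity
      nlinarith
    exact h6.trans h3
  -- signs on the sides
  have hside : ∀ ξ ∈ QC, κ < |ξ.re| → sgnu u ξ ≤ -(|ξ.re| - κ) := by
    intro ξ hξ h
    have hξQ := QC_subset_QO hξ
    have hm : ξ ∈ Omp u ∨ ξ ∈ Omm u := by
      rcases le_or_gt 0 ξ.re with h0 | h0
      · left; rw [abs_of_nonneg h0] at h
        exact mem_Omp hκ hu hξQ h
      · right; rw [abs_of_neg h0] at h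
        exact mem_Omm hκ hu hξQ (by linarith)
    rw [sgnu, if_pos hm]
    have h3 := hu ξ hξQ
    have h4 : |ξ.re| ≤ |u ξ| + κ := by
      have : |ξ.re| ≤ |u ξ| + |u ξ - ξ.re| := by
        have := abs_sub_abs_le_abs_sub ξ.re (u ξ)
        rw [abs_sub_comm ξ.re (u ξ)] at this
        linarith
      linarith
    linarith
  have hsmall : ∀ ξ ∈ QC, |ξ.re| ≤ κ → sgnu u ξ ≤ 2 * κ := by
    intro ξ hξ h
    have h3 := hu ξ (QC_subset_QO hξ)
    have h4 : |u ξ| ≤ 2 * κ := by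
      have : |u ξ| ≤ |ξ.re| + |u ξ - ξ.re| := by
        have := abs_sub_abs_le_abs_sub (u ξ) ξ.re
        linarith
      linarith
    rw [← abs_sgnu] at h4
    exact (le_abs_self _).trans h4
  have hηC : ∀ ξ ∈ QC, η * ‖G ξ‖ ^ 2 ≤ η * C := fun ξ hξ =>
    mul_le_mul_of_nonneg_left (hC ξ hξ) hη.le
  -- not on top or bottom
  have htb : ¬ (x.im = 1/20 ∨ x.im = 3/20) := by
    intro h
    have h3 := hA1 x hx h
    have h4 := hηC x hx
    have h5 : Ψ x = (⟪Λ, G x⟫_ℝ - α) + l * sgnu u x + η * ‖G x‖ ^ 2 := rfl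
    rcases le_or_gt |x.re| κ with h6 | h6
    · have h7 := hsmall x hx h6
      nlinarith [abs_nonneg x.re]
    · have h7 := hside x hx h6
      nlinarith [abs_nonneg x.re]
  have hsd : ¬ (x.re = 1/10 ∨ x.re = -(1/10)) := by
    intro h
    have h6 : |x.re| = 1/10 := by
      rcases h with h | h <;> rw [h] <;> norm_num [abs_of_pos, abs_of_neg]
    have h7 := hside x hx (by rw [h6]; exact hκ)
    have h3 := hA2 x hx
    have h4 := hηC x hx
    have h5 : Ψ x = (⟪Λ, G x⟫_ℝ - α) + l * sgnu u x + η * ‖G x‖ ^ 2 := rfl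
    rw [h6] at h7
    nlinarith
  rw [not_or] at htb hsd
  have hint : ∀ᶠ y in 𝓝 x, y ∈ QC := by
    have g1 : -(1/10) < x.re := lt_of_le_of_ne hx.1.1 (Ne.symm hsd.2)
    have g2 : x.re < 1/10 := lt_of_le_of_ne hx.1.2 hsd.1
    have g3 : 1/20 < x.im := lt_of_le_of_ne hx.2.1 (Ne.symm htb.1)
    have g4 : x.im < 3/20 := lt_of_le_of_ne hx.2.2 htb.2
    have f1 := continuous_re.continuousAt.eventually (lt_mem_nhds g1)
    have f2 := continuous_re.continuousAt.eventually (gt_mem_nhds g2)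
    have f3 := continuous_im.continuousAt.eventually (lt_mem_nhds g3)
    have f4 := continuous_im.continuousAt.eventually (gt_mem_nhds g4)
    filter_upwards [f1, f2, f3, f4] with y k1 k2 k3 k4
    exact ⟨⟨k1.le, k2.le⟩, k3.le, k4.le⟩
  obtain ⟨σ, hσ, hσl⟩ := sgnu_local huc hxQ (fun h => hcon x hxQ h.1 h.2)
  refine hmax (Λ + (l * σ) • ν) η hη x hxQ ?_
  filter_upwards [hint, hσl] with y hy hyl
  have h3 : Ψ y ≤ Ψ x := hxm hy
  simp only [Ψ] at h3
  rw [hσ] at h3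
  simp only [inner_add_left, inner_smul_left, RCLike.conj_to_real]
  have h8 : l * (σ * u y) ≤ l * sgnu u y := mul_le_mul_of_nonneg_left hyl (by linarith)
  simp only [hudef] at h3 h8 ⊢
  nlinarith

end Saddle486
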