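import Mathlib
import Pool.Agent.Helper486.Saddle.Touch
import Pool.Agent.Helper486.Saddle.Crossing

/-! Points with `u > 0` near the axis are joined to the right. -/

open Complex Set Topology Filter ComplexConjugate
open scoped InnerProductSpace

namespace Saddle486

/-- the working ball -/
def BB : Set ℂ := Metric.ball (0 : ℂ) (1/4)

theorem QO_subset_BB : QO ⊆ BB := by
  rintro ξ ⟨⟨h1, h2⟩, h3, h4⟩
  rw [BB, mem_ball_zero_iff]
  have h5 : ‖ξ‖ ^ 2 < (1/4) ^ 2 := by
    rw [← normSq_eq_norm_sq, normSq_apply]; nlinarith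
  exact lt_of_pow_lt_pow_left₀ 2 (by norm_num) h5

theorem reach {E : Type*} [NormedAddCommGroup E] [InnerProductSpace ℝ E] {G : ℂ → E}
    (hG : ContinuousOn G BB) (hmax : MaxP G BB) (ν : E) (c₀ : ℝ) {p : ℂ} (hp : p ∈ BB)
    (hup : 0 < ⟪ν, G p⟫_ℝ - c₀) :
    ¬ closure (connectedComponentIn ({ξ | 0 < ⟪ν, G ξ⟫_ℝ - c₀} ∩ BB) p) ⊆ BB := by
  intro hsub
  set u : ℂ → ℝ := fun ξ => ⟪ν, G ξ⟫_ℝ - c₀ with hudef
  have huc : ContinuousOn u BB := by
    have := (continuousOn_const (c := ν)).inner (𝕜 := ℝ) hG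
    exact this.sub continuousOn_const
  have hUp : IsOpen ({ξ | 0 < u ξ} ∩ BB) := by
    have := huc.isOpen_inter_preimage Metric.isOpen_ball (isOpen_Ioi (a := (0 : ℝ)))
    rw [inter_comm]; exact this
  set C := connectedComponentIn ({ξ | 0 < u ξ} ∩ BB) p with hC
  have hCo : IsOpen C := hUp.connectedComponentIn
  have hpC : p ∈ C := mem_connectedComponentIn ⟨hup, hp⟩
  have hK : IsCompact (closure C) := by
    refine Metric.isCompact_of_isClosed_isBounded isClosed_closure ?_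
    exact Metric.isBounded_ball.subset hsub
  obtain ⟨D, hD⟩ := (hK.image_of_continuousOn ((hG.mono hsub).norm.pow 2)).bddAbove
  have hD' : ∀ ξ ∈ closure C, ‖G ξ‖ ^ 2 ≤ D := fun ξ hξ => hD ⟨ξ, hξ, rfl⟩
  have hD0 : 0 ≤ D := le_trans (by positivity) (hD' p (subset_closure hpC))
  obtain ⟨η, hη, h1⟩ : ∃ η : ℝ, 0 < η ∧ η * D < u p := by
    refine ⟨u p / (2 * (D + 1)), by positivity, ?_⟩
    have hup' : 0 < u p := hup
    rw [div_mul_eq_mul_div, div_lt_iff₀ (by positivity)]
    nlinarith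
  have hΦc : ContinuousOn (fun ξ => u ξ + η * ‖G ξ‖ ^ 2) (closure C) :=
    (huc.mono hsub).add (((hG.mono hsub).norm.pow 2).const_mul η)
  obtain ⟨x, hx, hxm⟩ := hK.exists_isMaxOn ⟨p, subset_closure hpC⟩ hΦc
  have h2 : u p + η * ‖G p‖ ^ 2 ≤ u x + η * ‖G x‖ ^ 2 := hxm (subset_closure hpC)
  have h3 : η * ‖G x‖ ^ 2 ≤ η * D := mul_le_mul_of_nonneg_left (hD' x hx) hη.le
  have h4 : 0 ≤ η * ‖G p‖ ^ 2 := by positivity
  have h5 : 0 < u x := by linarith
  have hxC : x ∈ C := by
    by_contra hn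
    have := comp_compl_nhds hUp ⟨h5, hsub hx⟩ hn
    obtain ⟨y, hy1, hy2⟩ := mem_closure_iff_nhds.1 hx _ this
    exact hy1.2 hy2
  refine hmax ν η hη x (hsub hx) ?_
  filter_upwards [hCo.mem_nhds hxC] with y hy
  have : u y + η * ‖G y‖ ^ 2 ≤ u x + η * ‖G x‖ ^ 2 := hxm (subset_closure hy)
  simp only [hudef] at this
  linarith

theorem isPathConnected_comp {U : Set ℂ} (hU : IsOpen U) {p : ℂ} (hp : p ∈ U) :
    IsPathConnected (connectedComponentIn U p) := by
  have ho : IsOpen (connectedComponentIn U p) := hU.connectedComponentIn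
  exact ho.isConnected_iff_isPathConnected.1 (isConnected_connectedComponentIn_iff.2 hp)

theorem no_cross {v : ℂ → ℝ} (hvc : ContinuousOn v QO)
    (hcp : 0 < v cp) (hcm : v cm < 0)
    (ht : ∃ x ∈ QO, x ∈ closure (Omp v) ∧ x ∈ closure (Omm v)) {a b : ℂ} (P : Path a b)
    (ha : a.im < 1/50) (hb : 1/5 < b.im) {κ : ℝ} (hκ : κ < 1/10)
    (hre : ∀ t, |(P t).re| ≤ κ) (hpos : ∀ t, 0 < v (P t)) (hdis : ∀ t, P t ∉ Omp v) :
    False := by
  obtain ⟨x, hxQ, hxp, hxm⟩ := ht
  have hva : ContinuousAt v x := hvc.continuousAt (isOpen_QO.mem_nhds hxQ)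
  have hv0 : v x = 0 := by
    rcases lt_trichotomy (v x) 0 with h | h | h
    · have := hva.eventually (gt_mem_nhds h)
      obtain ⟨y, hy1, hy2⟩ := mem_closure_iff_nhds.1 hxp _ this
      exact absurd (Omp_sub hy2).1 (not_lt.2 (le_of_lt hy1))
    · exact h
    · have := hva.eventually (lt_mem_nhds h)
      obtain ⟨y, hy1, hy2⟩ := mem_closure_iff_nhds.1 hxm _ this
      exact absurd (Omm_sub hy2).1 (not_lt.2 (le_of_lt hy1))
  have hrng : IsCompact (range P) := isCompact_range P.continuous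
  have hxr : x ∉ range P := by
    rintro ⟨t, rfl⟩
    have := hpos t
    rw [hv0] at this; exact lt_irrefl _ this
  obtain ⟨δ, hδ, hball⟩ := Metric.isOpen_iff.1 (isOpen_QO.inter hrng.isClosed.isOpen_compl) x
    ⟨hxQ, hxr⟩
  obtain ⟨a₁, ha₁, hb₁⟩ := mem_closure_iff_nhds.1 hxp _ (Metric.ball_mem_nhds x hδ)
  obtain ⟨a₂, ha₂, hb₂⟩ := mem_closure_iff_nhds.1 hxm _ (Metric.ball_mem_nhds x hδ)
  have hUp : IsOpen ({ξ | 0 < v ξ} ∩ QO) := by
    have := hvc.isOpen_inter_preimage isOpen_QO (isOpen_Ioi (a := (0 : ℝ)))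
    rw [inter_comm]; exact this
  have hUm : IsOpen ({ξ | v ξ < 0} ∩ QO) := by
    have := hvc.isOpen_inter_preimage isOpen_QO (isOpen_Iio (a := (0 : ℝ)))
    rw [inter_comm]; exact this
  have j1 : JoinedIn (Omm v) cm a₂ :=
    (isPathConnected_comp hUm ⟨hcm, cm_mem⟩).joinedIn _
      (mem_connectedComponentIn ⟨hcm, cm_mem⟩) _ hb₂
  have j3 : JoinedIn (Omp v) a₁ cp :=
    (isPathConnected_comp hUp ⟨hcp, cp_mem⟩).joinedIn _ hb₁ _
      (mem_connectedComponentIn ⟨hcp, cp_mem⟩)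
  have j2 : JoinedIn (Metric.ball x δ) a₂ a₁ :=
    ((convex_ball x δ).isPathConnected ⟨x, Metric.mem_ball_self hδ⟩).joinedIn _ ha₂ _ ha₁
  let W := Omm v ∪ Metric.ball x δ ∪ Omp v
  have hW1 : Omm v ⊆ W := fun y h => Or.inl (Or.inl h)
  have hW2 : Metric.ball x δ ⊆ W := fun y h => Or.inl (Or.inr h)
  have hW3 : Omp v ⊆ W := fun y h => Or.inr h
  have j : JoinedIn W cm cp := ((j1.mono hW1).trans (j2.mono hW2)).trans (j3.mono hW3)
  have hWQ : W ⊆ QO := by
    rintro y ((h | h) | h)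
    · exact (Omm_sub h).2
    · exact (hball h).1
    · exact (Omp_sub h).2
  obtain ⟨γ, hγ⟩ := j
  obtain ⟨s, t, hst⟩ := crossing γ P
    (fun t => by have := (abs_le.1 (hre t)).1; simp only [cm]; linarith)
    (fun t => by have := (abs_le.1 (hre t)).2; simp only [cp]; linarith)
    (fun s => by have := (hWQ (hγ s)).2.1; linarith)
    (fun s => by have := (hWQ (hγ s)).2.2; linarith)
  have h1 := hγ s
  rw [hst] at h1
  rcases h1 with (h | h) | h
  · exact absurd (Omm_sub h).1 (not_lt.2 (hpos t).le)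
  · exact (hball h).2 ⟨t, rfl⟩
  · exact hdis t h

theorem joined_plus {u : ℂ → ℝ} {κ : ℝ} (hκ : κ ≤ 1/100) (huc : ContinuousOn u BB)
    (hu : ∀ ξ ∈ BB, |u ξ - ξ.re| ≤ κ)
    (hreach : ∀ p ∈ BB, 0 < u p → ¬ closure (connectedComponentIn ({ξ | 0 < u ξ} ∩ BB) p) ⊆ BB)
    (ht1 : ∃ x ∈ QO, x ∈ closure (Omp u) ∧ x ∈ closure (Omm u))
    (ht2 : ∃ x ∈ QO, x ∈ closure (Omp fun ξ => u (conj ξ)) ∧
      x ∈ closure (Omm fun ξ => u (conj ξ)))
    {p : ℂ} (hp : p ∈ BB) (hpim : |p.im| < 1/50) (hup : 0 < u p) :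
    JoinedIn ({ξ | 0 < u ξ} ∩ BB) ((1/8 : ℝ) : ℂ) p := by
  have hUp : IsOpen ({ξ | 0 < u ξ} ∩ BB) := by
    have := huc.isOpen_inter_preimage Metric.isOpen_ball (isOpen_Ioi (a := (0 : ℝ)))
    rw [inter_comm]; exact this
  set S := {ξ | 0 < u ξ} ∩ BB with hS
  set C := connectedComponentIn S p with hC
  have hpS : p ∈ S := ⟨hup, hp⟩
  have hpC : p ∈ C := mem_connectedComponentIn hpS
  have hR : Convex ℝ ({ξ : ℂ | κ < ξ.re} ∩ BB) :=
    (convex_halfSpace_re_gt κ).inter (convex_ball 0 (1/4))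
  have hRS : {ξ : ℂ | κ < ξ.re} ∩ BB ⊆ S := by
    rintro y ⟨hy1, hy2⟩
    refine ⟨?_, hy2⟩
    have := abs_le.1 (hu y hy2)
    have h2 : κ < y.re := hy1
    show 0 < u y
    linarith
  have h8 : ((1/8 : ℝ) : ℂ) ∈ BB := by
    rw [BB, mem_ball_zero_iff, norm_real]; norm_num
  have hpc := isPathConnected_comp hUp hpS
  by_cases hy : ∃ y ∈ C, κ < y.re
  · obtain ⟨y, hyC, hyr⟩ := hy
    have hyB : y ∈ BB := (connectedComponentIn_subset _ _ hyC).2
    have h1 : {ξ : ℂ | κ < ξ.re} ∩ BB ⊆ connectedComponentIn S y :=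
      hR.isPreconnected.subset_connectedComponentIn ⟨hyr, hyB⟩ hRS
    have h2 : ((1/8 : ℝ) : ℂ) ∈ C := by
      rw [hC, connectedComponentIn_eq hyC]
      refine h1 ⟨?_, h8⟩
      show κ < ((1/8 : ℝ) : ℂ).re
      rw [ofReal_re]; linarith
    exact (hpc.joinedIn _ h2 _ hpC).mono (connectedComponentIn_subset _ _)
  · exfalso
    push Not at hy
    have hre : ∀ y ∈ C, |y.re| ≤ κ := by
      intro y hyC
      have h1 := connectedComponentIn_subset _ _ hyC
      have h2 := abs_le.1 (hu y h1.2)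
      have h3 : 0 < u y := h1.1
      exact abs_le.2 ⟨by linarith, hy y hyC⟩
    have h1 := hreach p hp hup
    rw [Set.not_subset] at h1
    obtain ⟨y, hyc, hyB⟩ := h1
    obtain ⟨y', hy'b, hy'C⟩ := mem_closure_iff_nhds.1 hyc _
      (Metric.ball_mem_nhds y (by norm_num : (0 : ℝ) < 1/100))
    have hn : 1/4 - 1/100 < ‖y'‖ := by
      have h2 : 1/4 ≤ ‖y‖ := by
        by_contra hlt
        rw [not_le] at hlt
        exact hyB (mem_ball_zero_iff.2 hlt)
      have h3 : ‖y‖ ≤ ‖y'‖ + ‖y' - y‖ := by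
        have := norm_sub_norm_le y y'
        rw [norm_sub_rev] at this
        linarith
      have h4 : ‖y' - y‖ < 1/100 := mem_ball_iff_norm.1 hy'b
      linarith
    have him : 1/5 < |y'.im| := by
      have h2 : ‖y'‖ ^ 2 = y'.re ^ 2 + y'.im ^ 2 := by
        rw [← normSq_eq_norm_sq, normSq_apply]; ring
      have h3 := hre y' hy'C
      have h4 : y'.re ^ 2 ≤ (1/100) ^ 2 := by
        rw [← sq_abs]
        exact pow_le_pow_left₀ (abs_nonneg _) (h3.trans hκ) 2
      have h5 : (1/5 : ℝ) ^ 2 < |y'.im| ^ 2 := by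
        rw [sq_abs]; nlinarith [norm_nonneg y']
      exact lt_of_pow_lt_pow_left₀ 2 (abs_nonneg _) h5
    obtain ⟨P, hP⟩ := hpc.joinedIn _ hpC _ hy'C
    have hcpB : cp ∈ BB := QO_subset_BB cp_mem
    have hcmB : cm ∈ BB := QO_subset_BB cm_mem
    have hccp : conj cp ∈ BB := by
      rw [BB, mem_ball_zero_iff, RCLike.norm_conj]; exact mem_ball_zero_iff.1 hcpB
    have hccm : conj cm ∈ BB := by
      rw [BB, mem_ball_zero_iff, RCLike.norm_conj]; exact mem_ball_zero_iff.1 hcmB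
    have hcpre : cp.re = 1/10 := rfl
    have hcmre : cm.re = -(1/10) := rfl
    have v1 : 0 < u cp := by
      have := abs_le.1 (hu cp hcpB); linarith
    have v2 : u cm < 0 := by
      have := abs_le.1 (hu cm hcmB); linarith
    have v3 : 0 < u (conj cp) := by
      have := abs_le.1 (hu _ hccp); rw [conj_re] at this; linarith
    have v4 : u (conj cm) < 0 := by
      have := abs_le.1 (hu _ hccm); rw [conj_re] at this; linarith
    rcases lt_or_ge 0 y'.im with h | h
    · rw [abs_of_pos h] at him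
      refine no_cross (huc.mono QO_subset_BB) v1 v2 ht1 P (lt_of_abs_lt hpim) him
        (by linarith : κ < 1/10)
        (fun t => hre _ (hP t)) (fun t => (connectedComponentIn_subset _ _ (hP t)).1)
        (fun t htO => ?_)
      -- Omp u is in the same component
      have g1 : Omp u ⊆ connectedComponentIn S (P t) := by
        refine isPreconnected_connectedComponentIn.subset_connectedComponentIn htO ?_
        exact (connectedComponentIn_subset _ _).trans
          (inter_subset_inter_right _ QO_subset_BB)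
      have g2 : cp ∈ Omp u := mem_connectedComponentIn ⟨v1, cp_mem⟩
      have g3 : cp ∈ C := by
        rw [hC, connectedComponentIn_eq (hP t)]; exact g1 g2
      have := hy cp g3
      linarith
    · have him' : 1/5 < -y'.im := by rwa [abs_of_nonpos h] at him
      let P' : Path (conj p) (conj y') := P.map continuous_conj
      have hP' : ∀ t, P' t = conj (P t) := fun t => rfl
      have hcc : ∀ ξ ∈ QO, conj ξ ∈ BB := by
        intro ξ hξ
        rw [BB, mem_ball_zero_iff, RCLike.norm_conj]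
        exact mem_ball_zero_iff.1 (QO_subset_BB hξ)
      refine no_cross (v := fun ξ => u (conj ξ))
        (huc.comp continuous_conj.continuousOn hcc) v3 v4 ht2 P' ?_ ?_
        (by linarith : κ < 1/10)
        (fun t => ?_) (fun t => ?_) (fun t htO => ?_)
      · rw [conj_im]; linarith [(abs_lt.1 hpim).1]
      · rw [conj_im]; exact him'
      · rw [hP', conj_re]; exact hre _ (hP t)
      · rw [hP', conj_conj]; exact (connectedComponentIn_subset _ _ (hP t)).1
      · have g0 : IsPreconnected ((fun ξ => conj ξ) '' Omp fun ξ => u (conj ξ)) :=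
          isPreconnected_connectedComponentIn.image _ continuous_conj.continuousOn
        have g1 : ((fun ξ => conj ξ) '' Omp fun ξ => u (conj ξ)) ⊆
            connectedComponentIn S (P t) := by
          refine g0.subset_connectedComponentIn ?_ ?_
          · exact ⟨P' t, htO, by simp [hP']⟩
          · rintro _ ⟨ξ, hξ, rfl⟩
            have := Omp_sub hξ
            exact ⟨this.1, hcc _ this.2⟩
        have g2 : conj cp ∈ ((fun ξ => conj ξ) '' Omp fun ξ => u (conj ξ)) :=
          ⟨cp, mem_connectedComponentIn ⟨v3, cp_mem⟩, rfl⟩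
        have g3 : conj cp ∈ C := by
          rw [hC, connectedComponentIn_eq (hP t)]; exact g1 g2
        have := hy _ g3
        rw [conj_re] at this
        linarith

end Saddle486
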