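import Mathlib

/-!
# Saddle surfaces and the Fréchet distance

Definitions of the problem: crusts, saddle surfaces, smooth saddle surfaces parametrised by the
closed unit disc, the Fréchet distance.
-/

open scoped InnerProductSpace ENNReal

namespace Saddle486

/-- Euclidean `3`-space. -/
abbrev E3 : Type := EuclideanSpace ℝ (Fin 3)

/-- `U` is a crust cut off from the surface `f : M → Eⁿ` (where `bd` is the boundary of the compact
surface `M`) by the hyperplane `{y | ⟪v, y⟫ = c}` (used for `v ≠ 0`): `U ⊆ M` is open and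
non-empty, its closure is compact and disjoint from the boundary, `f U` lies in the open half-space
`{y | c < ⟪v, y⟫}` and `f (closure U \ U)` lies in the hyperplane. -/
def IsCrust {M : Type*} [TopologicalSpace M] (bd : Set M) {n : ℕ}
    (f : M → EuclideanSpace ℝ (Fin n)) (v : EuclideanSpace ℝ (Fin n)) (c : ℝ) (U : Set M) : Prop :=
  IsOpen U ∧ U.Nonempty ∧ IsCompact (closure U) ∧ Disjoint (closure U) bd ∧
    (∀ x ∈ U, c < ⟪v, f x⟫_ℝ) ∧ ∀ x ∈ closure U \ U, ⟪v, f x⟫_ℝ = c

/-- `f : M → Eⁿ` is a saddle surface: it is continuous and no hyperplane cuts off a crust from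
it. -/
def IsSaddle {M : Type*} [TopologicalSpace M] (bd : Set M) {n : ℕ}
    (f : M → EuclideanSpace ℝ (Fin n)) : Prop :=
  Continuous f ∧ ∀ v : EuclideanSpace ℝ (Fin n), v ≠ 0 → ∀ (c : ℝ) (U : Set M),
    ¬ IsCrust bd f v c U

/-- The closed unit disc, a compact connected surface with boundary. -/
abbrev Disc : Type := Metric.closedBall (0 : ℂ) 1

/-- The boundary circle of the closed unit disc. -/
def discBoundary : Set Disc := {x | ‖(x : ℂ)‖ = 1}

/-- `g` is a smooth saddle surface parametrised by the closed unit disc: a saddle surface which is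
a `C²` immersion on the open unit disc (and continuous on the closed disc). This is a weaker
requirement than being a `C²` immersion of the closed disc up to the boundary. -/
def IsSmoothSaddle (g : Disc → E3) : Prop :=
  IsSaddle discBoundary g ∧ ∃ G : ℂ → E3, (∀ x : Disc, g x = G x) ∧
    ContDiffOn ℝ 2 G (Metric.ball 0 1) ∧
    ∀ z ∈ Metric.ball (0 : ℂ) 1, Function.Injective (fderiv ℝ G z)

/-- The Fréchet distance of two surfaces `f : M → Eⁿ` and `g : N → Eⁿ`: the infimum over all
homeomorphisms `h : M → N` of `sup |f x - g (h x)|`. -/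
noncomputable def frechetDist {M N : Type*} [TopologicalSpace M] [TopologicalSpace N] {n : ℕ}
    (f : M → EuclideanSpace ℝ (Fin n)) (g : N → EuclideanSpace ℝ (Fin n)) : ℝ≥0∞ :=
  ⨅ h : M ≃ₜ N, ⨆ x : M, edist (f x) (g (h x))

end Saddle486
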