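import Mathlib
import Pool.Agent.Helper486.Saddle.Winding

/-! Spinor lifts of null vectors and the parity lemma. -/

open Complex Set Topology Filter ComplexConjugate

namespace Saddle486

/-- lifts exist at parameter `a` -/
def LiftAt {X : Type*} [TopologicalSpace X] (W V Y : X → ℂ) : Prop :=
  ∃ s t : X → ℂ, Continuous s ∧ Continuous t ∧ (∀ x, s x ^ 2 = W x) ∧ (∀ x, t x ^ 2 = V x) ∧
    ∀ x, s x * t x = Y x

theorem sq_sqrt_aux (K : ℂ) : (K ^ (1 / 2 : ℂ)) ^ 2 = K := by
  rw [← cpow_nat_mul]; simp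

theorem LiftAt.step {X : Type*} [TopologicalSpace X] {W V Y W' V' Y' : X → ℂ}
    (h : LiftAt W V Y) (hW : Continuous W') (hV : Continuous V') (hY : Continuous Y')
    (hn : ∀ x, W' x * V' x = Y' x ^ 2)
    (hK : ∀ x, 0 < (W' x * conj (W x) + 2 * Y' x * conj (Y x) + V' x * conj (V x)).re) :
    LiftAt W' V' Y' := by
  obtain ⟨s, t, hs, ht, h1, h2, h3⟩ := h
  let K : X → ℂ := fun x => W' x * conj (s x) ^ 2 + 2 * Y' x * (conj (s x) * conj (t x)) +
    V' x * conj (t x) ^ 2
  have hKe : ∀ x, K x = W' x * conj (W x) + 2 * Y' x * conj (Y x) + V' x * conj (V x) := by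
    intro x
    simp only [K, ← h1, ← h2, ← h3, map_pow, map_mul]
  have hKpos : ∀ x, 0 < (K x).re := fun x => by rw [hKe]; exact hK x
  have hK0 : ∀ x, K x ≠ 0 := fun x h0 => by
    have := hKpos x; rw [h0] at this; simp at this
  have hKc : Continuous K := by fun_prop
  let l : X → ℂ := fun x => K x ^ (1 / 2 : ℂ)
  have hlc : Continuous l := by
    rw [continuous_iff_continuousAt]
    intro x
    exact (hKc.continuousAt).cpow continuousAt_const (Or.inl (hKpos x))
  have hl2 : ∀ x, l x ^ 2 = K x := fun x => sq_sqrt_aux _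
  have hl0 : ∀ x, l x ≠ 0 := fun x h0 => by
    have := hl2 x; rw [h0] at this; exact hK0 x (by rw [← this]; simp)
  refine ⟨fun x => (W' x * conj (s x) + Y' x * conj (t x)) / l x,
    fun x => (Y' x * conj (s x) + V' x * conj (t x)) / l x, ?_, ?_, ?_, ?_, ?_⟩
  · exact Continuous.div₀ (by fun_prop) hlc hl0
  · exact Continuous.div₀ (by fun_prop) hlc hl0
  · intro x
    simp only
    rw [div_pow, hl2, div_eq_iff (hK0 x)]
    simp only [K]
    linear_combination (-conj (t x) ^ 2) * hn x
  · intro x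
    simp only
    rw [div_pow, hl2, div_eq_iff (hK0 x)]
    simp only [K]
    linear_combination (-conj (s x) ^ 2) * hn x
  · intro x
    simp only
    rw [div_mul_div_comm, ← sq, hl2, div_eq_iff (hK0 x)]
    simp only [K]
    linear_combination (conj (s x) * conj (t x)) * hn x

theorem liftAt_homotopy {X : Type*} [TopologicalSpace X] [CompactSpace X]
    {W V Y : unitInterval × X → ℂ} (hW : Continuous W) (hV : Continuous V) (hY : Continuous Y)
    (hn : ∀ p, W p * V p = Y p ^ 2) (h0 : ∀ p, W p ≠ 0 ∨ V p ≠ 0)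
    (hbase : LiftAt (fun x => W (0, x)) (fun x => V (0, x)) (fun x => Y (0, x))) :
    LiftAt (fun x => W (1, x)) (fun x => V (1, x)) (fun x => Y (1, x)) := by
  let S : Set unitInterval := {a | LiftAt (fun x => W (a, x)) (fun x => V (a, x))
    (fun x => Y (a, x))}
  have hev : ∀ a : unitInterval, ∀ᶠ b in 𝓝 a, ∀ x : X,
      0 < (W (b, x) * conj (W (a, x)) + 2 * Y (b, x) * conj (Y (a, x)) +
        V (b, x) * conj (V (a, x))).re := by
    intro a
    have : ∀ᶠ b in 𝓝 a, ∀ x ∈ (univ : Set X),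
      0 < (W (b, x) * conj (W (a, x)) + 2 * Y (b, x) * conj (Y (a, x)) +
        V (b, x) * conj (V (a, x))).re := by
      refine isCompact_univ.eventually_forall_of_forall_eventually fun x _ => ?_
      have hc : Continuous (fun y : unitInterval × X =>
          (W (y.1, y.2) * conj (W (a, y.2)) + 2 * Y (y.1, y.2) * conj (Y (a, y.2)) +
            V (y.1, y.2) * conj (V (a, y.2))).re) := by fun_prop
      have := (isOpen_lt (f := fun _ => (0 : ℝ)) continuous_const hc).mem_nhds (x := (a, x)) (by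
        simp only [mem_ofPred_eq]
        have e1 : (W (a, x) * conj (W (a, x)) + 2 * Y (a, x) * conj (Y (a, x)) +
            V (a, x) * conj (V (a, x))).re =
            ‖W (a, x)‖ ^ 2 + 2 * ‖Y (a, x)‖ ^ 2 + ‖V (a, x)‖ ^ 2 := by
          rw [mul_assoc, mul_conj, mul_conj, mul_conj]
          simp [normSq_eq_norm_sq]
          norm_cast
        rw [e1]
        rcases h0 (a, x) with h | h
        · have := norm_pos_iff.2 h; positivity
        · have := norm_pos_iff.2 h; positivity)
      exact this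
    filter_upwards [this] with b h x using h x (mem_univ _)
  have hsym : ∀ a b : unitInterval, (∀ x : X,
      0 < (W (b, x) * conj (W (a, x)) + 2 * Y (b, x) * conj (Y (a, x)) +
        V (b, x) * conj (V (a, x))).re) → ∀ x : X,
      0 < (W (a, x) * conj (W (b, x)) + 2 * Y (a, x) * conj (Y (b, x)) +
        V (a, x) * conj (V (b, x))).re := by
    intro a b h x
    have := h x
    have e : (W (a, x) * conj (W (b, x)) + 2 * Y (a, x) * conj (Y (b, x)) +
        V (a, x) * conj (V (b, x))) = conj (W (b, x) * conj (W (a, x)) +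
        2 * Y (b, x) * conj (Y (a, x)) + V (b, x) * conj (V (a, x))) := by
      simp only [map_add, map_mul, conj_conj, map_ofNat]
      ring
    rw [e, conj_re]; exact this
  have hS : IsClopen S := by
    constructor
    · rw [← isOpen_compl_iff, isOpen_iff_mem_nhds]
      intro a ha
      filter_upwards [hev a] with b hb hbS
      exact ha (LiftAt.step hbS (by fun_prop) (by fun_prop) (by fun_prop) (fun x => hn _)
        (hsym a b hb))
    · rw [isOpen_iff_mem_nhds]
      intro a ha
      filter_upwards [hev a] with b hb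
      exact LiftAt.step ha (by fun_prop) (by fun_prop) (by fun_prop) (fun x => hn _) hb
  have hSu : S = univ := hS.eq_univ ⟨0, hbase⟩
  have : (1 : unitInterval) ∈ S := by rw [hSu]; trivial
  exact this

theorem isPreconnected_circle : IsPreconnected (univ : Set Circle) := by
  have : (univ : Set Circle) = Circle.exp '' (univ : Set ℝ) := by
    ext x; simp only [mem_univ, image_univ, true_iff]
    exact ⟨arg x, Circle.exp_arg x⟩
  rw [this]
  exact isPreconnected_univ.image _ Circle.exp.continuous.continuousOn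

theorem circle_sign {φ : Circle → ℝ} (hφ : Continuous φ) (h : ∀ x, φ x ≠ 0) :
    (∀ x, 0 < φ x) ∨ ∀ x, φ x < 0 := by
  by_contra hcon
  push Not at hcon
  obtain ⟨⟨x, hx⟩, ⟨y, hy⟩⟩ := hcon
  have := isPreconnected_circle.intermediate_value (mem_univ x) (mem_univ y)
    hφ.continuousOn (⟨hx, hy⟩ : (0 : ℝ) ∈ Icc (φ x) (φ y))
  obtain ⟨z, -, hz⟩ := this
  exact h z hz

/-- parity lemma -/
theorem parity {W V Y : ℂ → ℂ} (hW : ContinuousOn W (Metric.ball 0 1))
    (hV : ContinuousOn V (Metric.ball 0 1)) (hY : ContinuousOn Y (Metric.ball 0 1))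
    (hn : ∀ z ∈ Metric.ball (0 : ℂ) 1, W z * V z = Y z ^ 2)
    (h0 : ∀ z ∈ Metric.ball (0 : ℂ) 1, W z ≠ 0 ∨ V z ≠ 0)
    {Γ : Circle → ℂ} (hΓ : Continuous Γ) (hΓb : ∀ x, Γ x ∈ Metric.ball (0 : ℂ) 1)
    (hne : ∀ x, ‖W (Γ x)‖ ≠ ‖V (Γ x)‖) {n : ℤ}
    (hW' : HasW (fun x => W (Γ x) + V (Γ x)) n) : Even n := by
  have hin : ∀ p : unitInterval × Circle, ((p.1 : ℝ) : ℂ) * Γ p.2 ∈ Metric.ball (0 : ℂ) 1 := by
    intro p
    have h1 := hΓb p.2
    rw [mem_ball_zero_iff] at h1 ⊢
    rw [norm_mul]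
    have h2 : ‖((p.1 : ℝ) : ℂ)‖ ≤ 1 := by
      rw [norm_real, Real.norm_eq_abs, abs_of_nonneg p.1.2.1]; exact p.1.2.2
    calc _ ≤ 1 * ‖Γ p.2‖ := mul_le_mul_of_nonneg_right h2 (norm_nonneg _)
      _ < 1 := by rw [one_mul]; exact h1
  have hc : Continuous (fun p : unitInterval × Circle => ((p.1 : ℝ) : ℂ) * Γ p.2) := by
    fun_prop
  obtain ⟨s, t, hs, ht, h1, h2, h3⟩ := liftAt_homotopy
    (W := fun p : unitInterval × Circle => W (((p.1 : ℝ) : ℂ) * Γ p.2))
    (V := fun p => V (((p.1 : ℝ) : ℂ) * Γ p.2))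
    (Y := fun p => Y (((p.1 : ℝ) : ℂ) * Γ p.2))
    (hW.comp_continuous hc hin) (hV.comp_continuous hc hin) (hY.comp_continuous hc hin)
    (fun p => hn _ (hin p)) (fun p => h0 _ (hin p))
    (by
      simp only [Set.Icc.coe_zero, ofReal_zero, zero_mul]
      -- constant lift
      have hn0 := hn 0 (by simp)
      obtain ⟨s, t, h1, h2, h3⟩ : ∃ s t : ℂ, s ^ 2 = W 0 ∧ t ^ 2 = V 0 ∧ s * t = Y 0 := by
        by_cases hW0 : W 0 = 0
        · refine ⟨0, (V 0) ^ (1 / 2 : ℂ), by simp [hW0], sq_sqrt_aux _, ?_⟩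
          rw [hW0, zero_mul] at hn0
          have := pow_eq_zero_iff (two_ne_zero) |>.1 hn0.symm
          rw [this, zero_mul]
        · have hs := sq_sqrt_aux (W 0)
          set s := (W 0) ^ (1 / 2 : ℂ)
          have hs0 : s ≠ 0 := by
            intro h; rw [h] at hs; exact hW0 (by rw [← hs]; simp)
          refine ⟨s, Y 0 / s, hs, ?_, by field_simp⟩
          rw [div_pow, hs, div_eq_iff hW0, ← hn0]; ring
      exact ⟨fun _ => s, fun _ => t, by fun_prop, by fun_prop, fun _ => h1, fun _ => h2,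
        fun _ => h3⟩)
  simp only [Set.Icc.coe_one, ofReal_one, one_mul] at h1 h2 h3
  have hWc : Continuous (fun x => W (Γ x)) := hW.comp_continuous hΓ hΓb
  have hVc : Continuous (fun x => V (Γ x)) := hV.comp_continuous hΓ hΓb
  rcases circle_sign (φ := fun x => ‖W (Γ x)‖ - ‖V (Γ x)‖) (hWc.norm.sub hVc.norm)
    (fun x => sub_ne_zero.2 (hne x)) with h | h
  · have hs0 : ∀ x, s x ≠ 0 := by
      intro x h0
      have := h x
      rw [← h1, h0] at this
      simp at this
      linarith [norm_nonneg (V (Γ x))]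
    obtain ⟨k, hk⟩ := exists_hasW hs hs0
    have hk2 := (hk.mul hk).congr (F' := fun x => W (Γ x)) (fun x => by rw [← h1]; ring)
    have hk3 : HasW (fun x => W (Γ x) + V (Γ x)) (k + k) := by
      refine hk2.close hWc (hWc.add hVc) fun x => ?_
      have := h x
      show ‖W (Γ x) + V (Γ x) - W (Γ x)‖ < ‖W (Γ x)‖
      rw [add_sub_cancel_left]
      linarith
    exact ⟨k, hW'.unique hk3⟩
  · have ht0 : ∀ x, t x ≠ 0 := by
      intro x h0
      have := h x
      rw [← h2 x, h0] at this
      simp at this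
      linarith [norm_nonneg (W (Γ x))]
    obtain ⟨k, hk⟩ := exists_hasW ht ht0
    have hk2 := (hk.mul hk).congr (F' := fun x => V (Γ x)) (fun x => by rw [← h2]; ring)
    have hk3 : HasW (fun x => W (Γ x) + V (Γ x)) (k + k) := by
      refine hk2.close hVc (hWc.add hVc) fun x => ?_
      have := h x
      show ‖W (Γ x) + V (Γ x) - V (Γ x)‖ < ‖V (Γ x)‖
      rw [add_sub_cancel_right]
      linarith
    exact ⟨k, hW'.unique hk3⟩

end Saddle486
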