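import Mathlib
import Pool.Agent.Helper486.Saddle.Winding
import Pool.Agent.Helper486.Saddle.Crossing

/-! Canonical logarithm of `p - q` for points joined to reference points in disjoint sets. -/

open Complex Set Topology Filter

namespace Saddle486

/-- clamp to the unit interval -/
noncomputable def clamp (s : ℝ) : unitInterval := projIcc 0 1 zero_le_one s

theorem continuous_clamp : Continuous clamp := continuous_projIcc (h := zero_le_one)
theorem clamp_zero : clamp 0 = 0 := by simp [clamp]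
theorem clamp_one : clamp 1 = 1 := by simp [clamp]

/-- the relation defining the canonical logarithm of `p - q` -/
def RLog (Pp Pm : Set ℂ) (e : ℝ) (p q a : ℂ) : Prop :=
  ∃ (γ : Path (e : ℂ) p) (δ : Path (-e : ℂ) q), (∀ s, γ s ∈ Pp) ∧ (∀ t, δ t ∈ Pm) ∧
    ∃ L : ℝ × ℝ → ℂ, Continuous L ∧
      (∀ s t, exp (L (s, t)) = γ (clamp s) - δ (clamp t)) ∧
      L (0, 0) = log (e + e) ∧ L (1, 1) = a

section
variable {Pp Pm : Set ℂ} {e : ℝ} {p q : ℂ}

theorem RLog.exists (hdisj : Disjoint Pp Pm) (he : 0 < e)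
    (jp : JoinedIn Pp (e : ℂ) p) (jm : JoinedIn Pm (-e : ℂ) q) : ∃ a, RLog Pp Pm e p q a := by
  obtain ⟨γ, hγ⟩ := jp
  obtain ⟨δ, hδ⟩ := jm
  have hcl := continuous_clamp
  obtain ⟨L, hL, hE⟩ := exists_log (F := fun x : ℝ × ℝ => γ (clamp x.1) - δ (clamp x.2))
    (by fun_prop) (fun x h => by
      have := sub_eq_zero.1 h
      exact (Set.disjoint_left.1 hdisj (hγ (clamp x.1))) (this ▸ hδ (clamp x.2)))
  refine ⟨_, γ, δ, hγ, hδ, fun x => L x - L (0, 0) + log (e + e), by fun_prop, ?_, by simp, rfl⟩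
  intro s t
  have h2 : (e : ℂ) + e ≠ 0 := by
    have : (e : ℂ) ≠ 0 := by exact_mod_cast he.ne'
    intro h
    apply this
    linear_combination h / 2
  have h3 : exp (L (0, 0)) = e + e := by
    rw [hE]; simp [clamp_zero]
  simp only
  rw [exp_add, exp_sub, exp_log h2, h3, hE, div_mul_cancel₀ _ h2]

theorem log_edge_left {e : ℝ} {p q : ℂ} (hp : ∀ z ∈ Pp, -e < z.re)
    {γ : Path (e : ℂ) p} {δ : Path (-e : ℂ) q} (hγ : ∀ s, γ s ∈ Pp)
    {L : ℝ × ℝ → ℂ} (hL : Continuous L)
    (hE : ∀ s t, exp (L (s, t)) = γ (clamp s) - δ (clamp t))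
    (h0 : L (0, 0) = log (e + e)) : L (1, 0) = log (p + e) := by
  have := log_diff (F := fun s => γ (clamp s) - δ (clamp 0)) (L := fun s => L (s, 0))
    (by fun_prop) (fun s => hE s 0) (c := 1) (fun s => by
      have := hp _ (hγ (clamp s))
      simp [clamp_zero]; linarith) 0 1
  simp only [clamp_zero, clamp_one, γ.source, γ.target, δ.source, one_mul, sub_neg_eq_add,
    h0] at this
  linear_combination this

theorem log_edge_right {e : ℝ} {p q : ℂ} (hm : ∀ z ∈ Pm, z.re < e)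
    {γ : Path (e : ℂ) p} {δ : Path (-e : ℂ) q} (hδ : ∀ s, δ s ∈ Pm)
    {L : ℝ × ℝ → ℂ} (hL : Continuous L)
    (hE : ∀ s t, exp (L (s, t)) = γ (clamp s) - δ (clamp t))
    (h0 : L (0, 0) = log (e + e)) : L (0, 1) = log (e - q) := by
  have := log_diff (F := fun t => γ (clamp 0) - δ (clamp t)) (L := fun t => L (0, t))
    (by fun_prop) (fun s => hE 0 s) (c := 1) (fun s => by
      have := hm _ (hδ (clamp s))
      simp [clamp_zero]; linarith) 0 1
  simp only [clamp_zero, clamp_one, γ.source, δ.target, δ.source, one_mul, sub_neg_eq_add,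
    h0] at this
  linear_combination this

theorem RLog.unique (hdisj : Disjoint Pp Pm) (he : 0 < e)
    (hp : ∀ z ∈ Pp, -e < z.re) (hm : ∀ z ∈ Pm, z.re < e) {a a' : ℂ}
    (h : RLog Pp Pm e p q a) (h' : RLog Pp Pm e p q a') : a = a' := by
  obtain ⟨γ, δ, hγ, hδ, L, hL, hE, h0, h1⟩ := h
  obtain ⟨γ', δ', hγ', hδ', L', hL', hE', h0', h1'⟩ := h'
  -- intermediate pair
  have hcl := continuous_clamp
  obtain ⟨M, hM, hEM, hM0⟩ : ∃ M : ℝ × ℝ → ℂ, Continuous M ∧
      (∀ s t, exp (M (s, t)) = γ (clamp s) - δ' (clamp t)) ∧ M (0, 0) = log (e + e) := by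
    obtain ⟨L, hL, hE⟩ := exists_log (F := fun x : ℝ × ℝ => γ (clamp x.1) - δ' (clamp x.2))
      (by fun_prop) (fun x h => by
        have := sub_eq_zero.1 h
        exact (Set.disjoint_left.1 hdisj (hγ (clamp x.1))) (this ▸ hδ' (clamp x.2)))
    refine ⟨fun x => L x - L (0, 0) + log (e + e), by fun_prop, ?_, by simp⟩
    intro s t
    have h2 : (e : ℂ) + e ≠ 0 := by
      have : (e : ℂ) ≠ 0 := by exact_mod_cast he.ne'
      intro h
      apply this
      linear_combination h / 2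
    have h3 : exp (L (0, 0)) = e + e := by
      rw [hE]; simp [clamp_zero]
    simp only
    rw [exp_add, exp_sub, exp_log h2, h3, hE, div_mul_cancel₀ _ h2]
  have e1 := log_edge_right hm hδ hL hE h0
  have e2 := log_edge_right hm hδ' hM hEM hM0
  have e3 := log_edge_left hp hγ hM hEM hM0
  have e4 := log_edge_left hp hγ' hL' hE' h0'
  have s1 : L (1, 1) = M (1, 1) := by
    refine log_unique (S := (univ : Set ℝ)) isPreconnected_univ (L := fun s => L (s, 1))
      (L' := fun s => M (s, 1)) (by fun_prop) (by fun_prop) (fun s _ => ?_) (mem_univ 0)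
      (by rw [e1, e2]) 1 (mem_univ _)
    rw [hE, hEM, clamp_one, δ.target, δ'.target]
  have s2 : M (1, 1) = L' (1, 1) := by
    refine log_unique (S := (univ : Set ℝ)) isPreconnected_univ (L := fun s => M (1, s))
      (L' := fun s => L' (1, s)) (by fun_prop) (by fun_prop) (fun s _ => ?_) (mem_univ 0)
      (by rw [e3, e4]) 1 (mem_univ _)
    rw [hE', hEM, clamp_one, γ.target, γ'.target]
  rw [← h1, ← h1', s1, s2]

theorem RLog.exp_eq {a : ℂ} (h : RLog Pp Pm e p q a) : exp a = p - q := by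
  obtain ⟨γ, δ, hγ, hδ, L, hL, hE, h0, h1⟩ := h
  rw [← h1, hE, clamp_one, γ.target, δ.target]

end

theorem lift_pair {T : Type*} [TopologicalSpace T] (Pp Pm : T → Set ℂ) {e : ℝ} (he : 0 < e)
    (hop : IsOpen {x : T × ℂ | x.2 ∈ Pp x.1}) (hom : IsOpen {x : T × ℂ | x.2 ∈ Pm x.1})
    (hdisj : ∀ τ, Disjoint (Pp τ) (Pm τ))
    (hp : ∀ τ, ∀ z ∈ Pp τ, -e < z.re) (hm : ∀ τ, ∀ z ∈ Pm τ, z.re < e)
    {p q : T → ℂ} (hpc : Continuous p) (hqc : Continuous q)
    (jp : ∀ τ, JoinedIn (Pp τ) (e : ℂ) (p τ)) (jm : ∀ τ, JoinedIn (Pm τ) (-e : ℂ) (q τ)) :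
    ∃ a : T → ℂ, Continuous a ∧ ∀ τ, exp (a τ) = p τ - q τ := by
  choose a ha using fun τ => RLog.exists (hdisj τ) he (jp τ) (jm τ)
  refine ⟨a, ?_, fun τ => (ha τ).exp_eq⟩
  rw [continuous_iff_continuousAt]
  intro τ₀
  obtain ⟨γ, δ, hγ, hδ, L, hL, hE, h0, h1⟩ := ha τ₀
  have hne : ∀ s t, γ s - δ t ≠ 0 := fun s t h => by
    have := sub_eq_zero.1 h
    exact (Set.disjoint_left.1 (hdisj τ₀) (hγ s)) (this ▸ hδ t)
  have hpq : p τ₀ - q τ₀ ≠ 0 := by
    have := hne 1 1; rwa [γ.target, δ.target] at this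
  -- perturbed paths stay in the open sets
  have ev1 : ∀ᶠ τ in 𝓝 τ₀, ∀ s : unitInterval, γ s + (s : ℝ) * (p τ - p τ₀) ∈ Pp τ := by
    have : ∀ᶠ τ in 𝓝 τ₀, ∀ s ∈ (univ : Set unitInterval),
        γ s + (s : ℝ) * (p τ - p τ₀) ∈ Pp τ := by
      refine isCompact_univ.eventually_forall_of_forall_eventually fun s _ => ?_
      have hc : Continuous (fun x : T × unitInterval =>
        (x.1, γ x.2 + ((x.2 : ℝ) : ℂ) * (p x.1 - p τ₀))) := by fun_prop
      have := (hop.preimage hc).mem_nhds (x := (τ₀, s)) (by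
        simp only [mem_preimage, mem_ofPred_eq, sub_self, mul_zero, add_zero]
        exact hγ s)
      exact this
    filter_upwards [this] with τ h s using h s (mem_univ _)
  have ev2 : ∀ᶠ τ in 𝓝 τ₀, ∀ s : unitInterval, δ s + (s : ℝ) * (q τ - q τ₀) ∈ Pm τ := by
    have : ∀ᶠ τ in 𝓝 τ₀, ∀ s ∈ (univ : Set unitInterval),
        δ s + (s : ℝ) * (q τ - q τ₀) ∈ Pm τ := by
      refine isCompact_univ.eventually_forall_of_forall_eventually fun s _ => ?_
      have hc : Continuous (fun x : T × unitInterval =>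
        (x.1, δ x.2 + ((x.2 : ℝ) : ℂ) * (q x.1 - q τ₀))) := by fun_prop
      have := (hom.preimage hc).mem_nhds (x := (τ₀, s)) (by
        simp only [mem_preimage, mem_ofPred_eq, sub_self, mul_zero, add_zero]
        exact hδ s)
      exact this
    filter_upwards [this] with τ h s using h s (mem_univ _)
  have ev3 : ∀ᶠ τ in 𝓝 τ₀, ∀ x : unitInterval × unitInterval,
      0 < ((γ x.1 + (x.1 : ℝ) * (p τ - p τ₀) - (δ x.2 + (x.2 : ℝ) * (q τ - q τ₀))) /
        (γ x.1 - δ x.2)).re := by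
    have : ∀ᶠ τ in 𝓝 τ₀, ∀ x ∈ (univ : Set (unitInterval × unitInterval)),
      0 < ((γ x.1 + (x.1 : ℝ) * (p τ - p τ₀) - (δ x.2 + (x.2 : ℝ) * (q τ - q τ₀))) /
        (γ x.1 - δ x.2)).re := by
      refine isCompact_univ.eventually_forall_of_forall_eventually fun x _ => ?_
      have hc : Continuous (fun y : T × (unitInterval × unitInterval) =>
        ((γ y.2.1 + ((y.2.1 : ℝ) : ℂ) * (p y.1 - p τ₀) -
          (δ y.2.2 + ((y.2.2 : ℝ) : ℂ) * (q y.1 - q τ₀))) / (γ y.2.1 - δ y.2.2)).re) := by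
        refine Complex.continuous_re.comp (Continuous.div₀ (by fun_prop) (by fun_prop) ?_)
        intro y; exact hne _ _
      have := (isOpen_lt (f := fun _ => (0 : ℝ)) continuous_const hc).mem_nhds (x := (τ₀, x)) (by
        simp only [mem_ofPred_eq, sub_self, mul_zero, add_zero]
        rw [div_self (hne _ _)]; simp)
      exact this
    filter_upwards [this] with τ h s using h s (mem_univ _)
  have hcl := continuous_clamp
  have key : ∀ᶠ τ in 𝓝 τ₀, a τ = a τ₀ + log ((p τ - q τ) / (p τ₀ - q τ₀)) := by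
    filter_upwards [ev1, ev2, ev3] with τ g1 g2 g3
    refine (ha τ).unique (hdisj τ) he (hp τ) (hm τ) ?_
    refine ⟨⟨⟨fun s => γ s + (s : ℝ) * (p τ - p τ₀), by fun_prop⟩, by simp, by simp⟩,
      ⟨⟨fun s => δ s + (s : ℝ) * (q τ - q τ₀), by fun_prop⟩, by simp, by simp⟩, g1, g2,
      fun x => L x + log ((γ (clamp x.1) + ((clamp x.1 : ℝ) : ℂ) * (p τ - p τ₀) -
        (δ (clamp x.2) + ((clamp x.2 : ℝ) : ℂ) * (q τ - q τ₀))) /
          (γ (clamp x.1) - δ (clamp x.2))), ?_, ?_, ?_, ?_⟩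
    · refine hL.add (continuous_log_of_re_pos (Continuous.div₀ (by fun_prop) (by fun_prop) ?_) ?_)
      · intro y; exact hne _ _
      · intro x; exact g3 (clamp x.1, clamp x.2)
    · intro s t
      simp only
      rw [exp_add, hE, exp_log]
      · have := hne (clamp s) (clamp t)
        show _ = (γ (clamp s) + _) - (δ (clamp t) + _)
        field_simp
      · intro hz
        have := g3 (clamp s, clamp t)
        simp only at this
        rw [hz] at this; simp at this
    · simp only [clamp_zero, γ.source, δ.source, h0]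
      have h2 : (e : ℂ) + e ≠ 0 := by
        have : (e : ℂ) ≠ 0 := by exact_mod_cast he.ne'
        intro h
        apply this
        linear_combination h / 2
      simp [h2]
    · simp only [clamp_one, γ.target, δ.target, h1]
      congr 2
      simp
  refine ContinuousAt.congr ?_ (key.mono fun _ h => h.symm)
  have hd : ContinuousAt (fun τ => (p τ - q τ) / (p τ₀ - q τ₀)) τ₀ := by fun_prop
  refine continuousAt_const.add (hd.clog ?_)
  rw [div_self hpq]; simp

end Saddle486
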