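import Mathlib
import Pool.Agent.Helper486.Saddle.Bulge
import Pool.Agent.Helper486.Saddle.Comp
import Pool.Agent.Helper486.Saddle.Lift
import Pool.Agent.Helper486.Saddle.Defs

/-! Local theory of saddle maps close to the branched surface. -/

open Complex Set Topology Filter ComplexConjugate
open scoped InnerProductSpace

namespace Saddle486



/-- the vector with horizontal part `a` and height `s` -/
noncomputable def emb (a : ℂ) (s : ℝ) : E3 := !₂[a.re, a.im, s]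

theorem inner_emb (a : ℂ) (s : ℝ) (x : E3) :
    ⟪emb a s, x⟫_ℝ = a.re * x 0 + a.im * x 1 + s * x 2 := by
  simp [emb, PiLp.inner_apply, Fin.sum_univ_three, mul_comm]

theorem inner_emb_emb (a b : ℂ) (s t : ℝ) :
    ⟪emb a s, emb b t⟫_ℝ = (conj a * b).re + s * t := by
  rw [inner_emb]; simp [emb]

theorem norm_emb_sq (a : ℂ) (s : ℝ) : ‖emb a s‖ ^ 2 = ‖a‖ ^ 2 + s ^ 2 := by
  rw [← real_inner_self_eq_norm_sq, inner_emb_emb, ← normSq_eq_norm_sq, mul_comm (conj a),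
    mul_conj]
  simp; ring

theorem continuous_emb {X : Type*} [TopologicalSpace X] {a : X → ℂ} {s : X → ℝ}
    (ha : Continuous a) (hs : Continuous s) : Continuous (fun x => emb (a x) (s x)) := by
  unfold emb
  refine (PiLp.continuous_toLp 2 _).comp ?_
  refine continuous_pi fun i => ?_
  fin_cases i
  · exact continuous_re.comp ha
  · exact continuous_im.comp ha
  · exact hs

/-- the branched saddle surface -/
noncomputable def ff (z : ℂ) : E3 := emb (z ^ 2) (hh z)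

theorem continuous_ff : Continuous ff := continuous_emb (by fun_prop) continuous_hh

theorem norm_ff_le {z : ℂ} (hz : ‖z‖ ≤ 1) : ‖ff z‖ ≤ 3 := by
  have h1 := norm_emb_sq (z ^ 2) (hh z)
  have h2 : ‖z ^ 2‖ ≤ 1 := by rw [norm_pow]; exact pow_le_one₀ (norm_nonneg _) hz
  have h3 : |hh z| ≤ 2 := by
    have a := (abs_re_le_norm z).trans hz
    have b := (abs_im_le_norm (z ^ 3)).trans
      (by rw [norm_pow]; exact pow_le_one₀ (norm_nonneg _) hz : ‖z ^ 3‖ ≤ 1)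
    calc |hh z| ≤ |z.re| + |(z ^ 3).im| := abs_add_le _ _
      _ ≤ 2 := by linarith
  have h4 : hh z ^ 2 ≤ 4 := by
    rw [← sq_abs]; nlinarith [abs_nonneg (hh z)]
  have h5 : ‖z ^ 2‖ ^ 2 ≤ 1 := pow_le_one₀ (norm_nonneg _) h2
  have h6 : ‖ff z‖ ^ 2 ≤ 5 := by
    have : ‖ff z‖ ^ 2 = ‖z ^ 2‖ ^ 2 + hh z ^ 2 := h1
    linarith
  nlinarith [norm_nonneg (ff z)]

/-- the two reflections used -/
structure Refl (R : ℂ → ℂ) (s : ℝ) : Prop where
  cont : Continuous R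
  inv : ∀ ξ, R (R ξ) = ξ
  norm_sub : ∀ ξ ξ', ‖R ξ - R ξ'‖ = ‖ξ - ξ'‖
  norm : ∀ ξ, ‖R ξ‖ = ‖ξ‖
  re : ∀ ξ, (R ξ).re = ξ.re
  im : ∀ ξ, (R ξ).im = s * ξ.im
  hs : s = 1 ∨ s = -1

theorem refl_id : Refl (fun ξ => ξ) 1 :=
  ⟨by fun_prop, fun _ => rfl, fun _ _ => rfl, fun _ => rfl, fun _ => rfl, fun _ => by ring,
    Or.inl rfl⟩

theorem refl_conj : Refl (fun ξ => conj ξ) (-1) :=
  ⟨continuous_conj, fun _ => conj_conj _, fun a b => by rw [← map_sub, RCLike.norm_conj],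
    fun _ => RCLike.norm_conj _, fun _ => conj_re _, fun _ => by rw [conj_im]; ring, Or.inr rfl⟩

/-- the hypotheses on the approximating map -/
structure Hyp (G : ℂ → E3) (ε : ℝ) : Prop where
  cont : ContinuousOn G (Metric.ball 0 1)
  max : MaxP G (Metric.ball 0 1)
  close : ∀ z ∈ Metric.ball (0 : ℂ) 1, ‖G z - ff z‖ ≤ ε
  eps : 0 ≤ ε ∧ ε ≤ 1/100

section
variable {G : ℂ → E3} {ε : ℝ} {z₀ l : ℂ} {R : ℂ → ℂ} {s : ℝ}

theorem Hyp.norm_le (h : Hyp G ε) {z : ℂ} (hz : z ∈ Metric.ball (0 : ℂ) 1) : ‖G z‖ ≤ 4 := by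
  have h1 := h.close z hz
  have h2 := norm_ff_le (mem_ball_zero_iff.1 hz).le
  have h3 : ‖G z‖ ≤ ‖ff z‖ + ‖G z - ff z‖ := by
    have := norm_add_le (ff z) (G z - ff z)
    rwa [add_sub_cancel] at this
  linarith [h.eps.2]

theorem chart_mem (hz : ‖z₀‖ = 3/4) (hl : ‖l‖ = 1) {ξ : ℂ} (hξ : ‖ξ‖ ≤ 1/4) :
    chart z₀ l ξ ∈ Metric.ball (0 : ℂ) 1 := mem_ball_zero_iff.2 (chart_norm hz hl hξ)

theorem Hyp.contR (h : Hyp G ε) (hz : ‖z₀‖ = 3/4) (hl : ‖l‖ = 1) (hR : Refl R s) :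
    ContinuousOn (fun ξ => G (chart z₀ l (R ξ))) (Metric.closedBall 0 (1/4)) := by
  intro ξ hξ
  have hξ' : ‖R ξ‖ ≤ 1/4 := by rw [hR.norm]; exact mem_closedBall_zero_iff.1 hξ
  have h1 : ContinuousAt (fun ξ => chart z₀ l (R ξ)) ξ :=
    chart_continuousAt continuousAt_const continuousAt_const hR.cont.continuousAt hz hl hξ'
  have h2 : ContinuousAt G (chart z₀ l (R ξ)) :=
    h.cont.continuousAt (Metric.isOpen_ball.mem_nhds (chart_mem hz hl hξ'))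
  exact (ContinuousAt.comp (f := fun ξ => chart z₀ l (R ξ)) h2 h1).continuousWithinAt

theorem BB_sub : BB ⊆ Metric.closedBall (0 : ℂ) (1/4) := Metric.ball_subset_closedBall

theorem Hyp.maxR (h : Hyp G ε) (hz : ‖z₀‖ = 3/4) (hl : ‖l‖ = 1) (hR : Refl R s) :
    MaxP (fun ξ => G (chart z₀ l (R ξ))) BB := by
  intro N η hη ξ hξ hmax
  have hξ' : ‖R ξ‖ ≤ 1/4 := by rw [hR.norm]; exact (mem_ball_zero_iff.1 hξ).le
  have hl0 : l ≠ 0 := by intro h; rw [h, norm_zero] at hl; norm_num at hl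
  refine h.max N η hη (chart z₀ l (R ξ)) (chart_mem hz hl hξ') ?_
  have hinv : R ((chart z₀ l (R ξ) ^ 2 - z₀ ^ 2) / l) = ξ := by
    rw [chart_sq hz, add_sub_cancel_left, mul_div_cancel_left₀ _ hl0, hR.inv]
  have ht : Tendsto (fun z => R ((z ^ 2 - z₀ ^ 2) / l)) (𝓝 (chart z₀ l (R ξ))) (𝓝 ξ) := by
    have hc : Continuous (fun z : ℂ => R ((z ^ 2 - z₀ ^ 2) / l)) :=
      hR.cont.comp (by fun_prop)
    have := hc.tendsto (chart z₀ l (R ξ))
    rwa [hinv] at this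
  have hre : ∀ᶠ z in 𝓝 (chart z₀ l (R ξ)), 0 < (z / z₀).re := by
    have hc : Continuous (fun z : ℂ => (z / z₀).re) := by fun_prop
    refine hc.continuousAt.eventually (lt_mem_nhds ?_)
    have := chart_div_re hz hl hξ'
    linarith
  have hev := ht.eventually hmax
  filter_upwards [hev, hre] with z h1 h2
  simp only [hR.inv, chart_inv hz hl h2] at h1
  exact h1

theorem u_bound (h : Hyp G ε) (hz : ‖z₀‖ = 3/4) (hl : ‖l‖ = 1) (hR : Refl R s) {ν : E3}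
    {θ : ℝ} (hν : ‖ν - emb l 0‖ ≤ θ) {ξ : ℂ} (hξ : ‖ξ‖ ≤ 1/4) :
    |(⟪ν, G (chart z₀ l (R ξ))⟫_ℝ - ⟪ν, G z₀⟫_ℝ) - ξ.re| ≤ 8 * θ + 2 * ε := by
  have hz1 : z₀ ∈ Metric.ball (0 : ℂ) 1 := by rw [mem_ball_zero_iff, hz]; norm_num
  have hξ' : ‖R ξ‖ ≤ 1/4 := by rw [hR.norm]; exact hξ
  have hc1 := chart_mem hz hl hξ'
  set ζ := chart z₀ l (R ξ) with hζ
  have h1 : ⟪emb l 0, ff ζ - ff z₀⟫_ℝ = ξ.re := by
    rw [inner_sub_right, ff, ff, inner_emb_emb, inner_emb_emb, hζ, chart_sq hz]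
    have : conj l * l = 1 := by
      rw [mul_comm, mul_conj, normSq_eq_norm_sq, hl]; norm_num
    have h3 : conj l * (z₀ ^ 2 + l * R ξ) = conj l * z₀ ^ 2 + R ξ := by
      linear_combination (R ξ) * this
    rw [h3, add_re, hR.re]; ring
  have h2 : (⟪ν, G ζ⟫_ℝ - ⟪ν, G z₀⟫_ℝ) - ξ.re =
      ⟪ν - emb l 0, G ζ - G z₀⟫_ℝ + ⟪emb l 0, (G ζ - ff ζ) - (G z₀ - ff z₀)⟫_ℝ := by
    rw [← h1]
    simp only [inner_sub_left, inner_sub_right]
    ring
  rw [h2]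
  have h4 : ‖G ζ - G z₀‖ ≤ 8 := by
    have := norm_sub_le (G ζ) (G z₀)
    have a := h.norm_le hc1
    have b := h.norm_le hz1
    linarith
  have h5 : ‖(G ζ - ff ζ) - (G z₀ - ff z₀)‖ ≤ 2 * ε := by
    have := norm_sub_le (G ζ - ff ζ) (G z₀ - ff z₀)
    have a := h.close ζ hc1
    have b := h.close z₀ hz1
    linarith
  have h6 : ‖emb l 0‖ = 1 := by
    have := norm_emb_sq l 0
    rw [hl] at this
    have h7 : ‖emb l 0‖ ^ 2 = 1 := by rw [this]; norm_num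
    nlinarith [norm_nonneg (emb l 0), sq_nonneg (‖emb l 0‖ - 1)]
  have hθ : 0 ≤ θ := (norm_nonneg _).trans hν
  calc |⟪ν - emb l 0, G ζ - G z₀⟫_ℝ + ⟪emb l 0, (G ζ - ff ζ) - (G z₀ - ff z₀)⟫_ℝ|
      ≤ |⟪ν - emb l 0, G ζ - G z₀⟫_ℝ| + |⟪emb l 0, (G ζ - ff ζ) - (G z₀ - ff z₀)⟫_ℝ| :=
        abs_add_le _ _
    _ ≤ ‖ν - emb l 0‖ * ‖G ζ - G z₀‖ + ‖emb l 0‖ * ‖(G ζ - ff ζ) - (G z₀ - ff z₀)‖ :=
        add_le_add (abs_real_inner_le_norm _ _) (abs_real_inner_le_norm _ _)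
    _ ≤ θ * 8 + 1 * (2 * ε) := by
        rw [h6]
        exact add_le_add (mul_le_mul hν h4 (norm_nonneg _) hθ)
          (mul_le_mul_of_nonneg_left h5 (by norm_num))
    _ = 8 * θ + 2 * ε := by ring

/-- the admissible smallness -/
structure Small (ε θ b₀ : ℝ) : Prop where
  bulge : ∀ z₀ l : ℂ, ‖z₀‖ = 3/4 → ‖l‖ = 1 → ∃ j, b₀ ≤ |EE z₀ l j|
  small : 10 * ε + 305 * (8 * θ + 2 * ε) < b₀
  kap : 8 * θ + 2 * ε < 1/100
  th : 0 ≤ θ

theorem touch_at {θ b₀ : ℝ} (hS : Small ε θ b₀) (h : Hyp G ε) (hz : ‖z₀‖ = 3/4)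
    (hl : ‖l‖ = 1) (hR : Refl R s) {ν : E3} (hν : ‖ν - emb l 0‖ ≤ θ) :
    ∃ x ∈ QO, x ∈ closure (Omp fun ξ => ⟪ν, G (chart z₀ l (R ξ))⟫_ℝ - ⟪ν, G z₀⟫_ℝ) ∧
      x ∈ closure (Omm fun ξ => ⟪ν, G (chart z₀ l (R ξ))⟫_ℝ - ⟪ν, G z₀⟫_ℝ) := by
  have hsn : ‖(s : ℂ) * l‖ = 1 := by
    rw [norm_mul, hl, mul_one, norm_real, Real.norm_eq_abs]
    rcases hR.hs with h | h <;> rw [h] <;> simp
  have hss : s * s = 1 := by rcases hR.hs with h | h <;> rw [h] <;> norm_num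
  obtain ⟨j, hj⟩ := hS.bulge z₀ (s * l) hz hsn
  have hε := h.eps
  -- heights
  set H₀ := Hs z₀ (s * l) (1/20) with hH₀
  set H₆ := Hs z₀ (s * l) (3/20) with hH₆
  set v : ℝ := 10 * (H₆ - H₀) with hv
  have hRt : ∀ t : ℝ, R (t * I) = s * (t * I) := by
    intro t
    apply Complex.ext
    · rw [hR.re]; simp
    · rw [hR.im]; simp
  have hHR : ∀ t : ℝ, hh (chart z₀ l (R (t * I))) = Hs z₀ (s * l) t := by
    intro t
    rw [hRt, Hs, chart, chart]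
    congr 3; ring
  have hv4 : |v| ≤ 4 := by
    have h1 : |H₆ - H₀| ≤ 4 * ‖((3/20 : ℝ) : ℂ) * I - ((1/20 : ℝ) : ℂ) * I‖ := by
      refine hh_chart_lip hz hsn ?_ ?_
      · rw [norm_mul, norm_I, norm_real]; norm_num
      · rw [norm_mul, norm_I, norm_real]; norm_num
    rw [← sub_mul, norm_mul, norm_I, ← ofReal_sub, norm_real] at h1
    rw [hv, abs_mul]
    norm_num at h1 ⊢
    linarith
  -- sign
  obtain ⟨σ, hσ1, hσ2⟩ : ∃ σ : ℝ, |σ| = 1 ∧ σ * EE z₀ (s * l) j = |EE z₀ (s * l) j| := by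
    rcases le_or_gt 0 (EE z₀ (s * l) j) with h0 | h0
    · exact ⟨1, by simp, by rw [abs_of_nonneg h0, one_mul]⟩
    · exact ⟨-1, by simp, by rw [abs_of_neg h0]; ring⟩
  set Λ : E3 := σ • (emb 0 1 - (v * s) • emb (I * l) 0) with hΛ
  set α : ℝ := σ * (H₀ - v / 20 - v * s * (conj l * z₀ ^ 2).im) with hα
  have hI : ∀ w : ℂ, (conj (I * l) * w).re = (conj l * w).im := by
    intro w; simp; ring
  -- value of the functional on `ff`
  have hAf : ∀ ξ : ℂ, ‖ξ‖ ≤ 1/4 → ⟪Λ, ff (chart z₀ l (R ξ))⟫_ℝ - α =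
      σ * (hh (chart z₀ l (R ξ)) - H₀ - v * (ξ.im - 1/20)) := by
    intro ξ hξ
    rw [hΛ, inner_smul_left, inner_sub_left, inner_smul_left, ff, inner_emb_emb, inner_emb_emb,
      hI, chart_sq hz]
    have : conj l * l = 1 := by
      rw [mul_comm, mul_conj, normSq_eq_norm_sq, hl]; norm_num
    have h3 : conj l * (z₀ ^ 2 + l * R ξ) = conj l * z₀ ^ 2 + R ξ := by
      linear_combination (R ξ) * this
    rw [h3, add_im, hR.im, hα]
    simp only [map_zero, zero_mul, zero_re, RCLike.conj_to_real]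
    linear_combination (-σ * v * ξ.im) * hss
  have hΛn : ‖Λ‖ ≤ 5 := by
    have h1 : ‖emb 0 1‖ = 1 := by
      have := norm_emb_sq 0 1
      simp only [norm_zero] at this
      nlinarith [norm_nonneg (emb 0 1), sq_nonneg (‖emb 0 1‖ - 1)]
    have h2 : ‖emb (I * l) 0‖ = 1 := by
      have := norm_emb_sq (I * l) 0
      rw [norm_mul, norm_I, hl] at this
      nlinarith [norm_nonneg (emb (I * l) 0), sq_nonneg (‖emb (I * l) 0‖ - 1)]
    have h3 : |s| = 1 := by rcases hR.hs with h | h <;> rw [h] <;> simp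
    rw [hΛ, norm_smul, Real.norm_eq_abs, hσ1, one_mul]
    calc ‖emb 0 1 - (v * s) • emb (I * l) 0‖ ≤ ‖emb 0 1‖ + ‖(v * s) • emb (I * l) 0‖ :=
          norm_sub_le _ _
      _ = 1 + |v| := by
          rw [norm_smul, h1, h2, Real.norm_eq_abs, abs_mul, h3]; ring
      _ ≤ 5 := by linarith
  have hAe : ∀ ξ : ℂ, ‖ξ‖ ≤ 1/4 → |(⟪Λ, G (chart z₀ l (R ξ))⟫_ℝ - α) -
      σ * (hh (chart z₀ l (R ξ)) - H₀ - v * (ξ.im - 1/20))| ≤ 5 * ε := by
    intro ξ hξ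
    have hξ' : ‖R ξ‖ ≤ 1/4 := by rw [hR.norm]; exact hξ
    rw [← hAf ξ hξ, sub_sub_sub_cancel_right, ← inner_sub_right]
    calc _ ≤ ‖Λ‖ * ‖G (chart z₀ l (R ξ)) - ff (chart z₀ l (R ξ))‖ := abs_real_inner_le_norm _ _
      _ ≤ 5 * ε := mul_le_mul hΛn (h.close _ (chart_mem hz hl hξ')) (norm_nonneg _) (by norm_num)
  have hQB : ∀ ξ ∈ QC, ‖ξ‖ ≤ 1/4 := fun ξ hξ =>
    (mem_ball_zero_iff.1 (QO_subset_BB (QC_subset_QO hξ))).le
  have hlip : ∀ ξ : ℂ, ‖ξ‖ ≤ 1/4 → ∀ t : ℝ, |t| ≤ 1/4 →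
      |hh (chart z₀ l (R ξ)) - Hs z₀ (s * l) t| ≤ 4 * ‖ξ - t * I‖ := by
    intro ξ hξ t ht
    rw [← hHR, ← hR.norm_sub]
    refine hh_chart_lip hz hl (by rw [hR.norm]; exact hξ) (by rw [hR.norm]; simpa using ht)
  have hσle : ∀ x : ℝ, σ * x ≤ |x| := by
    intro x
    calc σ * x ≤ |σ * x| := le_abs_self _
      _ = |x| := by rw [abs_mul, hσ1, one_mul]
  refine touch (G := fun ξ => G (chart z₀ l (R ξ)))
    ((h.contR hz hl hR).mono (QO_subset_BB.trans BB_sub))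
    (fun N η hη x hx => h.maxR hz hl hR N η hη x (QO_subset_BB hx)) ν Λ _ α
    (κ := 8 * θ + 2 * ε) (l := 100) (e₁ := 5 * ε) (b := b₀ - 5 * ε) (M := 2) (C := 16)
    (by linarith [hS.kap]) (by linarith [hS.th, hε.1]) ?_ (by norm_num) ?_ ?_
    (tt_mem j) ?_ ?_ ?_ ?_
  · intro ξ hξ
    exact u_bound h hz hl hR hν (mem_ball_zero_iff.1 (QO_subset_BB hξ)).le
  · intro ξ hξ him
    have h1 := (abs_le.1 (hAe ξ (hQB ξ hξ))).2
    have h3 : σ * (hh (chart z₀ l (R ξ)) - H₀ - v * (ξ.im - 1/20)) ≤ 4 * |ξ.re| := by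
      rcases him with him | him
      · have h2 := hlip ξ (hQB ξ hξ) (1/20) (by norm_num [abs_le])
        have e : ‖ξ - ((1/20 : ℝ) : ℂ) * I‖ = |ξ.re| := by
          have : ξ - ((1/20 : ℝ) : ℂ) * I = (ξ.re : ℂ) := by
            apply Complex.ext
            · simp
            · simp [him]
          rw [this, norm_real, Real.norm_eq_abs]
        rw [e] at h2
        refine (hσle _).trans ?_
        rw [him]
        have e2 : hh (chart z₀ l (R ξ)) - H₀ - v * (1/20 - 1/20) =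
            hh (chart z₀ l (R ξ)) - H₀ := by ring
        rw [e2]; exact h2
      · have h2 := hlip ξ (hQB ξ hξ) (3/20) (by norm_num [abs_le])
        have e : ‖ξ - ((3/20 : ℝ) : ℂ) * I‖ = |ξ.re| := by
          have : ξ - ((3/20 : ℝ) : ℂ) * I = (ξ.re : ℂ) := by
            apply Complex.ext
            · simp
            · simp [him]
          rw [this, norm_real, Real.norm_eq_abs]
        rw [e] at h2
        refine (hσle _).trans ?_
        rw [him]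
        have e2 : hh (chart z₀ l (R ξ)) - H₀ - v * (3/20 - 1/20) =
            hh (chart z₀ l (R ξ)) - H₆ := by rw [hv]; ring
        rw [e2]; exact h2
    have h4 := abs_nonneg ξ.re
    linarith
  · intro ξ hξ
    have h1 := (abs_le.1 (hAe ξ (hQB ξ hξ))).2
    have h2 := hlip ξ (hQB ξ hξ) (1/20) (by norm_num [abs_le])
    have h3 : ‖ξ - ((1/20 : ℝ) : ℂ) * I‖ ≤ 1/5 := by
      have a := norm_le_abs_re_add_abs_im (ξ - ((1/20 : ℝ) : ℂ) * I)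
      have b : |(ξ - ((1/20 : ℝ) : ℂ) * I).re| ≤ 1/10 := by
        simpa [abs_le] using hξ.1
      have c : |(ξ - ((1/20 : ℝ) : ℂ) * I).im| ≤ 1/10 := by
        have := hξ.2
        rw [abs_le]
        simp
        constructor <;> linarith
      linarith
    have h4 : |v * (ξ.im - 1/20)| ≤ 4 * (1/10) := by
      rw [abs_mul]
      have := hξ.2
      refine mul_le_mul hv4 ?_ (abs_nonneg _) (by norm_num)
      rw [abs_le]; constructor <;> linarith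
    have h5 : σ * (hh (chart z₀ l (R ξ)) - H₀ - v * (ξ.im - 1/20)) ≤ 4 * (1/5) + 4 * (1/10) := by
      refine (hσle _).trans ((abs_sub _ _).trans ?_)
      linarith
    linarith [hε.2]
  · have htn : ‖((tt j : ℝ) : ℂ) * I‖ ≤ 1/4 := by
      have := tt_mem j
      rw [norm_mul, norm_I, norm_real, Real.norm_eq_abs, abs_of_pos (by linarith)]
      linarith
    have h1 := (abs_le.1 (hAe _ htn)).1
    rw [hHR] at h1
    have h2 : σ * (Hs z₀ (s * l) (tt j) - H₀ - v * ((((tt j : ℝ) : ℂ) * I).im - 1/20)) =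
        |EE z₀ (s * l) j| := by
      have e3 : (((tt j : ℝ) : ℂ) * I).im = tt j := by simp
      rw [← hσ2, EE, hv, e3, ← hH₀, ← hH₆]
      ring
    rw [h2] at h1
    linarith
  · intro ξ hξ
    have h1 := h.norm_le (chart_mem (z₀ := z₀) (l := l) hz hl (ξ := R ξ)
      (by rw [hR.norm]; exact hQB ξ hξ))
    have h2 := norm_nonneg (G (chart z₀ l (R ξ)))
    nlinarith
  · have := hS.small
    linarith
  · have := hS.small
    have := hS.kap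
    have := hS.th
    linarith [hε.1]

theorem joinP {θ b₀ : ℝ} (hS : Small ε θ b₀) (h : Hyp G ε) (hz : ‖z₀‖ = 3/4)
    (hl : ‖l‖ = 1) {ν : E3} (hν : ‖ν - emb l 0‖ ≤ θ) {p : ℂ} (hp : p ∈ BB)
    (hpim : |p.im| < 1/50) (hup : 0 < ⟪ν, G (chart z₀ l p)⟫_ℝ - ⟪ν, G z₀⟫_ℝ) :
    JoinedIn ({ξ | 0 < ⟪ν, G (chart z₀ l ξ)⟫_ℝ - ⟪ν, G z₀⟫_ℝ} ∩ BB) ((1/8 : ℝ) : ℂ) p := by
  have hGc := (h.contR hz hl refl_id).mono BB_sub
  have huc : ContinuousOn (fun ξ => ⟪ν, G (chart z₀ l ξ)⟫_ℝ - ⟪ν, G z₀⟫_ℝ) BB :=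
    ((continuousOn_const (c := ν)).inner (𝕜 := ℝ) hGc).sub continuousOn_const
  refine joined_plus (u := fun ξ => ⟪ν, G (chart z₀ l ξ)⟫_ℝ - ⟪ν, G z₀⟫_ℝ)
    (κ := 8 * θ + 2 * ε) hS.kap.le huc ?_ ?_
    (touch_at hS h hz hl refl_id hν) (touch_at hS h hz hl refl_conj hν) hp hpim hup
  · intro ξ hξ
    exact u_bound h hz hl refl_id hν (mem_ball_zero_iff.1 hξ).le
  · intro p hp hup
    exact reach hGc (h.maxR hz hl refl_id) ν _ hp hup

theorem joinM {θ b₀ : ℝ} (hS : Small ε θ b₀) (h : Hyp G ε) (hz : ‖z₀‖ = 3/4)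
    (hl : ‖l‖ = 1) {ν : E3} (hν : ‖ν - emb l 0‖ ≤ θ) {p : ℂ} (hp : p ∈ BB)
    (hpim : |p.im| < 1/50) (hup : ⟪ν, G (chart z₀ l p)⟫_ℝ - ⟪ν, G z₀⟫_ℝ < 0) :
    JoinedIn ({ξ | ⟪ν, G (chart z₀ l ξ)⟫_ℝ - ⟪ν, G z₀⟫_ℝ < 0} ∩ BB) (-((1/8 : ℝ) : ℂ)) p := by
  have hneg : emb (-l) 0 = -emb l 0 := by
    ext i; fin_cases i <;> simp [emb]
  have hBn : ∀ ξ, -ξ ∈ BB ↔ ξ ∈ BB := fun ξ => by
    rw [BB, mem_ball_zero_iff, mem_ball_zero_iff, norm_neg]
  have h1 := joinP (l := -l) hS h hz (by rw [norm_neg]; exact hl) (ν := -ν)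
    (by rw [hneg, ← neg_sub', norm_neg]; simpa using hν) (p := -p) ((hBn p).2 hp)
    (by rw [neg_im, abs_neg]; exact hpim)
    (by rw [chart_neg, neg_neg, inner_neg_left, inner_neg_left]; linarith)
  obtain ⟨γ, hγ⟩ := h1
  refine ⟨(γ.map continuous_neg).cast rfl (neg_neg p).symm, fun t => ?_⟩
  have h2 := hγ t
  have h3 : ((γ.map continuous_neg).cast rfl (neg_neg p).symm) t = -γ t := rfl
  rw [h3]
  refine ⟨?_, (hBn _).2 h2.2⟩
  have h4 := h2.1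
  simp only [mem_ofPred_eq, inner_neg_left] at h4 ⊢
  rw [chart_neg]
  linarith

end

theorem lift_local {G : ℂ → E3} {ε θ b₀ : ℝ} (hS : Small ε θ b₀) (h : Hyp G ε)
    {T : Type*} [TopologicalSpace T] {z₀ : T → ℂ} (hz₀ : Continuous z₀)
    (hz : ∀ τ, ‖z₀ τ‖ = 3/4) {l : ℂ} (hl : ‖l‖ = 1) {ν : T → E3} (hνc : Continuous ν)
    (hν : ∀ τ, ‖ν τ - emb l 0‖ ≤ θ) {p q : T → ℂ} (hp : Continuous p) (hq : Continuous q)
    (hpz : ∀ τ, ‖p τ - z₀ τ‖ < 1/100) (hqz : ∀ τ, ‖q τ - z₀ τ‖ < 1/100)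
    (hup : ∀ τ, 0 < ⟪ν τ, G (p τ)⟫_ℝ - ⟪ν τ, G (z₀ τ)⟫_ℝ)
    (huq : ∀ τ, ⟪ν τ, G (q τ)⟫_ℝ - ⟪ν τ, G (z₀ τ)⟫_ℝ < 0) :
    ∃ a : T → ℂ, Continuous a ∧ ∀ τ, exp (a τ) = (p τ ^ 2 - q τ ^ 2) / l := by
  have hl0 : l ≠ 0 := by intro h; rw [h, norm_zero] at hl; norm_num at hl
  -- generic facts for points near `z₀`
  have hnear : ∀ τ (w : ℂ), ‖w - z₀ τ‖ < 1/100 →
      ‖(w ^ 2 - z₀ τ ^ 2) / l‖ < 1/50 ∧ 0 < (w / z₀ τ).re := by
    intro τ w hw
    have h0 := z0_ne (hz τ)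
    constructor
    · rw [norm_div, hl, div_one]
      have e : w ^ 2 - z₀ τ ^ 2 = (w - z₀ τ) * ((w - z₀ τ) + 2 * z₀ τ) := by ring
      rw [e, norm_mul]
      have h1 : ‖(w - z₀ τ) + 2 * z₀ τ‖ ≤ 1/100 + 2 * (3/4) := by
        refine (norm_add_le _ _).trans ?_
        rw [norm_mul, hz τ]
        norm_num
        linarith
      nlinarith [norm_nonneg (w - z₀ τ), norm_nonneg ((w - z₀ τ) + 2 * z₀ τ)]
    · have e : w / z₀ τ = 1 + (w - z₀ τ) / z₀ τ := by field_simp; ring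
      rw [e, add_re, one_re]
      have h1 : ‖(w - z₀ τ) / z₀ τ‖ < 1 := by
        rw [norm_div, hz τ, div_lt_one (by norm_num)]; linarith
      have h2 := (abs_le.1 (abs_re_le_norm ((w - z₀ τ) / z₀ τ))).1
      linarith
  set u : T × ℂ → ℝ := fun x => ⟪ν x.1, G (chart (z₀ x.1) l x.2)⟫_ℝ - ⟪ν x.1, G (z₀ x.1)⟫_ℝ
    with hu
  have hball : ∀ τ, z₀ τ ∈ Metric.ball (0 : ℂ) 1 := fun τ => by
    rw [mem_ball_zero_iff, hz τ]; norm_num
  have huc : ContinuousOn u (univ ×ˢ BB) := by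
    rintro ⟨τ, ξ⟩ ⟨-, hξ⟩
    have hξ' : ‖ξ‖ ≤ 1/4 := (mem_ball_zero_iff.1 hξ).le
    have h1 : ContinuousAt (fun x : T × ℂ => chart (z₀ x.1) l x.2) (τ, ξ) :=
      chart_continuousAt (hz₀.comp continuous_fst).continuousAt continuousAt_const
        continuousAt_snd (hz τ) hl hξ'
    have h2 : ContinuousAt G (chart (z₀ τ) l ξ) :=
      h.cont.continuousAt (Metric.isOpen_ball.mem_nhds (chart_mem (hz τ) hl hξ'))
    have h3 : ContinuousAt (fun x : T × ℂ => G (chart (z₀ x.1) l x.2)) (τ, ξ) :=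
      ContinuousAt.comp (f := fun x : T × ℂ => chart (z₀ x.1) l x.2) h2 h1
    have h4 : ContinuousAt (fun x : T × ℂ => G (z₀ x.1)) (τ, ξ) :=
      ContinuousAt.comp (f := fun x : T × ℂ => z₀ x.1)
        (h.cont.continuousAt (Metric.isOpen_ball.mem_nhds (hball τ)))
        (hz₀.comp continuous_fst).continuousAt
    have h5 : ContinuousAt (fun x : T × ℂ => ν x.1) (τ, ξ) :=
      (hνc.comp continuous_fst).continuousAt
    exact ((h5.inner (𝕜 := ℝ) h3).sub (h5.inner (𝕜 := ℝ) h4)).continuousWithinAt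
  have hopen : IsOpen ((univ : Set T) ×ˢ BB) := isOpen_univ.prod Metric.isOpen_ball
  have hκ := hS.kap
  obtain ⟨a, hac, ha⟩ := lift_pair (T := T) (fun τ => {ξ | 0 < u (τ, ξ)} ∩ BB)
    (fun τ => {ξ | u (τ, ξ) < 0} ∩ BB) (e := 1/8) (by norm_num)
    (by
      have := huc.isOpen_inter_preimage hopen (isOpen_Ioi (a := (0 : ℝ)))
      convert this using 1
      ext x; constructor
      · rintro ⟨h1, h2⟩; exact ⟨⟨trivial, h2⟩, h1⟩
      · rintro ⟨⟨-, h2⟩, h1⟩; exact ⟨h1, h2⟩)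
    (by
      have := huc.isOpen_inter_preimage hopen (isOpen_Iio (a := (0 : ℝ)))
      convert this using 1
      ext x; constructor
      · rintro ⟨h1, h2⟩; exact ⟨⟨trivial, h2⟩, h1⟩
      · rintro ⟨⟨-, h2⟩, h1⟩; exact ⟨h1, h2⟩)
    (fun τ => Set.disjoint_left.2 fun x h1 h2 =>
      lt_asymm (show 0 < u (τ, x) from h1.1) h2.1)
    (fun τ ξ hξ => by
      have h1 := abs_le.1 (u_bound h (hz τ) hl refl_id (hν τ) (mem_ball_zero_iff.1 hξ.2).le)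
      have h2 : 0 < u (τ, ξ) := hξ.1
      simp only [hu] at h2
      linarith)
    (fun τ ξ hξ => by
      have h1 := abs_le.1 (u_bound h (hz τ) hl refl_id (hν τ) (mem_ball_zero_iff.1 hξ.2).le)
      have h2 : u (τ, ξ) < 0 := hξ.1
      simp only [hu] at h2
      linarith)
    (p := fun τ => (p τ ^ 2 - z₀ τ ^ 2) / l) (q := fun τ => (q τ ^ 2 - z₀ τ ^ 2) / l)
    (by fun_prop) (by fun_prop)
    (fun τ => by
      have hn := hnear τ _ (hpz τ)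
      refine joinP hS h (hz τ) hl (hν τ) ?_ ?_ ?_
      · rw [BB, mem_ball_zero_iff]; linarith [hn.1]
      · exact (abs_im_le_norm _).trans_lt hn.1
      · rw [chart_inv (hz τ) hl hn.2]; exact hup τ)
    (fun τ => by
      have hn := hnear τ _ (hqz τ)
      refine joinM hS h (hz τ) hl (hν τ) ?_ ?_ ?_
      · rw [BB, mem_ball_zero_iff]; linarith [hn.1]
      · exact (abs_im_le_norm _).trans_lt hn.1
      · rw [chart_inv (hz τ) hl hn.2]; exact huq τ)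
  refine ⟨a, hac, fun τ => ?_⟩
  rw [ha]
  field_simp
  ring

end Saddle486
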