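import Mathlib
import Pool.Agent.Helper486.Saddle.Local

/-! No horizontal normals over the circle `|z| = 3/4`. -/

open Complex Set Topology Filter ComplexConjugate
open scoped InnerProductSpace

namespace Saddle486

/-- a `C¹` immersion of the open disc, reparametrised by a homeomorphism of the open disc,
close to the branched surface -/
structure Dat (g : ℂ → E3) (φ ψ : ℂ → ℂ) (ε : ℝ) : Prop where
  gC : ContDiffOn ℝ 1 g (Metric.ball 0 1)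
  imm : ∀ y ∈ Metric.ball (0 : ℂ) 1, Function.Injective (fderiv ℝ g y)
  max : MaxP g (Metric.ball 0 1)
  φc : ContinuousOn φ (Metric.ball 0 1)
  ψc : ContinuousOn ψ (Metric.ball 0 1)
  φm : ∀ z ∈ Metric.ball (0 : ℂ) 1, φ z ∈ Metric.ball (0 : ℂ) 1
  ψm : ∀ z ∈ Metric.ball (0 : ℂ) 1, ψ z ∈ Metric.ball (0 : ℂ) 1
  ψφ : ∀ z ∈ Metric.ball (0 : ℂ) 1, ψ (φ z) = z
  φψ : ∀ z ∈ Metric.ball (0 : ℂ) 1, φ (ψ z) = z
  close : ∀ z ∈ Metric.ball (0 : ℂ) 1, ‖g (φ z) - ff z‖ ≤ ε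
  eps : 0 ≤ ε ∧ ε ≤ 1/100

variable {g : ℂ → E3} {φ ψ : ℂ → ℂ} {ε : ℝ}

theorem Dat.hyp (h : Dat g φ ψ ε) : Hyp (fun z => g (φ z)) ε := by
  refine ⟨h.gC.continuousOn.comp h.φc h.φm, ?_, h.close, h.eps⟩
  intro N η hη z hz hmax
  have hφz := h.φm z hz
  refine h.max N η hη (φ z) hφz ?_
  have hc : ContinuousAt ψ (φ z) := h.ψc.continuousAt (Metric.isOpen_ball.mem_nhds hφz)
  have ht : Tendsto ψ (𝓝 (φ z)) (𝓝 z) := by
    have := hc.tendsto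
    rwa [h.ψφ z hz] at this
  filter_upwards [ht.eventually hmax, Metric.isOpen_ball.mem_nhds hφz] with y h1 h2
  simp only [h.φψ y h2] at h1
  exact h1

/-- first partial derivative -/
noncomputable def da (g : ℂ → E3) (y : ℂ) : E3 := fderiv ℝ g y 1
/-- second partial derivative -/
noncomputable def db (g : ℂ → E3) (y : ℂ) : E3 := fderiv ℝ g y I

theorem fderiv_eq (y v : ℂ) : fderiv ℝ g y v = v.re • da g y + v.im • db g y := by
  have : v = v.re • (1 : ℂ) + v.im • I := by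
    simp
  conv_lhs => rw [this]
  rw [map_add, map_smul, map_smul]; rfl

/-- third component of the normal -/
noncomputable def n3 (g : ℂ → E3) (y : ℂ) : ℝ := da g y 0 * db g y 1 - da g y 1 * db g y 0

theorem inner3 (x y : E3) : ⟪x, y⟫_ℝ = x 0 * y 0 + x 1 * y 1 + x 2 * y 2 := by
  simp [PiLp.inner_apply, Fin.sum_univ_three, mul_comm]

theorem normsq3 (x : E3) : ‖x‖ ^ 2 = x 0 ^ 2 + x 1 ^ 2 + x 2 ^ 2 := by
  rw [← real_inner_self_eq_norm_sq, inner3]; ring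

/-- the Gram determinant -/
noncomputable def gram (g : ℂ → E3) (y : ℂ) : ℝ :=
  ‖da g y‖ ^ 2 * ‖db g y‖ ^ 2 - ⟪da g y, db g y⟫_ℝ ^ 2

theorem gram_pos (h : Dat g φ ψ ε) {y : ℂ} (hy : y ∈ Metric.ball (0 : ℂ) 1) : 0 < gram g y := by
  have hinj := h.imm y hy
  have ha : da g y ≠ 0 := by
    intro h0
    have : fderiv ℝ g y 1 = fderiv ℝ g y 0 := by rw [map_zero]; exact h0
    exact one_ne_zero (hinj this)
  have hap : 0 < ‖da g y‖ := norm_pos_iff.2 ha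
  have h0 : 0 ≤ gram g y := by
    have := real_inner_mul_inner_self_le (da g y) (db g y)
    rw [real_inner_self_eq_norm_sq, real_inner_self_eq_norm_sq] at this
    unfold gram; nlinarith
  refine lt_of_le_of_ne h0 fun hg => ?_
  set v : ℂ := ⟨⟪da g y, db g y⟫_ℝ, -‖da g y‖ ^ 2⟩ with hv
  have h1 : fderiv ℝ g y v = 0 := by
    rw [fderiv_eq]
    rw [← norm_eq_zero, ← sq_eq_zero_iff, ← real_inner_self_eq_norm_sq]
    simp only [hv, inner_add_left, inner_add_right, inner_smul_left, inner_smul_right,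
      RCLike.conj_to_real, real_inner_self_eq_norm_sq]
    rw [real_inner_comm (da g y) (db g y)]
    have : ‖da g y‖ ^ 2 * gram g y = 0 := by rw [← hg]; ring
    unfold gram at this
    linear_combination this
  have h2 : v = 0 := hinj (by rw [h1, map_zero])
  have h3 := congr_arg Complex.im h2
  simp [hv] at h3
  exact ha h3

theorem gram_eq (y : ℂ) : gram g y =
    (da g y 1 * db g y 2 - da g y 2 * db g y 1) ^ 2 +
    (da g y 2 * db g y 0 - da g y 0 * db g y 2) ^ 2 + n3 g y ^ 2 := by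
  unfold gram n3
  rw [normsq3, normsq3, inner3]; ring

theorem near_bounds (h : Dat g φ ψ ε) {z₀ : ℂ} (hz1 : z₀ ∈ Metric.ball (0 : ℂ) 1) {η : ℝ}
    (hη : 0 < η) : ∃ δ > 0, ∀ v ∈ Metric.ball (0 : ℂ) δ,
      ‖g (φ z₀ + v) - g (φ z₀) - fderiv ℝ g (φ z₀) v‖ ≤ η * ‖v‖ ∧
      φ z₀ + v ∈ Metric.ball (0 : ℂ) 1 ∧ ‖ψ (φ z₀ + v) - z₀‖ < 1/100 := by
  have hy1 : φ z₀ ∈ Metric.ball (0 : ℂ) 1 := h.φm z₀ hz1
  have hdiff : HasFDerivAt g (fderiv ℝ g (φ z₀)) (φ z₀) :=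
    ((h.gC.differentiableOn (by norm_num)).differentiableAt
      (Metric.isOpen_ball.mem_nhds hy1)).hasFDerivAt
  have hev1 : ∀ᶠ v in 𝓝 (0 : ℂ), ‖g (φ z₀ + v) - g (φ z₀) - fderiv ℝ g (φ z₀) v‖ ≤ η * ‖v‖ :=
    (hasFDerivAt_iff_isLittleO_nhds_zero.1 hdiff).def hη
  have hev2 : ∀ᶠ v in 𝓝 (0 : ℂ), φ z₀ + v ∈ Metric.ball (0 : ℂ) 1 := by
    have hc : Continuous (fun v : ℂ => φ z₀ + v) := by fun_prop
    exact hc.continuousAt.eventually (Metric.isOpen_ball.mem_nhds (by simpa using hy1))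
  have hev3 : ∀ᶠ v in 𝓝 (0 : ℂ), ‖ψ (φ z₀ + v) - z₀‖ < 1/100 := by
    have hc : ContinuousAt (fun v : ℂ => ‖ψ (φ z₀ + v) - z₀‖) 0 := by
      have h1 : ContinuousAt ψ (φ z₀ + 0) := by
        rw [add_zero]; exact h.ψc.continuousAt (Metric.isOpen_ball.mem_nhds hy1)
      have h2 : ContinuousAt (fun v : ℂ => φ z₀ + v) 0 := by fun_prop
      have h3 : ContinuousAt (fun v : ℂ => ψ (φ z₀ + v)) 0 :=
        ContinuousAt.comp (f := fun v : ℂ => φ z₀ + v) h1 h2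
      exact (h3.sub continuousAt_const).norm
    refine hc.eventually (gt_mem_nhds ?_)
    show ‖ψ (φ z₀ + 0) - z₀‖ < 1/100
    rw [add_zero, h.ψφ z₀ hz1, sub_self, norm_zero]; norm_num
  exact Metric.eventually_nhds_iff_ball.1 (hev1.and (hev2.and hev3))

theorem normal_alg {a b : E3} (hg : 0 < ‖a‖ ^ 2 * ‖b‖ ^ 2 - ⟪a, b⟫_ℝ ^ 2)
    (hn3 : a 0 * b 1 - a 1 * b 0 = 0) :
    ∃ l : ℂ, ‖l‖ = 1 ∧ ⟪emb l 0, a⟫_ℝ = 0 ∧ ⟪emb l 0, b⟫_ℝ = 0 ∧
      ∀ x : E3, ⟪x, emb l 0⟫_ℝ = 0 → ⟪x, a⟫_ℝ = 0 → ⟪x, b⟫_ℝ = 0 → x = 0 := by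
  obtain ⟨N, hN⟩ : ∃ N, N = ‖a‖ ^ 2 * ‖b‖ ^ 2 - ⟪a, b⟫_ℝ ^ 2 := ⟨_, rfl⟩
  obtain ⟨n1, hn1⟩ : ∃ n1, n1 = a 1 * b 2 - a 2 * b 1 := ⟨_, rfl⟩
  obtain ⟨n2, hn2⟩ : ∃ n2, n2 = a 2 * b 0 - a 0 * b 2 := ⟨_, rfl⟩
  rw [← hN] at hg
  have hNe : N = n1 ^ 2 + n2 ^ 2 := by
    rw [hN, hn1, hn2, normsq3, normsq3, inner3]
    linear_combination (a 0 * b 1 - a 1 * b 0) * hn3
  obtain ⟨r, hr⟩ : ∃ r, r = Real.sqrt N := ⟨_, rfl⟩
  have hrp : 0 < r := by rw [hr]; exact Real.sqrt_pos.2 hg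
  have hr2 : r ^ 2 = N := by rw [hr]; exact Real.sq_sqrt hg.le
  refine ⟨⟨n1 / r, n2 / r⟩, ?_, ?_, ?_, ?_⟩
  · have h1 : ‖(⟨n1 / r, n2 / r⟩ : ℂ)‖ ^ 2 = 1 := by
      rw [← normSq_eq_norm_sq, normSq_apply]
      simp only
      field_simp
      rw [hr2, hNe]
    nlinarith [norm_nonneg (⟨n1 / r, n2 / r⟩ : ℂ), sq_nonneg (‖(⟨n1 / r, n2 / r⟩ : ℂ)‖ - 1)]
  · rw [inner_emb]
    simp only
    field_simp
    rw [hn1, hn2]
    linear_combination (-(a 2)) * hn3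
  · rw [inner_emb]
    simp only
    field_simp
    rw [hn1, hn2]
    linear_combination (-(b 2)) * hn3
  · intro x e3 e1 e2
    rw [inner3] at e1 e2
    rw [real_inner_comm, inner_emb] at e3
    simp only at e3
    field_simp at e3
    have e3' : n1 * x 0 + n2 * x 1 = 0 := by linear_combination e3
    have f1 : x 2 * n2 = 0 := by
      rw [hn2]; linear_combination -(a 0) * e2 + (b 0) * e1 + (x 1) * hn3
    have f2 : x 2 * n1 = 0 := by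
      rw [hn1]; linear_combination (a 1) * e2 - (b 1) * e1 + (x 0) * hn3
    have f3 : x 0 * n2 - x 1 * n1 = 0 := by
      rw [hn1, hn2]; linear_combination (a 2) * e2 - (b 2) * e1
    have f4 : (x 0 ^ 2 + x 1 ^ 2 + x 2 ^ 2) * N = 0 := by
      rw [hNe]
      have : (x 0 ^ 2 + x 1 ^ 2 + x 2 ^ 2) * (n1 ^ 2 + n2 ^ 2) =
        (x 2 * n2) ^ 2 + (x 2 * n1) ^ 2 + (x 0 * n2 - x 1 * n1) ^ 2 +
          (n1 * x 0 + n2 * x 1) ^ 2 := by ring
      rw [this, f1, f2, f3, e3']; ring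
    have f5 := (mul_eq_zero.1 f4).resolve_right hg.ne'
    rw [← normsq3] at f5
    exact norm_eq_zero.1 (pow_eq_zero_iff two_ne_zero |>.1 f5)

/-- directions orthogonal to `emb l 0` -/
noncomputable def mu (l : ℂ) (c : Circle) : E3 :=
  emb (((c : ℂ).re : ℂ) * (I * l)) (c : ℂ).im

theorem mu_cont (l : ℂ) : Continuous (mu l) := continuous_emb (by fun_prop) (by fun_prop)

theorem mu_norm {l : ℂ} (hl : ‖l‖ = 1) (c : Circle) : ‖mu l c‖ = 1 := by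
  have h1 := norm_emb_sq (((c : ℂ).re : ℂ) * (I * l)) (c : ℂ).im
  rw [norm_mul, norm_mul, norm_I, hl, norm_real, Real.norm_eq_abs] at h1
  have h2 : (c : ℂ).re ^ 2 + (c : ℂ).im ^ 2 = 1 := by
    have := Circle.normSq_coe c
    rw [normSq_apply] at this
    linarith
  have h3 : ‖mu l c‖ ^ 2 = 1 := by
    rw [mu, h1, mul_one, mul_one, sq_abs, h2]
  nlinarith [norm_nonneg (mu l c), sq_nonneg (‖mu l c‖ - 1)]

theorem mu_neg (l : ℂ) (c : Circle) : mu l (-c) = -mu l c := by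
  ext i
  fin_cases i <;> simp [mu, emb]

theorem mu_orth (l : ℂ) (c : Circle) : ⟪mu l c, emb l 0⟫_ℝ = 0 := by
  rw [mu, inner_emb_emb]
  simp
  ring

theorem emb_norm {l : ℂ} (hl : ‖l‖ = 1) : ‖emb l 0‖ = 1 := by
  have := norm_emb_sq l 0
  rw [hl] at this
  have h7 : ‖emb l 0‖ ^ 2 = 1 := by rw [this]; norm_num
  nlinarith [norm_nonneg (emb l 0), sq_nonneg (‖emb l 0‖ - 1)]

/-- the direction in the parameter plane -/
noncomputable def mm (l : ℂ) (a b : E3) (c : Circle) : ℂ :=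
  (⟪mu l c, a⟫_ℝ : ℂ) + (⟪mu l c, b⟫_ℝ : ℂ) * I

theorem mm_re (l : ℂ) (a b : E3) (c : Circle) : (mm l a b c).re = ⟪mu l c, a⟫_ℝ := by simp [mm]
theorem mm_im (l : ℂ) (a b : E3) (c : Circle) : (mm l a b c).im = ⟪mu l c, b⟫_ℝ := by simp [mm]

theorem mm_cont (l : ℂ) (a b : E3) : Continuous (mm l a b) := by
  have h1 : Continuous (fun c => ⟪mu l c, a⟫_ℝ) := (mu_cont l).inner continuous_const
  have h2 : Continuous (fun c => ⟪mu l c, b⟫_ℝ) := (mu_cont l).inner continuous_const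
  unfold mm
  fun_prop

theorem mm_neg (l : ℂ) (a b : E3) (c : Circle) : mm l a b (-c) = -mm l a b c := by
  simp only [mm, mu_neg, inner_neg_left]; push_cast; ring

theorem n3_ne_zero {θ b₀ : ℝ} (hS : Small ε θ b₀) (hθ : 0 < θ) (h : Dat g φ ψ ε) {z₀ : ℂ}
    (hz : ‖z₀‖ = 3/4) : n3 g (φ z₀) ≠ 0 := by
  intro hn
  have hz1 : z₀ ∈ Metric.ball (0 : ℂ) 1 := by rw [mem_ball_zero_iff, hz]; norm_num
  have hy1 : φ z₀ ∈ Metric.ball (0 : ℂ) 1 := h.φm z₀ hz1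
  have hgp := gram_pos h hy1
  obtain ⟨l, hln, hla, hlb, hlx⟩ := normal_alg hgp hn
  obtain ⟨m, hm⟩ : ∃ m, m = mm l (da g (φ z₀)) (db g (φ z₀)) := ⟨_, rfl⟩
  have hmc : Continuous m := by rw [hm]; exact mm_cont _ _ _
  have hmneg : ∀ c, m (-c) = -m c := by intro c; rw [hm]; exact mm_neg _ _ _ _
  have hmre : ∀ c, (m c).re = ⟪mu l c, da g (φ z₀)⟫_ℝ := by intro c; rw [hm]; exact mm_re _ _ _ _
  have hmim : ∀ c, (m c).im = ⟪mu l c, db g (φ z₀)⟫_ℝ := by intro c; rw [hm]; exact mm_im _ _ _ _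
  have hm0 : ∀ c, m c ≠ 0 := by
    intro c h0
    have e1 : ⟪mu l c, da g (φ z₀)⟫_ℝ = 0 := by rw [← hmre, h0]; rfl
    have e2 : ⟪mu l c, db g (φ z₀)⟫_ℝ = 0 := by rw [← hmim, h0]; rfl
    have := hlx _ (mu_orth l c) e1 e2
    have h2 := mu_norm hln c
    rw [this, norm_zero] at h2
    norm_num at h2
  -- lower and upper bounds
  obtain ⟨c₀, -, hc₀⟩ := isCompact_univ.exists_isMinOn (univ_nonempty (α := Circle))
    hmc.norm.continuousOn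
  have hm₀ : 0 < ‖m c₀‖ := norm_pos_iff.2 (hm0 c₀)
  have hmlow : ∀ c, ‖m c₀‖ ≤ ‖m c‖ := fun c => hc₀ (mem_univ c)
  obtain ⟨c₁, -, hc₁⟩ := isCompact_univ.exists_isMaxOn (univ_nonempty (α := Circle))
    hmc.norm.continuousOn
  have hmup : ∀ c, ‖m c‖ ≤ ‖m c₁‖ := fun c => hc₁ (mem_univ c)
  have hM : 0 < ‖m c₁‖ := lt_of_lt_of_le hm₀ (hmup c₀)
  obtain ⟨ν, hν⟩ : ∃ ν : Circle → E3, ν = fun c => emb l 0 + θ • mu l c := ⟨_, rfl⟩
  have hνc : Continuous ν := by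
    rw [hν]; exact continuous_const.add ((mu_cont l).const_smul θ)
  have hθ1 : θ ≤ 1 := by have := hS.kap; have := h.eps.1; linarith
  have hνn : ∀ c, ‖ν c‖ ≤ 2 := by
    intro c
    rw [hν]
    refine (norm_add_le _ _).trans ?_
    rw [norm_smul, mu_norm hln, emb_norm hln, Real.norm_eq_abs, abs_of_pos hθ]; linarith
  obtain ⟨δ, hδ, hδb⟩ := near_bounds h hz1 (η := θ * ‖m c₀‖ / 4) (by positivity)
  obtain ⟨s, hs⟩ : ∃ s : ℝ, s = δ / (2 * ‖m c₁‖) := ⟨_, rfl⟩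
  have hsp : 0 < s := by rw [hs]; positivity
  have hsm : ∀ c, ∀ e : ℝ, |e| = 1 → ((e * s : ℝ) : ℂ) * m c ∈ Metric.ball (0 : ℂ) δ := by
    intro c e he
    rw [mem_ball_zero_iff, norm_mul, norm_real, Real.norm_eq_abs, abs_mul, he, one_mul,
      abs_of_pos hsp]
    calc s * ‖m c‖ ≤ s * ‖m c₁‖ := mul_le_mul_of_nonneg_left (hmup c) hsp.le
      _ = δ / 2 := by rw [hs]; field_simp
      _ < δ := by linarith
  -- value of the functional
  have hval : ∀ c, ∀ e : ℝ, |e| = 1 →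
      |(⟪ν c, g (φ z₀ + ((e * s : ℝ) : ℂ) * m c)⟫_ℝ - ⟪ν c, g (φ z₀)⟫_ℝ) -
        e * (s * θ * ‖m c‖ ^ 2)| ≤ s * θ * ‖m c‖ ^ 2 / 2 := by
    intro c e he
    have h1 := (hδb _ (hsm c e he)).1
    have h2 : ⟪ν c, fderiv ℝ g (φ z₀) (((e * s : ℝ) : ℂ) * m c)⟫_ℝ =
        e * (s * θ * ‖m c‖ ^ 2) := by
      rw [fderiv_eq]
      simp only [hν, inner_add_left, inner_add_right, inner_smul_left, inner_smul_right]
      rw [hla, hlb, ← hmre, ← hmim, re_ofReal_mul, im_ofReal_mul,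
        ← normSq_eq_norm_sq, normSq_apply]
      simp
      ring
    have h3 : (⟪ν c, g (φ z₀ + ((e * s : ℝ) : ℂ) * m c)⟫_ℝ - ⟪ν c, g (φ z₀)⟫_ℝ) -
        e * (s * θ * ‖m c‖ ^ 2) = ⟪ν c, g (φ z₀ + ((e * s : ℝ) : ℂ) * m c) - g (φ z₀) -
          fderiv ℝ g (φ z₀) (((e * s : ℝ) : ℂ) * m c)⟫_ℝ := by
      rw [inner_sub_right, inner_sub_right, h2]
    rw [h3]
    refine (abs_real_inner_le_norm _ _).trans ?_
    have h4 : ‖((e * s : ℝ) : ℂ) * m c‖ = s * ‖m c‖ := by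
      rw [norm_mul, norm_real, Real.norm_eq_abs, abs_mul, he, one_mul, abs_of_pos hsp]
    rw [h4] at h1
    calc ‖ν c‖ * _ ≤ 2 * (θ * ‖m c₀‖ / 4 * (s * ‖m c‖)) :=
          mul_le_mul (hνn c) h1 (norm_nonneg _) (by norm_num)
      _ = (s * θ * ‖m c‖ / 2) * ‖m c₀‖ := by ring
      _ ≤ (s * θ * ‖m c‖ / 2) * ‖m c‖ := by
          apply mul_le_mul_of_nonneg_left (hmlow c); positivity
      _ = _ := by ring
  have hpos : ∀ c, 0 < s * θ * ‖m c‖ ^ 2 := fun c => by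
    have := lt_of_lt_of_le hm₀ (hmlow c); positivity
  -- the two curves
  have hcurve : ∀ e : ℝ, |e| = 1 →
      Continuous (fun c => ψ (φ z₀ + ((e * s : ℝ) : ℂ) * m c)) := by
    intro e he
    refine h.ψc.comp_continuous (by fun_prop) fun c => (hδb _ (hsm c e he)).2.1
  have e1 : |(1 : ℝ)| = 1 := by simp
  have e2 : |(-1 : ℝ)| = 1 := by simp
  obtain ⟨A, hA, hAe⟩ := lift_local hS h.hyp (T := Circle) (z₀ := fun _ => z₀)
    continuous_const (fun _ => hz) hln hνc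
    (fun c => by
      rw [hν, add_sub_cancel_left]
      rw [norm_smul, mu_norm hln, Real.norm_eq_abs, abs_of_pos hθ, mul_one])
    (p := fun c => ψ (φ z₀ + ((1 * s : ℝ) : ℂ) * m c))
    (q := fun c => ψ (φ z₀ + ((-1 * s : ℝ) : ℂ) * m c))
    (hcurve 1 e1) (hcurve (-1) e2)
    (fun c => (hδb _ (hsm c 1 e1)).2.2) (fun c => (hδb _ (hsm c (-1) e2)).2.2)
    (fun c => by
      have h1 := (abs_le.1 (hval c 1 e1)).1
      have h2 := hpos c
      simp only [h.φψ _ (hδb _ (hsm c 1 e1)).2.1]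
      linarith)
    (fun c => by
      have h1 := (abs_le.1 (hval c (-1) e2)).2
      have h2 := hpos c
      simp only [h.φψ _ (hδb _ (hsm c (-1) e2)).2.1]
      linarith)
  have hW : HasW (fun c => (ψ (φ z₀ + ((1 * s : ℝ) : ℂ) * m c) ^ 2 -
      ψ (φ z₀ + ((-1 * s : ℝ) : ℂ) * m c) ^ 2) / l) 0 :=
    HasW.of_log hA (fun c => (hAe c).symm)
  have hodd := hW.odd (fun c => by
    have k1 : φ z₀ + ((1 * s : ℝ) : ℂ) * m (-c) = φ z₀ + ((-1 * s : ℝ) : ℂ) * m c := by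
      rw [hmneg]; push_cast; ring
    have k2 : φ z₀ + ((-1 * s : ℝ) : ℂ) * m (-c) = φ z₀ + ((1 * s : ℝ) : ℂ) * m c := by
      rw [hmneg]; push_cast; ring
    rw [k1, k2]; ring)
  exact (by decide : ¬ Odd (0 : ℤ)) hodd

end Saddle486
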