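import Mathlib
import Pool.Agent.Helper486.Saddle.Vert
import Pool.Agent.Helper486.Saddle.Spinor

/-! The winding number of the horizontal gradient along the circle `|z| = 3/4` is odd. -/

open Complex Set Topology Filter ComplexConjugate
open scoped InnerProductSpace

namespace Saddle486

variable {g : ℂ → E3} {φ ψ : ℂ → ℂ} {ε : ℝ}

/-- the circle of radius 3/4 -/
noncomputable def zc (c : Circle) : ℂ := (3/4 : ℝ) * (c : ℂ)

theorem zc_norm (c : Circle) : ‖zc c‖ = 3/4 := by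
  have h1 : ‖(c : ℂ)‖ = 1 := c.norm_coe
  rw [zc, norm_mul, norm_real, h1]; simp

theorem zc_cont : Continuous zc := by unfold zc; fun_prop

theorem zc_mem (c : Circle) : zc c ∈ Metric.ball (0 : ℂ) 1 := by
  rw [mem_ball_zero_iff, zc_norm]; norm_num

/-- horizontal gradient of the first coordinate -/
noncomputable def rho (g : ℂ → E3) (y : ℂ) : ℂ := (da g y 0 : ℂ) + (db g y 0 : ℂ) * I

theorem da_cont (h : Dat g φ ψ ε) : ContinuousOn (da g) (Metric.ball 0 1) := by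
  have := h.gC.continuousOn_fderiv_of_isOpen Metric.isOpen_ball le_rfl
  exact this.clm_apply continuousOn_const

theorem db_cont (h : Dat g φ ψ ε) : ContinuousOn (db g) (Metric.ball 0 1) := by
  have := h.gC.continuousOn_fderiv_of_isOpen Metric.isOpen_ball le_rfl
  exact this.clm_apply continuousOn_const

theorem coord_cont {X : Type*} [TopologicalSpace X] {f : X → E3} {S : Set X}
    (hf : ContinuousOn f S) (i : Fin 3) : ContinuousOn (fun x => f x i) S := by
  have h1 : Continuous (fun v : E3 => v i) := by fun_prop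
  exact h1.comp_continuousOn hf

theorem rho_cont (h : Dat g φ ψ ε) : ContinuousOn (rho g) (Metric.ball 0 1) := by
  have h1 := coord_cont (da_cont h) 0
  have h2 := coord_cont (db_cont h) 0
  exact (continuous_ofReal.comp_continuousOn h1).add
    ((continuous_ofReal.comp_continuousOn h2).mul continuousOn_const)

theorem rho_ne {θ b₀ : ℝ} (hS : Small ε θ b₀) (hθ : 0 < θ) (h : Dat g φ ψ ε) (c : Circle) :
    rho g (φ (zc c)) ≠ 0 := by
  intro h0
  have h1 := congr_arg Complex.re h0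
  have h2 := congr_arg Complex.im h0
  simp [rho] at h1 h2
  apply n3_ne_zero hS hθ h (zc_norm c)
  rw [n3, h1, h2]; ring

theorem first_deriv (y v : ℂ) : (fderiv ℝ g y v) 0 = (conj (rho g y) * v).re := by
  rw [fderiv_eq]
  simp [rho]
  ring

theorem coord_le (v : E3) : |v 0| ≤ ‖v‖ := by
  have := normsq3 v
  refine abs_le_of_sq_le_sq ?_ (norm_nonneg _)
  nlinarith [sq_nonneg (v 1), sq_nonneg (v 2)]

/-- local uniform positivity -/
theorem local_unif (h : Dat g φ ψ ε) {m : Circle → ℂ} (hm : Continuous m)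
    (hm1 : ∀ c, ‖m c‖ = 1) (c₀ : Circle)
    (hpos : 0 < (conj (rho g (φ (zc c₀))) * m c₀).re) {e : ℝ} (he : |e| = 1) :
    ∀ᶠ x : ℝ × Circle in 𝓝 (0, c₀), 0 < x.1 →
      ‖φ (zc x.2)‖ + x.1 < 1 ∧ ‖ψ (φ (zc x.2) + ((e * x.1 : ℝ) : ℂ) * m x.2) - zc x.2‖ < 1/100 ∧
      0 < e * (g (φ (zc x.2) + ((e * x.1 : ℝ) : ℂ) * m x.2) 0 - g (φ (zc x.2)) 0) := by
  have hy1 : φ (zc c₀) ∈ Metric.ball (0 : ℂ) 1 := h.φm _ (zc_mem c₀)
  have hφz : ContinuousAt (fun x : ℝ × Circle => φ (zc x.2)) (0, c₀) :=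
    ContinuousAt.comp (f := fun x : ℝ × Circle => zc x.2)
      (h.φc.continuousAt (Metric.isOpen_ball.mem_nhds (zc_mem c₀)))
      (zc_cont.comp continuous_snd).continuousAt
  have hv : ContinuousAt (fun x : ℝ × Circle => ((e * x.1 : ℝ) : ℂ) * m x.2) (0, c₀) := by
    fun_prop
  have hw : ContinuousAt (fun x : ℝ × Circle => φ (zc x.2) + ((e * x.1 : ℝ) : ℂ) * m x.2)
      (0, c₀) := hφz.add hv
  have ev1 : ∀ᶠ x : ℝ × Circle in 𝓝 (0, c₀), ‖φ (zc x.2)‖ + x.1 < 1 := by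
    refine (hφz.norm.add continuousAt_fst).eventually (gt_mem_nhds ?_)
    simpa using hy1
  have ev2 : ∀ᶠ x : ℝ × Circle in 𝓝 (0, c₀),
      ‖ψ (φ (zc x.2) + ((e * x.1 : ℝ) : ℂ) * m x.2) - zc x.2‖ < 1/100 := by
    have h1 : ContinuousAt (fun x : ℝ × Circle =>
        ψ (φ (zc x.2) + ((e * x.1 : ℝ) : ℂ) * m x.2)) (0, c₀) := by
      refine ContinuousAt.comp (f := fun x : ℝ × Circle =>
        φ (zc x.2) + ((e * x.1 : ℝ) : ℂ) * m x.2) ?_ hw
      simp only [mul_zero, ofReal_zero, zero_mul, add_zero]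
      exact h.ψc.continuousAt (Metric.isOpen_ball.mem_nhds hy1)
    refine ((h1.sub (zc_cont.comp continuous_snd).continuousAt).norm).eventually
      (gt_mem_nhds ?_)
    simp [h.ψφ _ (zc_mem c₀)]
  -- strict differentiability
  obtain ⟨d, hd⟩ : ∃ d, d = (conj (rho g (φ (zc c₀))) * m c₀).re := ⟨_, rfl⟩
  rw [← hd] at hpos
  have hstrict : HasStrictFDerivAt g (fderiv ℝ g (φ (zc c₀))) (φ (zc c₀)) :=
    (h.gC.contDiffAt (Metric.isOpen_ball.mem_nhds hy1)).hasStrictFDerivAt (by norm_num)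
  have hs1 : ∀ᶠ p : ℂ × ℂ in 𝓝 (φ (zc c₀), φ (zc c₀)),
      ‖g p.1 - g p.2 - fderiv ℝ g (φ (zc c₀)) (p.1 - p.2)‖ ≤ (d / 4) * ‖p.1 - p.2‖ :=
    hstrict.isLittleO.def (by positivity)
  have ht : Tendsto (fun x : ℝ × Circle =>
      (φ (zc x.2) + ((e * x.1 : ℝ) : ℂ) * m x.2, φ (zc x.2))) (𝓝 (0, c₀))
      (𝓝 (φ (zc c₀), φ (zc c₀))) := by
    have := (hw.prodMk hφz).tendsto
    simpa using this
  have ev3 := ht.eventually hs1
  have ev4 : ∀ᶠ x : ℝ × Circle in 𝓝 (0, c₀), d / 2 < (conj (rho g (φ (zc c₀))) * m x.2).re := by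
    have hc : Continuous (fun x : ℝ × Circle => (conj (rho g (φ (zc c₀))) * m x.2).re) := by
      fun_prop
    refine hc.continuousAt.eventually (lt_mem_nhds ?_)
    simp only
    rw [← hd]; linarith
  filter_upwards [ev1, ev2, ev3, ev4] with x g1 g2 g3 g4 hx
  refine ⟨g1, g2, ?_⟩
  simp only [add_sub_cancel_left] at g3
  have n1 : ‖((e * x.1 : ℝ) : ℂ) * m x.2‖ = x.1 := by
    rw [norm_mul, norm_real, hm1, Real.norm_eq_abs, abs_mul, he, one_mul, mul_one, abs_of_pos hx]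
  rw [n1] at g3
  have n2 : |(g (φ (zc x.2) + ((e * x.1 : ℝ) : ℂ) * m x.2) - g (φ (zc x.2)) -
      fderiv ℝ g (φ (zc c₀)) (((e * x.1 : ℝ) : ℂ) * m x.2)) 0| ≤ d / 4 * x.1 := by
    exact le_trans (coord_le _) g3
  have n3 : (fderiv ℝ g (φ (zc c₀)) (((e * x.1 : ℝ) : ℂ) * m x.2)) 0 =
      e * x.1 * (conj (rho g (φ (zc c₀))) * m x.2).re := by
    rw [first_deriv]
    have : conj (rho g (φ (zc c₀))) * (((e * x.1 : ℝ) : ℂ) * m x.2) =
      ((e * x.1 : ℝ) : ℂ) * (conj (rho g (φ (zc c₀))) * m x.2) := by ring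
    rw [this, re_ofReal_mul]
  have n4 : (g (φ (zc x.2) + ((e * x.1 : ℝ) : ℂ) * m x.2) - g (φ (zc x.2)) -
      fderiv ℝ g (φ (zc c₀)) (((e * x.1 : ℝ) : ℂ) * m x.2)) 0 =
      g (φ (zc x.2) + ((e * x.1 : ℝ) : ℂ) * m x.2) 0 - g (φ (zc x.2)) 0 -
      e * x.1 * (conj (rho g (φ (zc c₀))) * m x.2).re := by
    rw [← n3]; rfl
  rw [n4] at n2
  have n5 := abs_le.1 n2
  have he2 : e = 1 ∨ e = -1 := by
    rcases abs_eq (by norm_num : (0 : ℝ) ≤ 1) |>.1 he with h | h
    · exact Or.inl h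
    · exact Or.inr h
  rcases he2 with he2 | he2
  · rw [he2] at n5 ⊢
    nlinarith [n5.1]
  · rw [he2] at n5 ⊢
    nlinarith [n5.2]

theorem odd_winding {θ b₀ : ℝ} (hS : Small ε θ b₀) (hθ : 0 < θ) (h : Dat g φ ψ ε) {k : ℤ}
    (hk : HasW (fun c => rho g (φ (zc c))) k) : Odd k := by
  have hy : ∀ c, φ (zc c) ∈ Metric.ball (0 : ℂ) 1 := fun c => h.φm _ (zc_mem c)
  have hφc : Continuous (fun c => φ (zc c)) := h.φc.comp_continuous zc_cont zc_mem
  have hρc : Continuous (fun c => rho g (φ (zc c))) := (rho_cont h).comp_continuous hφc hy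
  have hρ0 := rho_ne hS hθ h
  -- normalised direction
  let M : Circle → Circle := fun c => ⟨rho g (φ (zc c)) / ‖rho g (φ (zc c))‖,
    mem_sphere_zero_iff_norm.2 (by
      rw [norm_div, norm_real, norm_norm, div_self (norm_ne_zero_iff.2 (hρ0 c))])⟩
  have hMv : ∀ c, (M c : ℂ) = rho g (φ (zc c)) / ‖rho g (φ (zc c))‖ := fun c => rfl
  have hMc : Continuous M := by
    refine Continuous.subtype_mk ?_ _
    exact hρc.div₀ (continuous_ofReal.comp hρc.norm)
      (fun c => by exact_mod_cast norm_ne_zero_iff.2 (hρ0 c))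
  have hMW : HasW (fun c => (M c : ℂ)) k := by
    have h1 : HasW (fun c => (‖rho g (φ (zc c))‖ : ℂ)⁻¹) 0 := by
      refine HasW.of_log (L := fun c => -(Real.log ‖rho g (φ (zc c))‖ : ℂ)) ?_ fun c => ?_
      · exact (continuous_ofReal.comp (hρc.norm.log fun c => norm_ne_zero_iff.2 (hρ0 c))).neg
      · rw [exp_neg, ← ofReal_exp, Real.exp_log (norm_pos_iff.2 (hρ0 c))]
    have h2 := hk.mul h1
    rw [add_zero] at h2
    exact h2.congr fun c => by rw [hMv, div_eq_mul_inv]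
  obtain ⟨m, hmdef⟩ : ∃ m : Circle → ℂ, m = fun c => (M c : ℂ) := ⟨_, rfl⟩
  have hmc : Continuous m := by rw [hmdef]; fun_prop
  have hm1 : ∀ c, ‖m c‖ = 1 := fun c => by rw [hmdef]; exact (M c).norm_coe
  have hpos : ∀ c, 0 < (conj (rho g (φ (zc c))) * m c).re := by
    intro c
    have h1 : conj (rho g (φ (zc c))) * m c = (‖rho g (φ (zc c))‖ : ℂ) := by
      rw [hmdef]
      simp only
      rw [hMv, ← mul_div_assoc, mul_comm (conj _), mul_conj, normSq_eq_norm_sq]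
      have : (‖rho g (φ (zc c))‖ : ℂ) ≠ 0 := by exact_mod_cast norm_ne_zero_iff.2 (hρ0 c)
      push_cast
      field_simp
    rw [h1, ofReal_re]; exact norm_pos_iff.2 (hρ0 c)
  have e1 : |(1 : ℝ)| = 1 := by simp
  have e2 : |(-1 : ℝ)| = 1 := by simp
  have hall : ∀ e : ℝ, |e| = 1 → ∀ᶠ s : ℝ in 𝓝 0, ∀ c ∈ (univ : Set Circle), 0 < s →
      ‖φ (zc c)‖ + s < 1 ∧ ‖ψ (φ (zc c) + ((e * s : ℝ) : ℂ) * m c) - zc c‖ < 1/100 ∧
      0 < e * (g (φ (zc c) + ((e * s : ℝ) : ℂ) * m c) 0 - g (φ (zc c)) 0) := fun e he =>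
    isCompact_univ.eventually_forall_of_forall_eventually fun c _ =>
      local_unif h hmc hm1 c (hpos c) he
  obtain ⟨δ, hδ, hδb⟩ := Metric.eventually_nhds_iff_ball.1 ((hall 1 e1).and (hall (-1) e2))
  obtain ⟨s, hs0, hsδ⟩ : ∃ s : ℝ, 0 < s ∧ s ∈ Metric.ball (0 : ℝ) δ := by
    refine ⟨δ / 2, by positivity, ?_⟩
    rw [mem_ball_zero_iff, Real.norm_eq_abs, abs_of_pos (by positivity)]; linarith
  have hp := fun c => (hδb s hsδ).1 c (mem_univ c) hs0
  have hq := fun c => (hδb s hsδ).2 c (mem_univ c) hs0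
  -- membership
  have hmemt : ∀ c, ∀ t : ℝ, 0 ≤ t → t ≤ 1 → ∀ e : ℝ, |e| = 1 →
      (t : ℂ) * φ (zc c) + ((e * s : ℝ) : ℂ) * m c ∈ Metric.ball (0 : ℂ) 1 := by
    intro c t ht0 ht1 e he
    rw [mem_ball_zero_iff]
    calc ‖(t : ℂ) * φ (zc c) + ((e * s : ℝ) : ℂ) * m c‖
        ≤ ‖(t : ℂ) * φ (zc c)‖ + ‖((e * s : ℝ) : ℂ) * m c‖ := norm_add_le _ _
      _ = t * ‖φ (zc c)‖ + s := by
          rw [norm_mul, norm_real, norm_mul, norm_real, hm1, Real.norm_eq_abs,
            Real.norm_eq_abs, abs_mul, he, one_mul, mul_one, abs_of_pos hs0, abs_of_nonneg ht0]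
      _ ≤ 1 * ‖φ (zc c)‖ + s := by
          have := mul_le_mul_of_nonneg_right ht1 (norm_nonneg (φ (zc c)))
          linarith
      _ < 1 := by rw [one_mul]; exact (hp c).1
  have hmem : ∀ c, ∀ e : ℝ, |e| = 1 →
      φ (zc c) + ((e * s : ℝ) : ℂ) * m c ∈ Metric.ball (0 : ℂ) 1 := by
    intro c e he
    have := hmemt c 1 zero_le_one le_rfl e he
    simpa using this
  obtain ⟨p, hpd⟩ : ∃ p : Circle → ℂ, p = fun c => ψ (φ (zc c) + ((1 * s : ℝ) : ℂ) * m c) :=
    ⟨_, rfl⟩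
  obtain ⟨q, hqd⟩ : ∃ q : Circle → ℂ, q = fun c => ψ (φ (zc c) + ((-1 * s : ℝ) : ℂ) * m c) :=
    ⟨_, rfl⟩
  have hpc : Continuous p := by
    rw [hpd]
    exact h.ψc.comp_continuous (hφc.add (continuous_const.mul hmc)) fun c => hmem c 1 e1
  have hqc : Continuous q := by
    rw [hqd]
    exact h.ψc.comp_continuous (hφc.add (continuous_const.mul hmc)) fun c => hmem c (-1) e2
  have hE : ∀ x : E3, ⟪emb 1 0, x⟫_ℝ = x 0 := by
    intro x; rw [inner_emb]; simp
  obtain ⟨A, hA, hAe⟩ := lift_local hS h.hyp (T := Circle) (z₀ := zc) zc_cont zc_norm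
    (l := 1) (by simp) (ν := fun _ => emb 1 0) continuous_const
    (fun c => by rw [sub_self, norm_zero]; exact hθ.le) (p := p) (q := q) hpc hqc
    (fun c => by rw [hpd]; exact (hp c).2.1) (fun c => by rw [hqd]; exact (hq c).2.1)
    (fun c => by
      have h1 := (hp c).2.2
      simp only [hE, hpd, h.φψ _ (hmem c 1 e1)]
      linarith)
    (fun c => by
      have h1 := (hq c).2.2
      simp only [hE, hqd, h.φψ _ (hmem c (-1) e2)]
      linarith)
  have hW0 : HasW (fun c => p c ^ 2 - q c ^ 2) 0 :=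
    HasW.of_log hA fun c => by rw [hAe, div_one]
  -- p + q has winding one
  have hW1 : HasW (fun c => p c + q c) 1 := by
    have h1 : HasW (fun c : Circle => (3/2 : ℂ) * (c : ℂ)) 1 := by
      have h2 : HasW (fun _ : Circle => (3/2 : ℂ)) 0 :=
        HasW.of_log (L := fun _ => log (3/2)) continuous_const
          (fun _ => by rw [exp_log (by norm_num)])
      have h3 := h2.mul hasW_id
      rwa [zero_add] at h3
    refine h1.close (by fun_prop) (by fun_prop) fun c => ?_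
    have h2 : ‖(3/2 : ℂ) * (c : ℂ)‖ = 3/2 := by
      have h1 : ‖(c : ℂ)‖ = 1 := c.norm_coe
      rw [norm_mul, h1]; simp
    rw [h2]
    have h3 : p c + q c - (3/2 : ℂ) * (c : ℂ) = (p c - zc c) + (q c - zc c) := by
      rw [zc]; push_cast; ring
    rw [h3]
    have h4 : ‖p c - zc c‖ < 1/100 := by rw [hpd]; exact (hp c).2.1
    have h5 : ‖q c - zc c‖ < 1/100 := by rw [hqd]; exact (hq c).2.1
    linarith [norm_add_le (p c - zc c) (q c - zc c)]
  have hpq : ∀ c, p c - q c ≠ 0 := by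
    intro c h0
    have h1 := hW0.ne_zero c
    apply h1
    linear_combination (p c + q c) * h0
  obtain ⟨k₁, hk₁⟩ := exists_hasW (hpc.sub hqc) hpq
  have hk₁' : k₁ = -1 := by
    have h1 := (hk₁.mul hW1).congr (F' := fun c => p c ^ 2 - q c ^ 2) (fun c => by
      show p c ^ 2 - q c ^ 2 = (p c - q c) * (p c + q c); ring)
    have := h1.unique hW0
    linarith
  -- homotopy of the base point to the centre
  have hinj : ∀ x ∈ Metric.ball (0 : ℂ) 1, ∀ y ∈ Metric.ball (0 : ℂ) 1, ψ x = ψ y → x = y := by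
    intro x hx y hy hxy
    rw [← h.φψ x hx, ← h.φψ y hy, hxy]
  have hne2 : ∀ c : Circle, ∀ w : ℂ, w + ((1 * s : ℝ) : ℂ) * m c ≠
      w + ((-1 * s : ℝ) : ℂ) * m c := by
    intro c w h0
    have h1 : ((2 * s : ℝ) : ℂ) * m c = 0 := by
      push_cast at h0 ⊢; linear_combination h0
    rcases mul_eq_zero.1 h1 with h2 | h2
    · have : (2 * s : ℝ) = 0 := by exact_mod_cast h2
      linarith
    · have := hm1 c
      rw [h2, norm_zero] at this; norm_num at this
  have hH := HasW.homotopy (H := fun x : unitInterval × Circle =>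
      ψ (((1 - (x.1 : ℝ) : ℝ) : ℂ) * φ (zc x.2) + ((1 * s : ℝ) : ℂ) * m x.2) -
      ψ (((1 - (x.1 : ℝ) : ℝ) : ℂ) * φ (zc x.2) + ((-1 * s : ℝ) : ℂ) * m x.2))
    (by
      have c1 : Continuous (fun x : unitInterval × Circle =>
          ((1 - (x.1 : ℝ) : ℝ) : ℂ) * φ (zc x.2)) :=
        Continuous.mul (by fun_prop) (hφc.comp continuous_snd)
      have c2 : Continuous (fun x : unitInterval × Circle => m x.2) := hmc.comp continuous_snd
      refine Continuous.sub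
        (h.ψc.comp_continuous (c1.add (continuous_const.mul c2)) fun x => ?_)
        (h.ψc.comp_continuous (c1.add (continuous_const.mul c2)) fun x => ?_)
      · exact hmemt x.2 _ (by linarith [x.1.2.2]) (by linarith [x.1.2.1]) 1 e1
      · exact hmemt x.2 _ (by linarith [x.1.2.2]) (by linarith [x.1.2.1]) (-1) e2)
    (fun x h0 => by
      have h1 := hinj _ (hmemt x.2 _ (by linarith [x.1.2.2]) (by linarith [x.1.2.1]) 1 e1)
        _ (hmemt x.2 _ (by linarith [x.1.2.2]) (by linarith [x.1.2.1]) (-1) e2)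
        (sub_eq_zero.1 h0)
      exact hne2 _ _ h1)
    (n := k₁) (hk₁.congr fun c => by
      show _ = p c - q c
      rw [hpd, hqd]
      simp)
  simp only [Set.Icc.coe_one, sub_self, ofReal_zero, zero_mul, zero_add] at hH
  -- the odd map χ
  have hsb : ∀ x : Circle, ∀ e : ℝ, |e| = 1 → ((e * s : ℝ) : ℂ) * (x : ℂ) ∈
      Metric.ball (0 : ℂ) 1 := by
    intro x e he
    rw [mem_ball_zero_iff, norm_mul, norm_real, Real.norm_eq_abs, abs_mul, he, one_mul,
      abs_of_pos hs0]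
    simp only [Circle.norm_coe, mul_one]
    have := (hp x).1
    linarith [norm_nonneg (φ (zc x))]
  obtain ⟨χ, hχ⟩ : ∃ χ : Circle → ℂ, χ = fun x : Circle => ψ (((1 * s : ℝ) : ℂ) * (x : ℂ)) -
    ψ (((-1 * s : ℝ) : ℂ) * (x : ℂ)) := ⟨_, rfl⟩
  have hχc : Continuous χ := by
    rw [hχ]
    exact Continuous.sub (h.ψc.comp_continuous (by fun_prop) fun x => hsb x 1 e1)
      (h.ψc.comp_continuous (by fun_prop) fun x => hsb x (-1) e2)
  have hχ0 : ∀ x, χ x ≠ 0 := by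
    intro x h0
    rw [hχ] at h0
    have h1 := hinj _ (hsb x 1 e1) _ (hsb x (-1) e2) (sub_eq_zero.1 h0)
    have h2 : ((2 * s : ℝ) : ℂ) * (x : ℂ) = 0 := by
      push_cast at h1 ⊢; linear_combination h1
    rcases mul_eq_zero.1 h2 with h3 | h3
    · have : (2 * s : ℝ) = 0 := by exact_mod_cast h3
      linarith
    · exact x.coe_ne_zero h3
  obtain ⟨k₂, hk₂⟩ := exists_hasW hχc hχ0
  have hcomp := hk₂.comp hMc hMW
  have hfin := hcomp.congr (F' := fun c => ψ (((1 * s : ℝ) : ℂ) * m c) -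
    ψ (((-1 * s : ℝ) : ℂ) * m c)) (fun c => by rw [hχ, hmdef])
  have hlast := hfin.unique hH
  rw [hk₁'] at hlast
  have : Odd (k * k₂) := by rw [hlast]; decide
  exact (Int.odd_mul.1 this).1

end Saddle486
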