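import Mathlib
import Pool.Agent.Helper486.Saddle.Odd

/-! The winding number of the horizontal gradient is even; contradiction. -/

open Complex Set Topology Filter ComplexConjugate
open scoped InnerProductSpace

namespace Saddle486

variable {g : ℂ → E3} {φ ψ : ℂ → ℂ} {ε : ℝ}

/-- a null frame -/
noncomputable def rr (g : ℂ → E3) (i : Fin 3) (y : ℂ) : ℂ :=
  ((Real.sqrt (gram g y) * da g y i : ℝ) : ℂ) +
    ((‖da g y‖ ^ 2 * db g y i - ⟪da g y, db g y⟫_ℝ * da g y i : ℝ) : ℂ) * I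

theorem rr_null (h : Dat g φ ψ ε) {y : ℂ} (hy : y ∈ Metric.ball (0 : ℂ) 1) :
    rr g 0 y ^ 2 + rr g 1 y ^ 2 + rr g 2 y ^ 2 = 0 := by
  have hg := gram_pos h hy
  have hs : Real.sqrt (gram g y) ^ 2 = gram g y := Real.sq_sqrt hg.le
  have hg2 : gram g y = ‖da g y‖ ^ 2 * ‖db g y‖ ^ 2 - ⟪da g y, db g y⟫_ℝ ^ 2 := rfl
  obtain ⟨r, hr⟩ : ∃ r, r = Real.sqrt (gram g y) := ⟨_, rfl⟩
  rw [← hr, hg2] at hs
  obtain ⟨P, hP⟩ : ∃ P, P = ‖da g y‖ ^ 2 := ⟨_, rfl⟩
  obtain ⟨Q, hQ⟩ : ∃ Q, Q = ‖db g y‖ ^ 2 := ⟨_, rfl⟩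
  obtain ⟨S, hS⟩ : ∃ S, S = ⟪da g y, db g y⟫_ℝ := ⟨_, rfl⟩
  have hP' := hP
  have hQ' := hQ
  have hS' := hS
  rw [normsq3] at hP' hQ'
  rw [inner3] at hS'
  simp only [rr]
  rw [← hP, ← hQ, ← hS] at hs
  rw [← hr, ← hP, ← hS]
  apply Complex.ext
  · simp only [sq, add_re, mul_re, add_im, mul_im, ofReal_re, ofReal_im, I_re, I_im, zero_re]
    linear_combination P * hs - (r ^ 2 - S ^ 2) * hP' + P ^ 2 * hQ' - 2 * P * S * hS'
  · simp only [sq, add_re, mul_re, add_im, mul_im, ofReal_re, ofReal_im, I_re, I_im, zero_im]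
    linear_combination -2 * r * P * hS' + 2 * r * S * hP'

theorem rr_re (i : Fin 3) (y : ℂ) : (rr g i y).re = Real.sqrt (gram g y) * da g y i := by
  simp only [rr, add_re, mul_re, ofReal_re, ofReal_im, I_re, I_im]; ring

theorem rr_im (i : Fin 3) (y : ℂ) : (rr g i y).im =
    ‖da g y‖ ^ 2 * db g y i - ⟪da g y, db g y⟫_ℝ * da g y i := by
  simp only [rr, add_im, mul_im, ofReal_re, ofReal_im, I_re, I_im]; ring

theorem rho_re (y : ℂ) : (rho g y).re = da g y 0 := by
  simp [rho]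

theorem rho_im (y : ℂ) : (rho g y).im = db g y 0 := by
  simp [rho]

/-- the frame is not zero -/
theorem rr_ne (h : Dat g φ ψ ε) {y : ℂ} (hy : y ∈ Metric.ball (0 : ℂ) 1) :
    rr g 0 y + I * rr g 1 y ≠ 0 ∨ rr g 0 y - I * rr g 1 y ≠ 0 := by
  by_contra hcon
  push Not at hcon
  obtain ⟨h1, h2⟩ := hcon
  have h3 : rr g 0 y = 0 := by linear_combination (h1 + h2) / 2
  have h4 : rr g 1 y = 0 := by
    have : I * rr g 1 y = 0 := by linear_combination (h1 - h2) / 2
    exact (mul_eq_zero.1 this).resolve_left I_ne_zero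
  have h5 : rr g 2 y = 0 := by
    have := rr_null h hy
    rw [h3, h4] at this
    have h6 : rr g 2 y ^ 2 = 0 := by linear_combination this
    exact pow_eq_zero_iff two_ne_zero |>.1 h6
  have hg := gram_pos h hy
  have hr : 0 < Real.sqrt (gram g y) := Real.sqrt_pos.2 hg
  have key : ∀ i, rr g i y = 0 → da g y i = 0 := by
    intro i hi
    have := congr_arg Complex.re hi
    rw [rr_re, zero_re] at this
    rcases mul_eq_zero.1 this with h | h
    · exact absurd h hr.ne'
    · exact h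
  have k0 := key 0 h3
  have k1 := key 1 h4
  have k2 := key 2 h5
  have : ‖da g y‖ ^ 2 = 0 := by rw [normsq3, k0, k1, k2]; ring
  unfold gram at hg
  rw [this] at hg
  nlinarith [sq_nonneg ⟪da g y, db g y⟫_ℝ]

theorem rr_cont (h : Dat g φ ψ ε) (i : Fin 3) : ContinuousOn (rr g i) (Metric.ball 0 1) := by
  have h1 := coord_cont (da_cont h) i
  have h2 := coord_cont (db_cont h) i
  have h3 : ContinuousOn (fun y => ‖da g y‖ ^ 2) (Metric.ball (0 : ℂ) 1) :=
    (da_cont h).norm.pow 2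
  have h4 : ContinuousOn (fun y => ‖db g y‖ ^ 2) (Metric.ball (0 : ℂ) 1) :=
    (db_cont h).norm.pow 2
  have h5 : ContinuousOn (fun y => ⟪da g y, db g y⟫_ℝ) (Metric.ball (0 : ℂ) 1) :=
    (da_cont h).inner (𝕜 := ℝ) (db_cont h)
  have h6 : ContinuousOn (fun y => Real.sqrt (gram g y)) (Metric.ball (0 : ℂ) 1) :=
    Real.continuous_sqrt.comp_continuousOn ((h3.mul h4).sub (h5.pow 2))
  exact (continuous_ofReal.comp_continuousOn (h6.mul h1)).add
    ((continuous_ofReal.comp_continuousOn ((h3.mul h2).sub (h5.mul h1))).mul continuousOn_const)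

theorem rr_norm_ne {θ b₀ : ℝ} (hS : Small ε θ b₀) (hθ : 0 < θ) (h : Dat g φ ψ ε) (c : Circle) :
    ‖rr g 0 (φ (zc c)) + I * rr g 1 (φ (zc c))‖ ≠ ‖rr g 0 (φ (zc c)) - I * rr g 1 (φ (zc c))‖ := by
  intro heq
  have hy := h.φm _ (zc_mem c)
  have hn := n3_ne_zero hS hθ h (zc_norm c)
  have hg := gram_pos h hy
  obtain ⟨y, hyd⟩ : ∃ y, y = φ (zc c) := ⟨_, rfl⟩
  rw [← hyd] at heq hy hn hg
  have hr : 0 < Real.sqrt (gram g y) := Real.sqrt_pos.2 hg
  have hP : 0 < ‖da g y‖ ^ 2 := by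
    have : da g y ≠ 0 := by
      intro h0
      unfold gram at hg
      rw [h0] at hg
      simp at hg
    have := norm_pos_iff.2 this
    positivity
  have h1 : ‖rr g 0 y + I * rr g 1 y‖ ^ 2 = ‖rr g 0 y - I * rr g 1 y‖ ^ 2 := by rw [heq]
  rw [← normSq_eq_norm_sq, ← normSq_eq_norm_sq, normSq_apply, normSq_apply] at h1
  simp only [rr, add_re, mul_re, add_im, mul_im, sub_re, sub_im, ofReal_re, ofReal_im, I_re,
    I_im] at h1
  have h2 : Real.sqrt (gram g y) * ‖da g y‖ ^ 2 * n3 g y = 0 := by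
    unfold n3
    linear_combination (-1/4) * h1
  rcases mul_eq_zero.1 h2 with h3 | h3
  · rcases mul_eq_zero.1 h3 with h4 | h4
    · exact hr.ne' h4
    · exact hP.ne' h4
  · exact hn h3

/-- the final contradiction -/
theorem core_false {θ b₀ : ℝ} (hS : Small ε θ b₀) (hθ : 0 < θ) (h : Dat g φ ψ ε) : False := by
  have hy : ∀ c, φ (zc c) ∈ Metric.ball (0 : ℂ) 1 := fun c => h.φm _ (zc_mem c)
  have hφc : Continuous (fun c => φ (zc c)) := h.φc.comp_continuous zc_cont zc_mem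
  have hρc : Continuous (fun c => rho g (φ (zc c))) := (rho_cont h).comp_continuous hφc hy
  have hρ0 := rho_ne hS hθ h
  obtain ⟨k, hk⟩ := exists_hasW hρc hρ0
  have hodd := odd_winding hS hθ h hk
  have hr0 := rr_cont h 0
  have hr1 := rr_cont h 1
  have hr2 := rr_cont h 2
  have hs : HasW (fun c => (rr g 0 (φ (zc c)) + I * rr g 1 (φ (zc c))) +
      (rr g 0 (φ (zc c)) - I * rr g 1 (φ (zc c)))) k := by
    have c0 : Continuous (fun c => rr g 0 (φ (zc c))) := hr0.comp_continuous hφc hy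
    have c1 : Continuous (fun c => rr g 1 (φ (zc c))) := hr1.comp_continuous hφc hy
    refine hk.segment hρc (by fun_prop) fun c t ht0 ht1 h0 => ?_
    have e : (rr g 0 (φ (zc c)) + I * rr g 1 (φ (zc c))) +
      (rr g 0 (φ (zc c)) - I * rr g 1 (φ (zc c))) = 2 * rr g 0 (φ (zc c)) := by ring
    rw [e] at h0
    have hn := n3_ne_zero hS hθ h (zc_norm c)
    have hg := gram_pos h (hy c)
    obtain ⟨y, hyd⟩ : ∃ y, y = φ (zc c) := ⟨_, rfl⟩
    rw [← hyd] at h0 hn hg
    have hr : 0 < Real.sqrt (gram g y) := Real.sqrt_pos.2 hg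
    have hP : 0 < ‖da g y‖ ^ 2 := by
      have : da g y ≠ 0 := by
        intro h0
        unfold gram at hg
        rw [h0] at hg
        simp at hg
      have := norm_pos_iff.2 this
      positivity
    have hre := congr_arg Complex.re h0
    have him := congr_arg Complex.im h0
    have e2 : (2 : ℂ) * rr g 0 y = ((2 : ℝ) : ℂ) * rr g 0 y := by norm_num
    rw [e2] at hre him
    rw [add_re, re_ofReal_mul, re_ofReal_mul, re_ofReal_mul, rho_re, rr_re, zero_re] at hre
    rw [add_im, im_ofReal_mul, im_ofReal_mul, im_ofReal_mul, rho_im, rr_im, zero_im] at him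
    have ha : da g y 0 = 0 := by
      have h1 : ((1 - t) + t * (2 * Real.sqrt (gram g y))) * da g y 0 = 0 := by
        linear_combination hre
      refine (mul_eq_zero.1 h1).resolve_left ?_
      rcases eq_or_lt_of_le ht0 with h2 | h2
      · rw [← h2]; norm_num
      · have : 0 < t * (2 * Real.sqrt (gram g y)) := by positivity
        linarith
    rw [ha] at him
    have hb : db g y 0 = 0 := by
      have h1 : ((1 - t) + t * (2 * ‖da g y‖ ^ 2)) * db g y 0 = 0 := by
        linear_combination him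
      refine (mul_eq_zero.1 h1).resolve_left ?_
      rcases eq_or_lt_of_le ht0 with h2 | h2
      · rw [← h2]; norm_num
      · have : 0 < t * (2 * ‖da g y‖ ^ 2) := by positivity
        linarith
    apply hn
    rw [n3, ha, hb]; ring
  have heven := parity (W := fun y => rr g 0 y + I * rr g 1 y)
    (V := fun y => rr g 0 y - I * rr g 1 y) (Y := fun y => I * rr g 2 y)
    (hr0.add (continuousOn_const.mul hr1)) (hr0.sub (continuousOn_const.mul hr1))
    (continuousOn_const.mul hr2)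
    (fun y hy => by
      have := rr_null h hy
      have h2 : (I : ℂ) ^ 2 = -1 := I_sq
      linear_combination this - (rr g 1 y ^ 2 + rr g 2 y ^ 2) * h2)
    (fun y hy => rr_ne h hy) hφc hy (fun c => rr_norm_ne hS hθ h c) hs
  exact (Int.not_odd_iff_even.2 heven) hodd

end Saddle486
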