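import Mathlib
import Pool.Agent.Helper486.Saddle.Defs
import Pool.Agent.Helper486.Saddle.Even

/-! Final assembly. -/

open Complex Set Topology Filter ComplexConjugate
open scoped InnerProductSpace ENNReal

namespace Saddle486

/-! ### The surface `ff` is saddle -/

theorem ff_saddle : IsSaddle discBoundary (fun x : Disc => ff x) := by
  refine ⟨continuous_ff.comp continuous_subtype_val, ?_⟩
  rintro v hv c U ⟨hU, hne, -, hbd, hpos, hfr⟩
  obtain ⟨O, hO, hOU⟩ := isOpen_induced_iff.1 hU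
  have hlt : ∀ x ∈ closure U, ‖(x : ℂ)‖ < 1 := by
    intro x hx
    have h1 : ‖(x : ℂ)‖ ≤ 1 := mem_closedBall_zero_iff.1 x.2
    refine lt_of_le_of_ne h1 fun h => ?_
    exact Set.disjoint_left.1 hbd hx h
  obtain ⟨V, hV⟩ : ∃ V : Set ℂ, V = (fun x : Disc => (x : ℂ)) '' U := ⟨_, rfl⟩
  have hVe : V = O ∩ Metric.ball 0 1 := by
    ext z
    constructor
    · intro hz
      rw [hV] at hz
      obtain ⟨x, hx, rfl⟩ := hz
      refine ⟨?_, mem_ball_zero_iff.2 (hlt x (subset_closure hx))⟩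
      rw [← hOU] at hx; exact hx
    · rintro ⟨hzO, hz1⟩
      rw [hV]
      refine ⟨⟨z, mem_closedBall_zero_iff.2 (mem_ball_zero_iff.1 hz1).le⟩, ?_, rfl⟩
      rw [← hOU]; exact hzO
  have hVo : IsOpen V := by rw [hVe]; exact hO.inter Metric.isOpen_ball
  have hVb : Bornology.IsBounded V := by
    rw [hVe]; exact Metric.isBounded_ball.subset inter_subset_right
  -- the polynomial
  let P : ℂ → ℂ := fun z => (v 0 : ℂ) * z ^ 2 - I * (v 1 : ℂ) * z ^ 2 + (v 2 : ℂ) * (z - I * z ^ 3)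
  have hP : ∀ z, (P z).re = ⟪v, ff z⟫_ℝ := by
    intro z
    rw [real_inner_comm, ff, inner_emb]
    simp only [P, hh, add_re, sub_re, mul_re, mul_im, ofReal_re, ofReal_im, I_re, I_im, sub_im]
    ring
  have hd : DiffContOnCl ℂ (fun z => exp (P z)) V := by
    have : Differentiable ℂ (fun z => exp (P z)) := by
      simp only [P]; fun_prop
    exact this.diffContOnCl
  obtain ⟨x, hx⟩ := hne
  have hxV : (x : ℂ) ∈ V := by rw [hV]; exact ⟨x, hx, rfl⟩
  have hle := Complex.norm_le_of_forall_mem_frontier_norm_le hVb hd (C := Real.exp c)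
    (fun z hz => by
      rw [norm_exp, hP]
      rw [hVo.frontier_eq] at hz
      obtain ⟨hzc, hzV⟩ := hz
      have hz1 : z ∈ Metric.closedBall (0 : ℂ) 1 := by
        have : V ⊆ Metric.closedBall (0 : ℂ) 1 := by
          rw [hVe]; exact inter_subset_right.trans Metric.ball_subset_closedBall
        exact closure_minimal this Metric.isClosed_closedBall hzc
      have hy : (⟨z, hz1⟩ : Disc) ∈ closure U := by
        rw [closure_subtype, ← hV]; exact hzc
      have hy2 : (⟨z, hz1⟩ : Disc) ∉ U := by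
        intro h; apply hzV; rw [hV]; exact ⟨_, h, rfl⟩
      have := hfr _ ⟨hy, hy2⟩
      rw [this]) (subset_closure hxV)
  rw [norm_exp, hP, Real.exp_le_exp] at hle
  exact absurd (hpos x hx) (not_lt.2 hle)

/-! ### Immersed saddle surfaces satisfy the strict maximum principle -/

theorem maxP_of_saddle {g : Disc → E3} (hs : IsSaddle discBoundary g) {G : ℂ → E3}
    (hgG : ∀ x : Disc, g x = G x) (hG : ContDiffOn ℝ 2 G (Metric.ball 0 1))
    (him : ∀ z ∈ Metric.ball (0 : ℂ) 1, Function.Injective (fderiv ℝ G z)) :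
    MaxP G (Metric.ball 0 1) := by
  intro N η hη y₀ hy₀ hmax
  have hy1 : ‖y₀‖ < 1 := mem_ball_zero_iff.1 hy₀
  have hdiff : HasFDerivAt G (fderiv ℝ G y₀) y₀ :=
    ((hG.differentiableOn (by norm_num)).differentiableAt
      (Metric.isOpen_ball.mem_nhds hy₀)).hasFDerivAt
  have hne : ∀ᶠ y in 𝓝[≠] y₀, G y ≠ G y₀ := by
    refine hdiff.eventually_ne ?_
    obtain ⟨K, hK⟩ := (fderiv ℝ G y₀).toLinearMap.exists_antilipschitzWith
      (LinearMap.ker_eq_bot.2 (him y₀ hy₀))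
    exact ⟨K, hK.2⟩
  obtain ⟨N', hN'⟩ : ∃ N' : E3, N' = N + (2 * η) • G y₀ := ⟨_, rfl⟩
  have hstrict : ∀ᶠ y in 𝓝[≠] y₀, ⟪N', G y⟫_ℝ < ⟪N', G y₀⟫_ℝ := by
    filter_upwards [hne, nhdsWithin_le_nhds hmax] with y h1 h2
    have h3 : 0 < ‖G y - G y₀‖ ^ 2 := by
      have := norm_pos_iff.2 (sub_ne_zero.2 h1); positivity
    have h4 : ‖G y - G y₀‖ ^ 2 = ‖G y‖ ^ 2 - 2 * ⟪G y, G y₀⟫_ℝ + ‖G y₀‖ ^ 2 :=
      norm_sub_sq_real _ _
    have h5 : ⟪G y₀, G y₀⟫_ℝ = ‖G y₀‖ ^ 2 := real_inner_self_eq_norm_sq _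
    rw [hN', inner_add_left, inner_add_left, inner_smul_left, inner_smul_left,
      RCLike.conj_to_real, h5, real_inner_comm (G y) (G y₀)]
    nlinarith
  obtain ⟨r, hr, hrb⟩ : ∃ r > 0, ∀ y, y ≠ y₀ → ‖y - y₀‖ ≤ r → ⟪N', G y⟫_ℝ < ⟪N', G y₀⟫_ℝ := by
    rw [eventually_nhdsWithin_iff, Metric.eventually_nhds_iff] at hstrict
    obtain ⟨r, hr, hrb⟩ := hstrict
    refine ⟨r / 2, by positivity, fun y hy1 hy2 => hrb ?_ hy1⟩
    rw [dist_eq_norm]; linarith
  obtain ⟨δ, hδ⟩ : ∃ δ, δ = min r ((1 - ‖y₀‖) / 2) := ⟨_, rfl⟩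
  have hδp : 0 < δ := by rw [hδ]; exact lt_min hr (by linarith)
  have hδr : δ ≤ r := by rw [hδ]; exact min_le_left _ _
  have hδ1 : δ ≤ (1 - ‖y₀‖) / 2 := by rw [hδ]; exact min_le_right _ _
  have hin : ∀ y, ‖y - y₀‖ ≤ δ → ‖y‖ < 1 := by
    intro y hy
    have : ‖y‖ ≤ ‖y - y₀‖ + ‖y₀‖ := by
      have := norm_add_le (y - y₀) y₀
      rwa [sub_add_cancel] at this
    linarith
  -- the level
  have hsph : IsCompact (Metric.sphere y₀ δ) := isCompact_sphere _ _
  have hsne : (Metric.sphere y₀ δ).Nonempty := by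
    rw [NormedSpace.sphere_nonempty]; exact hδp.le
  have hGc : ContinuousOn (fun y => ⟪N', G y⟫_ℝ) (Metric.sphere y₀ δ) := by
    refine (continuousOn_const (c := N')).inner (𝕜 := ℝ) (hG.continuousOn.mono ?_)
    intro y hy
    rw [mem_ball_zero_iff]
    exact hin y (by rw [mem_sphere_iff_norm] at hy; exact hy.le)
  obtain ⟨y₁, hy₁, hy₁m⟩ := hsph.exists_isMaxOn hsne hGc
  obtain ⟨c, hc⟩ : ∃ c, c = ⟪N', G y₁⟫_ℝ := ⟨_, rfl⟩
  have hcl : c < ⟪N', G y₀⟫_ℝ := by
    rw [hc]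
    rw [mem_sphere_iff_norm] at hy₁
    refine hrb y₁ ?_ (hy₁.le.trans hδr)
    rintro rfl
    rw [sub_self, norm_zero] at hy₁
    linarith
  have hN0 : N' ≠ 0 := by
    rintro h
    rw [hc, h] at hcl
    simp at hcl
  let Y₀ : Disc := ⟨y₀, mem_closedBall_zero_iff.2 hy1.le⟩
  have hgc : Continuous (fun x : Disc => ⟪N', g x⟫_ℝ) := continuous_const.inner hs.1
  have hnc : Continuous (fun x : Disc => ‖(x : ℂ) - y₀‖) := by fun_prop
  have hclo : closure {x : Disc | ‖(x : ℂ) - y₀‖ < δ ∧ c < ⟪N', g x⟫_ℝ} ⊆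
      {x : Disc | ‖(x : ℂ) - y₀‖ ≤ δ ∧ c ≤ ⟪N', g x⟫_ℝ} := by
    refine closure_minimal (fun x hx => ⟨hx.1.le, hx.2.le⟩) ?_
    exact (isClosed_le hnc continuous_const).inter (isClosed_le continuous_const hgc)
  refine hs.2 N' hN0 c {x : Disc | ‖(x : ℂ) - y₀‖ < δ ∧ c < ⟪N', g x⟫_ℝ}
    ⟨?_, ?_, ?_, ?_, ?_, ?_⟩
  · exact (isOpen_lt hnc continuous_const).inter (isOpen_lt continuous_const hgc)
  · refine ⟨Y₀, ?_, ?_⟩
    · show ‖y₀ - y₀‖ < δ
      rw [sub_self, norm_zero]; exact hδp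
    · show c < ⟪N', g Y₀⟫_ℝ
      rw [hgG]; exact hcl
  · have : CompactSpace Disc := isCompact_iff_compactSpace.1 (isCompact_closedBall _ _)
    exact isClosed_closure.isCompact
  · rw [Set.disjoint_left]
    intro x hx hb
    have h1 := hin x (hclo hx).1
    have h2 : ‖(x : ℂ)‖ = 1 := hb
    linarith
  · intro x hx; exact hx.2
  · rintro x ⟨hx, hxU⟩
    obtain ⟨h1, h2⟩ := hclo hx
    refine le_antisymm ?_ h2
    rcases eq_or_lt_of_le h1 with h3 | h3
    · have h4 : (x : ℂ) ∈ Metric.sphere y₀ δ := by rw [mem_sphere_iff_norm]; exact h3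
      have h5 : ⟪N', G x⟫_ℝ ≤ ⟪N', G y₁⟫_ℝ := hy₁m h4
      rw [hgG, hc]; exact h5
    · by_contra h4
      rw [not_le] at h4
      exact hxU ⟨h3, h4⟩

/-! ### Homeomorphisms of the disc preserve the interior -/

/-- extension of a self map of the disc to the plane -/
noncomputable def proj (z : ℂ) : Disc := ⟨z / (max 1 ‖z‖ : ℝ), by
  rw [mem_closedBall_zero_iff, norm_div, norm_real, Real.norm_eq_abs,
    abs_of_pos (lt_of_lt_of_le one_pos (le_max_left _ _))]
  exact div_le_one_of_le₀ (le_max_right _ _) (le_trans zero_le_one (le_max_left _ _))⟩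

theorem proj_cont : Continuous proj := by
  refine Continuous.subtype_mk ?_ _
  refine continuous_id.div₀ (continuous_ofReal.comp (continuous_const.max continuous_norm))
    fun z => ?_
  have : (0 : ℝ) < max 1 ‖z‖ := lt_of_lt_of_le one_pos (le_max_left _ _)
  exact_mod_cast this.ne'

theorem proj_of_le {z : ℂ} (hz : ‖z‖ ≤ 1) : (proj z : ℂ) = z := by
  have : max 1 ‖z‖ = 1 := max_eq_left hz
  simp [proj, this]

theorem proj_coe (x : Disc) : proj x = x :=
  Subtype.ext (proj_of_le (mem_closedBall_zero_iff.1 x.2))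

theorem homeo_interior (h : Disc ≃ₜ Disc) {x : Disc} (hx : ‖(x : ℂ)‖ < 1) :
    ‖(h x : ℂ)‖ < 1 := by
  have hle : ‖(h x : ℂ)‖ ≤ 1 := mem_closedBall_zero_iff.1 (h x).2
  refine lt_of_le_of_ne hle fun heq => ?_
  obtain ⟨δ, hδ⟩ : ∃ δ, δ = (1 - ‖(x : ℂ)‖) / 2 := ⟨_, rfl⟩
  have hδp : 0 < δ := by rw [hδ]; linarith
  -- the small loop
  obtain ⟨γ, hγ⟩ : ∃ γ : Circle → Disc, γ = fun c : Circle => proj (x + (δ : ℂ) * (c : ℂ)) := ⟨_, rfl⟩
  have hγc : Continuous γ := by rw [hγ]; exact proj_cont.comp (by fun_prop)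
  have hγv : ∀ c, (γ c : ℂ) = x + (δ : ℂ) * (c : ℂ) := by
    intro c
    rw [hγ]
    refine proj_of_le ((norm_add_le _ _).trans ?_)
    have h1 : ‖(c : ℂ)‖ = 1 := c.norm_coe
    rw [norm_mul, norm_real, h1, Real.norm_eq_abs, abs_of_pos hδp]
    linarith
  have hγx : ∀ c, γ c ≠ x := by
    intro c h0
    have h1 := hγv c
    rw [h0] at h1
    have h2 : (δ : ℂ) * (c : ℂ) = 0 := by linear_combination -h1
    rcases mul_eq_zero.1 h2 with h3 | h3
    · have : δ = 0 := by exact_mod_cast h3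
      linarith
    · exact c.coe_ne_zero h3
  have hcont : Continuous (fun p : unitInterval × Circle =>
      ((h.symm (proj (((1 - (p.1 : ℝ) : ℝ) : ℂ) * (h (γ p.2) : ℂ))) : Disc) : ℂ) - x) := by
    have h1 : Continuous (fun p : unitInterval × Circle =>
        ((1 - (p.1 : ℝ) : ℝ) : ℂ) * (h (γ p.2) : ℂ)) := by fun_prop
    have h2 := h.symm.continuous.comp (proj_cont.comp h1)
    exact (continuous_subtype_val.comp h2).sub continuous_const
  have hne : ∀ p : unitInterval × Circle,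
      ((h.symm (proj (((1 - (p.1 : ℝ) : ℝ) : ℂ) * (h (γ p.2) : ℂ))) : Disc) : ℂ) - x ≠ 0 := by
    intro p h0
    have h1 : h.symm (proj (((1 - (p.1 : ℝ) : ℝ) : ℂ) * (h (γ p.2) : ℂ))) = x :=
      Subtype.ext (sub_eq_zero.1 h0)
    have h2 : proj (((1 - (p.1 : ℝ) : ℝ) : ℂ) * (h (γ p.2) : ℂ)) = h x := by
      rw [← h1, h.apply_symm_apply]
    have h3 : ‖((1 - (p.1 : ℝ) : ℝ) : ℂ) * (h (γ p.2) : ℂ)‖ ≤ 1 := by
      rw [norm_mul, norm_real, Real.norm_eq_abs, abs_of_nonneg (by linarith [p.1.2.2])]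
      have h4 : ‖(h (γ p.2) : ℂ)‖ ≤ 1 := mem_closedBall_zero_iff.1 (h (γ p.2)).2
      exact mul_le_one₀ (by linarith [p.1.2.1]) (norm_nonneg _) h4
    have h4 := congr_arg (fun y : Disc => (y : ℂ)) h2
    simp only [proj_of_le h3] at h4
    have h5 : ‖((1 - (p.1 : ℝ) : ℝ) : ℂ) * (h (γ p.2) : ℂ)‖ = 1 := by rw [h4, heq]
    rw [norm_mul, norm_real, Real.norm_eq_abs, abs_of_nonneg (by linarith [p.1.2.2])] at h5
    have h6 : ‖(h (γ p.2) : ℂ)‖ ≤ 1 := mem_closedBall_zero_iff.1 (h (γ p.2)).2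
    have h7 : (p.1 : ℝ) = 0 := by
      have a := p.1.2.1
      have b := p.1.2.2
      nlinarith [norm_nonneg (h (γ p.2) : ℂ)]
    rw [h7] at h4
    have h8 : h (γ p.2) = h x := Subtype.ext (by simpa using h4)
    exact hγx p.2 (h.injective h8)
  have hW := HasW.homotopy hcont hne (n := 1) (by
    have h1 : HasW (fun _ : Circle => (δ : ℂ)) 0 :=
      HasW.of_log (L := fun _ => (Real.log δ : ℂ)) continuous_const
        (fun _ => by rw [← ofReal_exp, Real.exp_log hδp])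
    have h2 := h1.mul hasW_id
    rw [zero_add] at h2
    refine h2.congr fun c => ?_
    have h3 : proj (h (γ c) : ℂ) = h (γ c) := proj_coe _
    simp only [Set.Icc.coe_zero, sub_zero, ofReal_one, one_mul, h3, h.symm_apply_apply]
    rw [hγv]; ring)
  simp only [Set.Icc.coe_one, sub_self, ofReal_zero, zero_mul] at hW
  have hne0 : ((h.symm (proj 0) : Disc) : ℂ) - x ≠ 0 := by
    have := hne (1, 1)
    simpa using this
  have hW0 : HasW (fun _ : Circle => ((h.symm (proj 0) : Disc) : ℂ) - x) 0 :=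
    HasW.of_log (L := fun _ => log (((h.symm (proj 0) : Disc) : ℂ) - x)) continuous_const
      (fun _ => by rw [exp_log hne0])
  have := hW.unique hW0
  norm_num at this

theorem main : ∃ f : Disc → E3, IsSaddle discBoundary f ∧ ∃ ε : ℝ, 0 < ε ∧
    ∀ g : Disc → E3, IsSmoothSaddle g → ENNReal.ofReal ε ≤ frechetDist f g := by
  refine ⟨fun x => ff x, ff_saddle, ?_⟩
  obtain ⟨b₀, hb₀, hb⟩ := bulge_uniform
  obtain ⟨ε, hε⟩ : ∃ ε, ε = min (b₀ / 4000) (1/2000) := ⟨_, rfl⟩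
  have hεp : 0 < ε := by rw [hε]; exact lt_min (by positivity) (by norm_num)
  have h1 : ε ≤ b₀ / 4000 := by rw [hε]; exact min_le_left _ _
  have h2 : ε ≤ 1/2000 := by rw [hε]; exact min_le_right _ _
  refine ⟨ε, hεp, ?_⟩
  rintro g ⟨hs, G, hgG, hG2, him⟩
  by_contra hlt
  rw [not_le] at hlt
  obtain ⟨h, hh⟩ := iInf_lt_iff.1 hlt
  have hclose : ∀ x : Disc, ‖G (h x) - ff x‖ ≤ ε := by
    intro x
    have h3 : edist (ff x) (g (h x)) < ENNReal.ofReal ε :=
      lt_of_le_of_lt (le_iSup (fun x : Disc => edist (ff x) (g (h x))) x) hh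
    rw [edist_lt_ofReal, dist_comm, dist_eq_norm, hgG] at h3
    exact h3.le
  have hS : Small ε ε b₀ := ⟨hb, by linarith, by linarith, hεp.le⟩
  have hmem : ∀ z ∈ Metric.ball (0 : ℂ) 1, (proj z : ℂ) = z := fun z hz =>
    proj_of_le (mem_ball_zero_iff.1 hz).le
  refine core_false hS hεp (g := G) (φ := fun z => (h (proj z) : ℂ))
    (ψ := fun z => (h.symm (proj z) : ℂ)) ⟨hG2.of_le (by norm_num), him,
      maxP_of_saddle hs hgG hG2 him, ?_, ?_, ?_, ?_, ?_, ?_, ?_, ?_⟩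
  · exact (continuous_subtype_val.comp (h.continuous.comp proj_cont)).continuousOn
  · exact (continuous_subtype_val.comp (h.symm.continuous.comp proj_cont)).continuousOn
  · intro z hz
    rw [mem_ball_zero_iff]
    refine homeo_interior h ?_
    rw [hmem z hz]; exact mem_ball_zero_iff.1 hz
  · intro z hz
    rw [mem_ball_zero_iff]
    refine homeo_interior h.symm ?_
    rw [hmem z hz]; exact mem_ball_zero_iff.1 hz
  · intro z hz
    simp only [proj_coe, h.symm_apply_apply]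
    exact hmem z hz
  · intro z hz
    simp only [proj_coe, h.apply_symm_apply]
    exact hmem z hz
  · intro z hz
    have := hclose (proj z)
    rwa [hmem z hz] at this
  · exact ⟨hεp.le, by linarith⟩

end Saddle486
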